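import Pool.Agent.H483.SA.Wt
import Pool.Agent.H483.FE.Gfac

set_option autoImplicit false

/-!
# Gamma factors are admissible
-/

namespace Pool.Agent.H483.SA

open Set Filter Topology Complex Asymptotics
open Pool.Agent.H483.FE
open scoped ComplexConjugate

variable {r : ℕ}

/-- the gamma factor -/
noncomputable def gm (c : ℂ) (lam : Fin r → ℝ) (mu : Fin r → ℂ) (s : ℂ) : ℂ :=
  c * ∏ j, Complex.Gamma ((lam j : ℂ) * s + mu j)

/-- the reflected gamma factor -/
noncomputable def gr (lam : Fin r → ℝ) (mu : Fin r → ℂ) (s : ℂ) : ℂ :=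
  ∏ j, (Complex.Gamma (((-lam j : ℝ) : ℂ) * s + (lam j + conj (mu j))))⁻¹

/-- the quotient -/
noncomputable def GG (c : ℂ) (lam : Fin r → ℝ) (mu : Fin r → ℂ) (s : ℂ) : ℂ :=
  (c / conj c) * (∏ j, Complex.Gamma ((lam j : ℂ) * s + mu j)) * gr lam mu s

lemma refl_arg (l : ℝ) (μ s : ℂ) : ((-l : ℝ) : ℂ) * s + (l + conj μ) = conj ((l : ℂ) * (1 - conj s) + μ) := by
  simp only [map_add, map_mul, map_sub, map_one, Complex.conj_conj, Complex.conj_ofReal]
  push_cast
  ring

lemma gr_norm (lam : Fin r → ℝ) (mu : Fin r → ℂ) (s : ℂ) :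
    ‖gr lam mu s‖ = ‖∏ j, (Complex.Gamma ((lam j : ℂ) * (1 - conj s) + mu j))⁻¹‖ := by
  unfold gr
  rw [norm_prod, norm_prod]
  apply Finset.prod_congr rfl
  intro j _
  rw [refl_arg, Complex.Gamma_conj, norm_inv, norm_inv, Complex.norm_conj]

lemma UpB.reflect {f g : ℂ → ℂ} {κ : ℝ} (hf : UpB f κ) (h : ∀ s, ‖g s‖ ≤ ‖f (1 - conj s)‖) : UpB g κ := by
  intro a b hab
  obtain ⟨C, M, T, hC, hM, hb⟩ := hf (1 - b) (1 - a) (by linarith)
  refine ⟨C, M, T, hC, hM, fun s h1 h2 h3 => (h s).trans ?_⟩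
  have e : (1 - conj s).im = s.im := by simp
  have := hb (1 - conj s) (by simp; linarith) (by simp; linarith) (by rw [e]; exact h3)
  rwa [e] at this

lemma gm_UpB (c : ℂ) {lam : Fin r → ℝ} (mu : Fin r → ℂ) (hl : ∀ j, 0 < lam j) : UpB (gm c lam mu) (∑ j, lam j) := by
  have h1 : UpB (fun _ : ℂ => c) 0 := fun a b _ => ⟨‖c‖, 0, 0, norm_nonneg _, le_rfl, fun s _ _ _ => by simp [st]⟩
  have h := h1.mul (UpB.prod Finset.univ (fun j _ => Gamma_UpB (hl j) (mu j)))
  rw [zero_add] at h
  exact h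

lemma GG_UpB (c : ℂ) {lam : Fin r → ℝ} (mu : Fin r → ℂ) (hl : ∀ j, 0 < lam j) : UpB (GG c lam mu) 0 := by
  have h1 : UpB (gm (c / conj c) lam mu) (∑ j, lam j) := gm_UpB (c / conj c) mu hl
  have h2 : UpB (gr lam mu) (∑ j, -lam j) :=
    UpB.reflect (UpB.prod Finset.univ (fun j _ => invGamma_UpB (hl j) (mu j))) (fun s => (gr_norm lam mu s).le)
  have h := h1.mul h2
  rw [Finset.sum_neg_distrib, add_neg_cancel] at h
  exact h

lemma gm_diff (c : ℂ) {lam : Fin r → ℝ} {mu : Fin r → ℂ} (hl : ∀ j, 0 < lam j) (hm : ∀ j, 0 ≤ (mu j).re) {s : ℂ}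
    (hs : 0 < s.re) : DifferentiableAt ℂ (gm c lam mu) s := by
  unfold gm
  apply DifferentiableAt.const_mul
  apply DifferentiableAt.fun_finsetProd
  intro j _
  apply Gamma_aff_diff
  rw [re_aff]
  have h1 := hm j
  have h2 := hl j
  have := mul_pos h2 hs
  linarith

lemma gr_diff (lam : Fin r → ℝ) (mu : Fin r → ℂ) : Differentiable ℂ (gr lam mu) := by
  unfold gr
  apply Differentiable.fun_finsetProd
  intro j _
  exact inv_Gamma_diff _ _

lemma GG_diff (c : ℂ) {lam : Fin r → ℝ} {mu : Fin r → ℂ} (hl : ∀ j, 0 < lam j) (hm : ∀ j, 0 ≤ (mu j).re) {s : ℂ}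
    (hs : 0 < s.re) : DifferentiableAt ℂ (GG c lam mu) s :=
  (gm_diff (c / conj c) hl hm hs).mul (gr_diff lam mu s)

lemma gm_ne {c : ℂ} (hc : c ≠ 0) {lam : Fin r → ℝ} {mu : Fin r → ℂ} (hl : ∀ j, 0 < lam j) (hm : ∀ j, 0 ≤ (mu j).re)
    {s : ℂ} (hs : 0 < s.re) : gm c lam mu s ≠ 0 := by
  unfold gm
  refine mul_ne_zero hc (Finset.prod_ne_zero_iff.2 fun j _ => Complex.Gamma_ne_zero_of_re_pos ?_)
  rw [re_aff]
  have := mul_pos (hl j) hs
  linarith [hm j]

lemma gm_Asy {c : ℂ} (hc : c ≠ 0) {lam : Fin r → ℝ} (mu : Fin r → ℂ) (hl : ∀ j, 0 < lam j) (σ : ℝ) :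
    Asy (fun t : ℝ => gm c lam mu ((σ : ℂ) + t * I)) (∑ j, (lam j * σ + (mu j).re - 1 / 2)) (∑ j, lam j) := by
  have h := (const_Asy hc).mul (Asy.prod Finset.univ (fun j _ => Gamma_Asy (hl j) (mu j) σ))
  rw [zero_add, zero_add] at h
  exact h

lemma asy_of_norm {f g : ℝ → ℂ} {e κ : ℝ} (hf : Asy f e κ) (h : ∀ t, ‖g t‖ = ‖f t‖) : Asy g e κ := by
  obtain ⟨c, C, T, hc, hC, hb⟩ := hf
  exact ⟨c, C, T, hc, hC, fun t ht => by rw [h t]; exact hb t ht⟩

lemma GG_Asy {c : ℂ} (hc : c ≠ 0) {lam : Fin r → ℝ} (mu : Fin r → ℂ) (hl : ∀ j, 0 < lam j) (σ : ℝ) :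
    Asy (fun t : ℝ => GG c lam mu ((σ : ℂ) + t * I)) ((2 * σ - 1) * ∑ j, lam j) 0 := by
  have hc' : c / conj c ≠ 0 := div_ne_zero hc (by simpa using hc)
  have h1 := gm_Asy hc' mu hl σ
  have h2 : Asy (fun t : ℝ => gr lam mu ((σ : ℂ) + t * I)) (∑ j, -(lam j * (1 - σ) + (mu j).re - 1 / 2)) (∑ j, -lam j) := by
    refine asy_of_norm (Asy.prod Finset.univ (fun j _ => (Gamma_Asy (hl j) (mu j) (1 - σ)).inv)) fun t => ?_
    rw [gr_norm]
    congr 1
    apply Finset.prod_congr rfl
    intro j _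
    have e : (1 - conj ((σ : ℂ) + t * I)) = (((1 - σ : ℝ)) : ℂ) + t * I := by
      simp only [map_add, map_mul, Complex.conj_ofReal, Complex.conj_I]
      push_cast
      ring
    rw [e]
  have h := h1.mul h2
  have e1 : ∑ j, (lam j * σ + (mu j).re - 1 / 2) + ∑ j, -(lam j * (1 - σ) + (mu j).re - 1 / 2) =
      (2 * σ - 1) * ∑ j, lam j := by
    rw [← Finset.sum_add_distrib, Finset.mul_sum]
    apply Finset.sum_congr rfl
    intro j _
    ring
  have e2 : ∑ j, lam j + ∑ j, -lam j = 0 := by rw [Finset.sum_neg_distrib, add_neg_cancel]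
  rw [e1, e2] at h
  exact h

/-- decay of the quotient on a line -/
lemma GG_line {c : ℂ} (hc : c ≠ 0) {lam : Fin r → ℝ} {mu : Fin r → ℂ} (hl : ∀ j, 0 < lam j) (hm : ∀ j, 0 ≤ (mu j).re)
    {σ : ℝ} (hσ : 0 < σ) (h1 : 1 ≤ (1 - 2 * σ) * ∑ j, lam j) :
    ∃ C : ℝ, 0 ≤ C ∧ ∀ s : ℂ, s.re = σ → (1 + |s.im|) * ‖GG c lam mu s‖ ≤ C := by
  obtain ⟨C, hC, h⟩ := ratio_of_Asy (GG_Asy hc mu hl σ) (const_Asy (c := 1) one_ne_zero) (by linarith)
    (line_cont fun s hs => GG_diff c hl hm (by linarith)) continuous_const (fun _ => one_ne_zero)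
  refine ⟨C, hC, fun s hs => ?_⟩
  have := h s.im
  rw [norm_one, mul_one, ← hs, Complex.re_add_im] at this
  exact this

/-- decay of the quotient in a strip -/
lemma GG_strip {c : ℂ} (hc : c ≠ 0) {lam : Fin r → ℝ} {mu : Fin r → ℂ} (hl : ∀ j, 0 < lam j) (hm : ∀ j, 0 ≤ (mu j).re)
    {a b : ℝ} (ha : 0 < a) (hab : a < b) (h1 : 1 ≤ (1 - 2 * b) * ∑ j, lam j) :
    ∃ C : ℝ, 0 ≤ C ∧ ∀ s : ℂ, a ≤ s.re → s.re ≤ b → (1 + |s.im|) * ‖GG c lam mu s‖ ≤ C := by
  have hS : 0 ≤ ∑ j, lam j := Finset.sum_nonneg fun j _ => (hl j).le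
  obtain ⟨Ca, hCa, hA⟩ := GG_line hc hl hm ha (by nlinarith : 1 ≤ (1 - 2 * a) * ∑ j, lam j)
  obtain ⟨Cb, hCb, hB⟩ := GG_line hc hl hm (by linarith : 0 < b) h1
  obtain ⟨C0, M, T, hC0, hM, hU⟩ := GG_UpB c mu hl a b hab.le
  set F : ℂ → ℂ := fun s => (s + 1) * GG c lam mu s with hF
  have hup : ∀ s : ℂ, a ≤ s.re → s.re ≤ b → ‖s + 1‖ ≤ (b + 1) * (1 + |s.im|) := by
    intro s hs hs'
    refine (Complex.norm_le_abs_re_add_abs_im _).trans ?_
    have e1 : (s + 1).re = s.re + 1 := by simp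
    have e2 : (s + 1).im = s.im := by simp
    rw [e1, e2, abs_of_nonneg (by linarith)]
    have := abs_nonneg s.im
    nlinarith
  have hlow : ∀ s : ℂ, a ≤ s.re → (1 + |s.im|) / 2 ≤ ‖s + 1‖ := by
    intro s hs
    have k1 : 1 ≤ ‖s + 1‖ := by
      refine le_trans ?_ (Complex.re_le_norm _)
      simp
      linarith
    have k2 : |s.im| ≤ ‖s + 1‖ := by
      have := Complex.abs_im_le_norm (s + 1)
      simpa using this
    linarith
  have hmain : ∀ s : ℂ, a ≤ s.re → s.re ≤ b → ‖F s‖ ≤ (b + 1) * (Ca + Cb) := by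
    intro s hs1 hs2
    refine PhragmenLindelof.vertical_strip (a := a) (b := b) ?_ ?_ ?_ ?_ hs1 hs2
    · apply DifferentiableOn.diffContOnCl
      intro z hz
      have hz' : a ≤ z.re := by
        have : closure (re ⁻¹' Ioo a b) ⊆ re ⁻¹' (Icc a b) := by
          apply closure_minimal (preimage_mono Ioo_subset_Icc_self)
          exact isClosed_Icc.preimage Complex.continuous_re
        exact (this hz).1
      apply DifferentiableAt.differentiableWithinAt
      exact DifferentiableAt.mul (by fun_prop) (GG_diff c hl hm (by linarith))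
    · have hpi : 0 < Real.pi / (b - a) := div_pos Real.pi_pos (by linarith)
      set c0 := Real.pi / (b - a) / 2 with hc0
      have hc00 : 0 < c0 := by positivity
      refine ⟨c0, by linarith, (M + 1) / c0, ?_⟩
      apply IsBigO.of_bound ((b + 1) * C0)
      rw [eventually_inf_principal]
      have hev : ∀ᶠ z : ℂ in comap (fun z : ℂ => |z.im|) atTop, T ≤ |z.im| :=
        (eventually_ge_atTop T).comap _
      filter_upwards [hev] with z hzT hz
      have hz1 : a ≤ z.re := hz.1.le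
      have hz2 : z.re ≤ b := hz.2.le
      rw [Real.norm_eq_abs, Real.abs_exp]
      have k1 := hU z hz1 hz2 hzT
      have e0 : st M 0 z.im = (1 + |z.im|) ^ M := by unfold st; simp
      rw [e0] at k1
      have h0 : 0 ≤ |z.im| := abs_nonneg _
      have k3 : 1 + |z.im| ≤ Real.exp |z.im| := by linarith [Real.add_one_le_exp |z.im|]
      have k4 : (1 + |z.im|) * (1 + |z.im|) ^ M ≤ Real.exp ((M + 1) * |z.im|) := by
        calc _ ≤ Real.exp |z.im| * (Real.exp |z.im|) ^ M := by gcongr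
          _ = _ := by rw [← Real.exp_mul, ← Real.exp_add]; congr 1; ring
      have k5 : (M + 1) * |z.im| ≤ (M + 1) / c0 * Real.exp (c0 * |z.im|) := by
        have := Real.add_one_le_exp (c0 * |z.im|)
        calc (M + 1) * |z.im| = (M + 1) / c0 * (c0 * |z.im|) := by field_simp
          _ ≤ _ := by gcongr; linarith
      simp only [hF]
      rw [norm_mul]
      calc _ ≤ ((b + 1) * (1 + |z.im|)) * (C0 * (1 + |z.im|) ^ M) := by
            have h5 := hup z hz1 hz2
            exact mul_le_mul h5 k1 (norm_nonneg _) ((norm_nonneg _).trans h5)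
        _ = (b + 1) * C0 * ((1 + |z.im|) * (1 + |z.im|) ^ M) := by ring
        _ ≤ (b + 1) * C0 * Real.exp ((M + 1) * |z.im|) := by
            have : 0 ≤ (b + 1) * C0 := mul_nonneg (by linarith) hC0
            gcongr
        _ ≤ _ := by
            have : 0 ≤ (b + 1) * C0 := mul_nonneg (by linarith) hC0
            gcongr
    · intro z hz
      simp only [hF]
      rw [norm_mul]
      have h2 := hup z hz.ge (by linarith)
      have h3 := hA z hz
      calc _ ≤ ((b + 1) * (1 + |z.im|)) * ‖GG c lam mu z‖ := by gcongr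
        _ = (b + 1) * ((1 + |z.im|) * ‖GG c lam mu z‖) := by ring
        _ ≤ _ := by
            apply mul_le_mul_of_nonneg_left _ (by linarith)
            linarith
    · intro z hz
      simp only [hF]
      rw [norm_mul]
      have h2 := hup z (by linarith) hz.le
      have h3 := hB z hz
      calc _ ≤ ((b + 1) * (1 + |z.im|)) * ‖GG c lam mu z‖ := by gcongr
        _ = (b + 1) * ((1 + |z.im|) * ‖GG c lam mu z‖) := by ring
        _ ≤ _ := by
            apply mul_le_mul_of_nonneg_left _ (by linarith)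
            linarith
  refine ⟨2 * ((b + 1) * (Ca + Cb)), by have : 0 < b + 1 := by linarith
                                        positivity, fun s hs1 hs2 => ?_⟩
  have k1 := hmain s hs1 hs2
  have k2 := hlow s hs1
  simp only [hF] at k1
  rw [norm_mul] at k1
  have k3 : (1 + |s.im|) / 2 * ‖GG c lam mu s‖ ≤ ‖s + 1‖ * ‖GG c lam mu s‖ := by gcongr
  linarith

/-- **Admissibility.** -/
theorem gm_Adm2 {c : ℂ} (hc : c ≠ 0) {lam : Fin r → ℝ} {mu : Fin r → ℂ} (hl : ∀ j, 0 < lam j)
    (hm : ∀ j, 0 ≤ (mu j).re) {α : ℝ} (hα : 0 < α) (hα2 : α < 1 / 2) (h1 : 1 < (∑ j, lam j) * (2 * α)) :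
    Adm2 (gm c lam mu) α := by
  have hS : 0 < ∑ j, lam j := by
    by_contra hcon
    push Not at hcon
    nlinarith
  have hAdm : Adm (gm c lam mu) α := by
    refine ⟨fun s hs => gm_diff c hl hm hs, ?_, hα, hα2, ?_⟩
    · intro a b ha hab
      obtain ⟨C, M, T, hC, hM, h⟩ := gm_UpB c mu hl a b hab
      obtain ⟨C', δ, hδ, hC', h'⟩ := st_decay hM hS
      set T0 := max T 0 with hT0
      have hK : IsCompact (Icc a b ×ℂ Icc (-T0) T0) := isCompact_Icc.reProdIm isCompact_Icc
      have hcont : ContinuousOn (gm c lam mu) (Icc a b ×ℂ Icc (-T0) T0) := by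
        intro s hs
        rw [mem_reProdIm] at hs
        exact (gm_diff c hl hm (by linarith [hs.1.1])).continuousAt.continuousWithinAt
      obtain ⟨B, hB⟩ := hK.exists_bound_of_continuousOn hcont
      refine ⟨C * C' + |B| * Real.exp (δ * T0), δ, hδ, fun s h1 h2 => ?_⟩
      rcases le_total T0 |s.im| with ht | ht
      · calc _ ≤ C * st M (∑ j, lam j) s.im := h s h1 h2 ((le_max_left _ _).trans ht)
          _ ≤ C * (C' * Real.exp (-δ * |s.im|)) := by gcongr; exact h' _
          _ = C * C' * Real.exp (-δ * |s.im|) := by ring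
          _ ≤ _ := by
            apply mul_le_mul_of_nonneg_right _ (Real.exp_pos _).le
            have : 0 ≤ |B| * Real.exp (δ * T0) := by positivity
            linarith
      · have hs : s ∈ Icc a b ×ℂ Icc (-T0) T0 := by
          rw [mem_reProdIm]; exact ⟨⟨h1, h2⟩, abs_le.1 ht⟩
        have k1 : 1 ≤ Real.exp (δ * T0) * Real.exp (-δ * |s.im|) := by
          rw [← Real.exp_add]
          apply Real.one_le_exp
          nlinarith
        calc _ ≤ B := hB s hs
          _ ≤ |B| := le_abs_self _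
          _ ≤ |B| * (Real.exp (δ * T0) * Real.exp (-δ * |s.im|)) := le_mul_of_one_le_right (abs_nonneg _) k1
          _ = |B| * Real.exp (δ * T0) * Real.exp (-δ * |s.im|) := by ring
          _ ≤ _ := by
            apply mul_le_mul_of_nonneg_right _ (Real.exp_pos _).le
            have : 0 ≤ C * C' := by positivity
            linarith
    · have hA := gm_Asy hc mu hl (1 / 2 - α)
      have hB := gm_Asy hc mu hl (1 / 2 + α)
      have e1 : ∑ j, (lam j * (1 / 2 + α) + (mu j).re - 1 / 2) =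
          ∑ j, (lam j * (1 / 2 - α) + (mu j).re - 1 / 2) + (∑ j, lam j) * (2 * α) := by
        rw [Finset.sum_mul, ← Finset.sum_add_distrib]
        apply Finset.sum_congr rfl
        intro j _
        ring
      exact ratio_of_Asy hA hB (by rw [e1]; linarith)
        (line_cont fun s hs => gm_diff c hl hm (by linarith)) (line_cont fun s hs => gm_diff c hl hm (by linarith))
        (fun t => gm_ne hc hl hm (by simp; linarith))
  -- the quotient
  obtain ⟨ε, hε, hε1, hε2⟩ : ∃ ε : ℝ, 0 < ε ∧ ε < 1 / 2 - α ∧ 1 ≤ (1 - 2 * (1 / 2 - α + ε)) * ∑ j, lam j := by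
    set S := ∑ j, lam j with hSd
    set e0 := (S * (2 * α) - 1) / (2 * S) with he0
    have he00 : 0 < e0 := by rw [he0]; apply div_pos <;> linarith
    refine ⟨min e0 ((1 / 2 - α) / 2), lt_min he00 (by linarith), ?_, ?_⟩
    · exact lt_of_le_of_lt (min_le_right _ _) (by linarith)
    · have h3 : min e0 ((1 / 2 - α) / 2) ≤ e0 := min_le_left _ _
      have h4 : e0 * (2 * S) = S * (2 * α) - 1 := by rw [he0]; field_simp
      nlinarith
  obtain ⟨C, hC, hstrip⟩ := GG_strip hc hl hm (a := 1 / 2 - α - ε) (b := 1 / 2 - α + ε) (by linarith) (by linarith) hε2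
  have hpi := Real.pi_pos
  have hopen : IsOpen {s : ℂ | 0 < s.re} := isOpen_lt continuous_const Complex.continuous_re
  have hhol : DifferentiableOn ℂ (GG c lam mu) {s : ℂ | 0 < s.re} := fun s hs =>
    (GG_diff c hl hm hs).differentiableWithinAt
  have hdcont : ContinuousOn (deriv (GG c lam mu)) {s : ℂ | 0 < s.re} :=
    (hhol.deriv hopen).continuousOn
  have hline0 : ∀ t : ℝ, 0 < (ln (1 / 2 - α) t).re := by intro t; simp; linarith
  refine ⟨hAdm, fun t => GG c lam mu (ln (1 / 2 - α) t),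
    fun t => deriv (GG c lam mu) (ln (1 / 2 - α) t) * ((2 * Real.pi : ℝ) * I), C + 2 * Real.pi * (C * (1 + ε) / ε),
    ?_, ?_, ?_, ?_, ?_⟩
  · intro t
    have h2 : HasDerivAt (fun t : ℝ => ln (1 / 2 - α) t) (((2 * Real.pi : ℝ) : ℂ) * I) t := by
      unfold ln
      have h3 : HasDerivAt (fun t : ℝ => ((2 * Real.pi * t : ℝ) : ℂ)) ((2 * Real.pi : ℝ) : ℂ) t := by
        have := (hasDerivAt_id t).const_mul (2 * Real.pi)
        simpa using! this.ofReal_comp
      simpa using! (h3.mul_const I).const_add ((1 / 2 - α : ℝ) : ℂ)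
    exact (GG_diff c hl hm (hline0 t)).hasDerivAt.comp t h2
  · apply Continuous.mul _ continuous_const
    rw [continuous_iff_continuousAt]
    intro t
    have h2 : ContinuousAt (deriv (GG c lam mu)) (ln (1 / 2 - α) t) :=
      hdcont.continuousAt (hopen.mem_nhds (hline0 t))
    exact ContinuousAt.comp (g := deriv (GG c lam mu)) (f := ln (1 / 2 - α)) h2 (ln_cont _).continuousAt
  · intro t
    have h2 := hstrip (ln (1 / 2 - α) t) (by simp; linarith) (by simp; linarith)
    rw [ln_im, abs_mul, abs_of_pos (by positivity : 0 < 2 * Real.pi)] at h2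
    have h3 : 1 + |t| ≤ 1 + 2 * Real.pi * |t| := by
      have := Real.pi_gt_three
      nlinarith [abs_nonneg t]
    have h4 : 0 ≤ 2 * Real.pi * (C * (1 + ε) / ε) := by positivity
    calc _ ≤ (1 + 2 * Real.pi * |t|) * ‖GG c lam mu (ln (1 / 2 - α) t)‖ := by gcongr
      _ ≤ _ := by linarith
  · intro t
    set s0 := ln (1 / 2 - α) t with hs0
    have hd : ‖deriv (GG c lam mu) s0‖ ≤ (C * (1 + ε) / (1 + |s0.im|)) / ε := by
      apply Complex.norm_deriv_le_of_forall_mem_sphere_norm_le hε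
      · apply DifferentiableOn.diffContOnCl
        intro z hz
        rw [closure_ball _ hε.ne', Metric.mem_closedBall, dist_eq_norm] at hz
        apply DifferentiableAt.differentiableWithinAt
        apply GG_diff c hl hm
        have h5 := Complex.abs_re_le_norm (z - s0)
        rw [Complex.sub_re, hs0, ln_re] at h5
        have h6 := neg_abs_le (z.re - (1 / 2 - α))
        linarith
      · intro z hz
        rw [mem_sphere_iff_norm] at hz
        have h5 := Complex.abs_re_le_norm (z - s0)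
        rw [Complex.sub_re, hz, hs0, ln_re, abs_le] at h5
        have h6 := Complex.abs_im_le_norm (z - s0)
        rw [Complex.sub_im, hz] at h6
        have h7 := hstrip z (by linarith [h5.1]) (by linarith [h5.2])
        have h8 : |s0.im| ≤ |z.im| + ε := by
          have := abs_sub_abs_le_abs_sub s0.im z.im
          rw [abs_sub_comm] at h6
          linarith
        have h9 := abs_nonneg z.im
        rw [le_div_iff₀ (by positivity)]
        calc ‖GG c lam mu z‖ * (1 + |s0.im|) ≤ ‖GG c lam mu z‖ * ((1 + ε) * (1 + |z.im|)) := by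
              gcongr
              nlinarith
          _ = (1 + ε) * ((1 + |z.im|) * ‖GG c lam mu z‖) := by ring
          _ ≤ (1 + ε) * C := by gcongr
          _ = _ := by ring
    rw [norm_mul, norm_mul, Complex.norm_I, mul_one, Complex.norm_real, Real.norm_eq_abs,
      abs_of_pos (by positivity : 0 < 2 * Real.pi)]
    have h3 : 1 + |t| ≤ 1 + |s0.im| := by
      rw [hs0, ln_im, abs_mul, abs_of_pos (by positivity : 0 < 2 * Real.pi)]
      have := Real.pi_gt_three
      nlinarith [abs_nonneg t]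
    calc _ ≤ (1 + |s0.im|) * (((C * (1 + ε) / (1 + |s0.im|)) / ε) * (2 * Real.pi)) := by gcongr
      _ = 2 * Real.pi * (C * (1 + ε) / ε) := by
          have : 1 + |s0.im| ≠ 0 := by have := abs_nonneg s0.im; positivity
          field_simp
      _ ≤ _ := by linarith
  · intro t
    set s0 := ln (1 / 2 - α) t with hs0
    have hcs : conj c ≠ 0 := by simpa using hc
    have e1 : 1 - conj s0 = ln (1 / 2 + α) t := by
      rw [hs0]
      simp only [ln, map_add, map_mul, Complex.conj_ofReal, Complex.conj_I]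
      push_cast
      ring
    have e2 : conj (gm c lam mu (ln (1 / 2 + α) t)) * gr lam mu s0 = conj c := by
      unfold gm gr
      rw [map_mul, map_prod, mul_assoc, ← Finset.prod_mul_distrib, Finset.prod_eq_one, mul_one]
      intro j _
      rw [refl_arg, e1, Complex.Gamma_conj]
      apply mul_inv_cancel₀
      rw [Ne, map_eq_zero]
      apply Complex.Gamma_ne_zero_of_re_pos
      rw [re_aff, ln_re]
      have := mul_pos (hl j) (by linarith : 0 < 1 / 2 + α)
      linarith [hm j]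
    have e3 : GG c lam mu s0 * conj (gm c lam mu (ln (1 / 2 + α) t)) =
        (c / conj c) * (∏ j, Complex.Gamma ((lam j : ℂ) * s0 + mu j)) *
        (conj (gm c lam mu (ln (1 / 2 + α) t)) * gr lam mu s0) := by
      unfold GG; ring
    rw [e3, e2]
    unfold gm
    generalize (∏ j, Complex.Gamma ((lam j : ℂ) * s0 + mu j)) = W
    field_simp

end Pool.Agent.H483.SA
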