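import Pool.Agent.H483.SA.Core
import Pool.Agent.H483.SA.GamA
import Pool.Agent.H483.SA.Fix2
import Pool.Graph.R_seed8.H902R3.PZ.W3
import Pool.Graph.R_seed8.H336Sel.Growth

set_option autoImplicit false

/-!
# From the relations to the Dirichlet series
-/

namespace Pool.Agent.H483.SA

open Set Filter Topology Complex
open Pool.Agent.H483.FE Pool.Agent.H902R3.PZ
open scoped ComplexConjugate

lemma real_gamma_le {x0 : ℝ} (hx0 : 0 < x0) : ∃ C : ℝ, 0 ≤ C ∧ ∀ x : ℝ, x0 ≤ x →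
    Real.Gamma x ≤ Real.exp (C * (1 + x) ^ 2) := by
  refine ⟨4 + 1 / x0, by positivity, fun x hx => ?_⟩
  have hx1 : 0 < x := by linarith
  set N : ℕ := ⌈x⌉₊ + 1 with hN
  have hN1 : (N : ℝ) ≤ x + 2 := by
    rw [hN]; push_cast
    linarith [Nat.ceil_lt_add_one hx1.le]
  have hN0 : x + 1 ≤ (N : ℝ) := by
    rw [hN]; push_cast
    linarith [Nat.le_ceil x]
  have h1 : Real.Gamma (x + 2) = (x + 1) * (x * Real.Gamma x) := by
    rw [← Real.Gamma_add_one hx1.ne', show x + 2 = (x + 1) + 1 by ring, Real.Gamma_add_one (by linarith)]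
  have h2 : Real.Gamma (x + 2) ≤ Real.Gamma ((N : ℝ) + 1) := by
    apply Real.Gamma_strictMonoOn_Ici.monotoneOn
    · simp; linarith
    · simp; linarith
    · linarith
  have h3 : Real.Gamma ((N : ℝ) + 1) = (N.factorial : ℝ) := Real.Gamma_nat_eq_factorial N
  have h4 : (N.factorial : ℝ) ≤ (N : ℝ) ^ N := by exact_mod_cast Nat.factorial_le_pow N
  have hNpos : (0:ℝ) < N := by linarith
  have h5 : (N : ℝ) ^ N ≤ Real.exp ((N : ℝ) * N) := by
    have : (N : ℝ) ≤ Real.exp N := by linarith [Real.add_one_le_exp (N : ℝ)]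
    calc (N : ℝ) ^ N ≤ (Real.exp N) ^ N := by gcongr
      _ = _ := by rw [← Real.exp_nat_mul]
  have h6 : Real.exp ((N : ℝ) * N) ≤ Real.exp (4 * (1 + x) ^ 2) := by
    apply Real.exp_le_exp.2
    nlinarith
  have hG := Real.Gamma_pos_of_pos hx1
  have h7 : x0 * Real.Gamma x ≤ Real.Gamma (x + 2) := by
    rw [h1]
    have : x0 * Real.Gamma x ≤ x * Real.Gamma x := by gcongr
    nlinarith [mul_pos hx1 hG]
  have h8 : Real.Gamma x ≤ 1 / x0 * Real.exp (4 * (1 + x) ^ 2) := by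
    rw [div_mul_eq_mul_div, one_mul, le_div_iff₀ hx0]
    linarith
  refine h8.trans ?_
  have h9 : 1 / x0 ≤ Real.exp (1 / x0 * (1 + x) ^ 2) := by
    have h10 : 1 / x0 ≤ 1 / x0 * (1 + x) ^ 2 := le_mul_of_one_le_right (by positivity) (by nlinarith)
    linarith [Real.add_one_le_exp (1 / x0 * (1 + x) ^ 2)]
  calc _ ≤ Real.exp (1 / x0 * (1 + x) ^ 2) * Real.exp (4 * (1 + x) ^ 2) := by gcongr
    _ = _ := by rw [← Real.exp_add]; congr 1; ring

lemma Gr.prod {ι : Type*} (s : Finset ι) {f : ι → ℂ → ℂ} (hf : ∀ i ∈ s, Gr (f i)) : Gr (fun z => ∏ i ∈ s, f i z) := by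
  classical
  induction s using Finset.induction_on with
  | empty => simpa using Gr.const 1
  | insert a s ha ih =>
    simp only [Finset.prod_insert ha]
    exact (hf a (Finset.mem_insert_self _ _)).mul (ih fun i hi => hf i (Finset.mem_insert_of_mem hi))

lemma Gr.norm_le {f g : ℂ → ℂ} (hf : Gr f) (h : ∀ s, ‖g s‖ ≤ ‖f s‖) : Gr g := by
  obtain ⟨C, hC, hb⟩ := hf
  exact ⟨C, hC, fun s => (h s).trans (hb s)⟩

lemma Gr.bdd {f : ℂ → ℂ} {C : ℝ} (h : ∀ s, ‖f s‖ ≤ C) : Gr f :=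
  Gr.norm_le (Gr.const (C : ℂ)) fun s => (h s).trans (by
    rw [Complex.norm_real, Real.norm_eq_abs]; exact le_abs_self C)

lemma Gr.piece {f g h : ℂ → ℂ} (hg : Gr g) (hh : Gr h) (H : ∀ s, ‖f s‖ ≤ ‖g s‖ ∨ ‖f s‖ ≤ ‖h s‖) : Gr f := by
  obtain ⟨C, hC, hb⟩ := hg
  obtain ⟨C', hC', hb'⟩ := hh
  refine ⟨max C C', le_max_of_le_left hC, fun s => ?_⟩
  rcases H s with h1 | h1
  · refine (h1.trans (hb s)).trans (Real.exp_le_exp.2 ?_)
    gcongr
    exact le_max_left _ _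
  · refine (h1.trans (hb' s)).trans (Real.exp_le_exp.2 ?_)
    gcongr
    exact le_max_right _ _

variable {r : ℕ}

/-- the gamma product, cut off on the left -/
lemma gamma_right_Gr {lam : Fin r → ℝ} {mu : Fin r → ℂ} (hl : ∀ j, 0 < lam j) (hm : ∀ j, 0 ≤ (mu j).re) :
    Gr (fun s : ℂ => if 1 ≤ s.re then ∏ j, Complex.Gamma ((lam j : ℂ) * s + mu j) else 0) := by
  have h1 : ∀ j : Fin r, Gr (fun s : ℂ => if 1 ≤ s.re then Complex.Gamma ((lam j : ℂ) * s + mu j) else 0) := by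
    intro j
    obtain ⟨C, hC, h⟩ := real_gamma_le (hl j)
    refine ⟨C * (1 + lam j + ‖mu j‖) ^ 2, by have := hl j; positivity, fun s => ?_⟩
    have hlj := hl j
    beta_reduce
    split_ifs with hs
    · have hre : lam j ≤ ((lam j : ℂ) * s + mu j).re := by
        rw [re_aff]
        have := hm j
        nlinarith
      have h2 := H336Sel.norm_Gamma_le (z := (lam j : ℂ) * s + mu j) (by linarith)
      refine h2.trans ((h _ hre).trans (Real.exp_le_exp.2 ?_))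
      rw [mul_assoc, ← mul_pow]
      have h3 : ((lam j : ℂ) * s + mu j).re ≤ lam j * ‖s‖ + ‖mu j‖ := by
        refine (Complex.re_le_norm _).trans ((norm_add_le _ _).trans ?_)
        rw [norm_mul, Complex.norm_real, Real.norm_eq_abs, abs_of_pos hlj]
      have h4 := norm_nonneg s
      have h5 := norm_nonneg (mu j)
      have h6 : 1 + ((lam j : ℂ) * s + mu j).re ≤ (1 + lam j + ‖mu j‖) * (1 + ‖s‖) := by
        nlinarith [mul_nonneg h5 h4]
      have h7 : 0 ≤ 1 + ((lam j : ℂ) * s + mu j).re := by linarith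
      gcongr
    · simp
      positivity
  refine Gr.norm_le (Gr.prod Finset.univ (fun j _ => h1 j)) fun s => ?_
  split_ifs with hs
  · exact le_rfl
  · simp

lemma cpow_Gr {Q : ℝ} (hQ : 0 < Q) (a b : ℂ) : Gr (fun s => (Q : ℂ) ^ (a * s + b)) := by
  have hQ' : (Q : ℂ) ≠ 0 := by exact_mod_cast hQ.ne'
  have h := Gr.exp_affine ((Real.log Q : ℂ) * a) ((Real.log Q : ℂ) * b)
  refine Gr.norm_le h fun s => le_of_eq ?_
  rw [Complex.cpow_def_of_ne_zero hQ', ← Complex.ofReal_log hQ.le]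
  congr 2
  ring

/-- the reciprocal of the completed gamma factor -/
noncomputable def ig (c : ℂ) (Q : ℝ) (lam : Fin r → ℝ) (mu : Fin r → ℂ) (s : ℂ) : ℂ :=
  c⁻¹ * (Q : ℂ) ^ (-s) * ∏ j, (Complex.Gamma ((lam j : ℂ) * s + mu j))⁻¹

lemma ig_diff (c : ℂ) {Q : ℝ} (hQ : 0 < Q) (lam : Fin r → ℝ) (mu : Fin r → ℂ) : Differentiable ℂ (ig c Q lam mu) := by
  have hQ' : (Q : ℂ) ≠ 0 := by exact_mod_cast hQ.ne'
  unfold ig
  apply Differentiable.mul
  · apply Differentiable.const_mul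
    intro s
    exact DifferentiableAt.const_cpow (by fun_prop) (Or.inl hQ')
  · apply Differentiable.fun_finsetProd
    intro j _
    exact inv_Gamma_diff _ _

lemma ig_Gr (c : ℂ) {Q : ℝ} (hQ : 0 < Q) (lam : Fin r → ℝ) (mu : Fin r → ℂ) : Gr (ig c Q lam mu) := by
  have h1 := cpow_Gr hQ (-1) 0
  have h2 : Gr (fun s : ℂ => ∏ j, (Complex.Gamma ((lam j : ℂ) * s + mu j))⁻¹) :=
    Gr.prod Finset.univ (fun j _ => Gr.inv_Gamma.comp_affine (lam j : ℂ) (mu j))
  have h3 := ((Gr.const c⁻¹).mul h1).mul h2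
  refine Gr.norm_le h3 fun s => le_of_eq ?_
  unfold ig
  congr 3
  ring_nf

lemma ig_mul {c : ℂ} (hc : c ≠ 0) {Q : ℝ} (hQ : 0 < Q) {lam : Fin r → ℝ} {mu : Fin r → ℂ} {s : ℂ}
    (hs : ∀ j, ∀ n : ℕ, (lam j : ℂ) * s + mu j ≠ -(n : ℂ)) :
    ig c Q lam mu s * ((Q : ℂ) ^ s * ∏ j, Complex.Gamma ((lam j : ℂ) * s + mu j)) = c⁻¹ := by
  have hQ' : (Q : ℂ) ≠ 0 := by exact_mod_cast hQ.ne'
  unfold ig
  have h1 : (∏ j, (Complex.Gamma ((lam j : ℂ) * s + mu j))⁻¹) * (∏ j, Complex.Gamma ((lam j : ℂ) * s + mu j)) = 1 := by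
    rw [← Finset.prod_mul_distrib, Finset.prod_eq_one]
    intro j _
    exact inv_mul_cancel₀ (Complex.Gamma_ne_zero (hs j))
  have h2 : (Q : ℂ) ^ (-s) * (Q : ℂ) ^ s = 1 := by
    rw [← Complex.cpow_add _ _ hQ']; simp
  calc _ = c⁻¹ * ((Q : ℂ) ^ (-s) * (Q : ℂ) ^ s) * ((∏ j, (Complex.Gamma ((lam j : ℂ) * s + mu j))⁻¹) *
      (∏ j, Complex.Gamma ((lam j : ℂ) * s + mu j))) := by ring
    _ = _ := by rw [h1, h2]; ring

/-- the Dirichlet series attached to a solution of the relations -/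
theorem series_of {c : ℂ} (hc : c ≠ 0) {Q : ℝ} (hQ : 0 < Q) {lam : Fin r → ℝ} {mu : Fin r → ℂ}
    (hl : ∀ j, 0 < lam j) (hm : ∀ j, 0 ≤ (mu j).re) {α : ℝ} (A : Adm (gm c lam mu) α) {a : ℕ → ℂ} (h0 : a 0 = 0)
    (ha : Summable fun n : ℕ => ‖a n‖ ^ 2 * (n : ℝ) ^ (-(2 * α)))
    (hr : ∀ h, Good (gm c lam mu) h → HasSum (fun n : ℕ => (a n * h (zz Q n)).re) 0) :
    ∃ G : ℂ → ℂ, Differentiable ℂ G ∧ Gr G ∧ (∀ s : ℂ, 1 / 2 + α < s.re → LSeriesSummable a s ∧ G s = LSeries a s) ∧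
    ∀ s : ℂ, (∀ j, ∀ n : ℕ, (lam j : ℂ) * s + mu j ≠ -(n : ℂ)) →
      (∀ j, ∀ n : ℕ, (lam j : ℂ) * (1 - conj s) + mu j ≠ -(n : ℂ)) →
      G s * (Q : ℂ) ^ s * ∏ j, Complex.Gamma ((lam j : ℂ) * s + mu j) =
        (conj c / c) * conj (G (1 - conj s) * (Q : ℂ) ^ (1 - conj s) *
          ∏ j, Complex.Gamma ((lam j : ℂ) * (1 - conj s) + mu j)) := by
  have hQ' : (Q : ℂ) ≠ 0 := by exact_mod_cast hQ.ne'
  have hc' : conj c ≠ 0 := by simpa using hc
  have hα := A.pos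
  have hα2 := A.lt
  obtain ⟨Λ, hΛd, hΛf, hΛb, hΛs⟩ := core_of (adm_scale A hQ) h0 ha (fun h hg => by
    have h1 := hr _ (good_scale hQ hg)
    refine h1.congr_fun fun n => ?_
    unfold zz
    simp)
  have hpos : ∀ s : ℂ, 0 < s.re → ∀ j, ∀ n : ℕ, (lam j : ℂ) * s + mu j ≠ -(n : ℂ) := by
    intro s hs j n h
    have h1 := congrArg Complex.re h
    rw [re_aff] at h1
    have h2 := mul_pos (hl j) hs
    have h3 := hm j
    have h4 : (0:ℝ) ≤ n := Nat.cast_nonneg n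
    simp at h1
    linarith
  have hser : ∀ s : ℂ, 1 / 2 + α < s.re → LSeriesSummable a s ∧ Λ s * ig c Q lam mu s = LSeries a s := by
    intro s hs
    obtain ⟨h1, h2⟩ := hΛs s hs
    refine ⟨h1, ?_⟩
    have h3 := ig_mul hc hQ (hpos s (by linarith))
    rw [h2]
    unfold gm
    calc _ = c * (ig c Q lam mu s * ((Q : ℂ) ^ s * ∏ j, Complex.Gamma ((lam j : ℂ) * s + mu j))) * LSeries a s := by ring
      _ = _ := by rw [h3, mul_inv_cancel₀ hc, one_mul]
  -- bound of the series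
  obtain ⟨CL, hCL⟩ : ∃ CL : ℝ, ∀ s : ℂ, 2 ≤ s.re → ‖LSeries a s‖ ≤ CL := by
    have h1 := abs_sum ha hα (σ := 2) (by linarith)
    refine ⟨∑' n : ℕ, ‖a n‖ * (n : ℝ) ^ (-(2:ℝ)), fun s hs => ?_⟩
    unfold LSeries
    apply tsum_of_norm_bounded h1.hasSum
    intro n
    rcases Nat.eq_zero_or_pos n with rfl | hn
    · simp [h0]
    · rw [LSeries.norm_term_eq, if_neg hn.ne', Real.rpow_neg (Nat.cast_nonneg n), div_eq_mul_inv]
      have hn1 : (1:ℝ) ≤ n := by exact_mod_cast hn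
      gcongr
  have hGr : Gr (fun s => Λ s * ig c Q lam mu s) := by
    obtain ⟨CS, hCS⟩ := hΛb (-1) 2
    -- the three pieces
    set R : ℂ → ℂ := fun s => (if 1 ≤ s.re then ∏ j, Complex.Gamma ((lam j : ℂ) * s + mu j) else 0) with hR
    have hRGr : Gr R := gamma_right_Gr hl hm
    have hp1 : Gr (fun _ : ℂ => ((|CL| : ℝ) : ℂ)) := Gr.const _
    have hp2 : Gr (fun s => ((|CS| : ℝ) : ℂ) * ig c Q lam mu s) := (Gr.const _).mul (ig_Gr c hQ lam mu)
    have hp3a : Gr (fun s => (((|CL| : ℝ) : ℂ) * c) * ((Q : ℂ) ^ ((1:ℂ) * s + 0) * R s)) :=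
      (Gr.const _).mul ((cpow_Gr hQ 1 0).mul hRGr)
    have hp3b : Gr (fun s => (((|CL| : ℝ) : ℂ) * c) * ((Q : ℂ) ^ ((1:ℂ) * (1 - conj s) + 0) * R (1 - conj s))) := by
      obtain ⟨C, hC, hb⟩ := hp3a
      refine ⟨4 * C, by positivity, fun s => (hb (1 - conj s)).trans (Real.exp_le_exp.2 ?_)⟩
      have h1 : ‖1 - conj s‖ ≤ 1 + ‖s‖ := by
        refine (norm_sub_le _ _).trans ?_
        rw [norm_one, Complex.norm_conj]
      have h2 := norm_nonneg s
      have h3 := norm_nonneg (1 - conj s)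
      have h4 : (1 + ‖1 - conj s‖) ^ 2 ≤ 4 * (1 + ‖s‖) ^ 2 := by nlinarith
      calc _ ≤ C * (4 * (1 + ‖s‖) ^ 2) := by gcongr
        _ = _ := by ring
    have hp3 := hp3b.mul (ig_Gr c hQ lam mu)
    refine Gr.piece hp1 (Gr.piece (f := fun s => if 2 ≤ s.re then 0 else Λ s * ig c Q lam mu s) hp2 hp3 ?_) ?_
    · intro s
      by_cases h2 : 2 ≤ s.re
      · left
        simp only [if_pos h2, norm_zero]
        positivity
      · simp only [if_neg h2]
        push Not at h2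
        rcases le_total (-1) s.re with h3 | h3
        · left
          rw [norm_mul, norm_mul]
          gcongr
          simp only [Complex.norm_real, Real.norm_eq_abs, abs_abs]
          exact (hCS s h3 h2.le).trans (le_abs_self _)
        · right
          rw [norm_mul, norm_mul]
          gcongr
          have h4 : 2 ≤ (1 - conj s).re := by simp; linarith
          rw [hΛf s, Complex.norm_conj, (hΛs (1 - conj s) (by linarith)).2]
          simp only [hR]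
          rw [if_pos (by linarith)]
          have e1 : (1:ℂ) * (1 - conj s) + 0 = 1 - conj s := by ring
          rw [e1]
          unfold gm
          rw [norm_mul, norm_mul, norm_mul, norm_mul, norm_mul, norm_mul]
          simp only [Complex.norm_real, Real.norm_eq_abs, abs_abs]
          have h5 := (hCL (1 - conj s) h4).trans (le_abs_self CL)
          calc _ ≤ ‖(Q : ℂ) ^ (1 - conj s)‖ * (‖c‖ * ‖∏ j, Complex.Gamma ((lam j : ℂ) * (1 - conj s) + mu j)‖) * |CL| := by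
                gcongr
            _ = _ := by ring
    · intro s
      by_cases h2 : 2 ≤ s.re
      · left
        simp only [Complex.norm_real, Real.norm_eq_abs, abs_abs]
        rw [(hser s (by linarith)).2]
        exact (hCL s h2).trans (le_abs_self _)
      · right
        simp only [if_neg h2]
        exact le_rfl
  refine ⟨fun s => Λ s * ig c Q lam mu s, hΛd.mul (ig_diff c hQ lam mu), hGr, hser, ?_⟩
  intro s h1 h2
  beta_reduce
  have e1 : Λ s * ig c Q lam mu s * (Q : ℂ) ^ s * ∏ j, Complex.Gamma ((lam j : ℂ) * s + mu j) = Λ s * c⁻¹ := by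
    rw [← ig_mul hc hQ h1]; ring
  have e2 : Λ (1 - conj s) * ig c Q lam mu (1 - conj s) * (Q : ℂ) ^ (1 - conj s) *
      ∏ j, Complex.Gamma ((lam j : ℂ) * (1 - conj s) + mu j) = Λ (1 - conj s) * c⁻¹ := by
    rw [← ig_mul hc hQ h2]; ring
  rw [e1, e2, map_mul, ← hΛf s, map_inv₀]
  field_simp

end Pool.Agent.H483.SA
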