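import Pool.Graph.R_seed8.H336Sel.Relation

set_option autoImplicit false

/-!
# An abstract fixed point lemma in a Hilbert space
-/

namespace Pool.Agent.H483.SA

open Set Filter Topology

section

variable {E H : Type*} [AddCommGroup E] [Module ℝ E] [NormedAddCommGroup H] [InnerProductSpace ℝ H]
  (T : E →ₗ[ℝ] H)

/-- the closure of the range -/
noncomputable def clo : Submodule ℝ H := (LinearMap.range T).topologicalClosure

lemma clo_closed : IsClosed (clo T : Set H) := Submodule.isClosed_topologicalClosure _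

lemma mem_clo (x : E) : T x ∈ clo T := Submodule.le_topologicalClosure _ ⟨x, rfl⟩

/-- closed conditions extend to the closure -/
lemma clo_induct {P : H → Prop} (hP : IsClosed {b | P b}) (h : ∀ x, P (T x)) {b : H} (hb : b ∈ clo T) : P b := by
  have h1 : (LinearMap.range T : Set H) ⊆ {b | P b} := by
    rintro _ ⟨x, rfl⟩
    exact h x
  have h2 := closure_minimal h1 hP
  exact h2 hb

/-- norms in the closure are computed by testing on the range -/
lemma norm_clo {b : H} (hb : b ∈ clo T) {C : ℝ} (hC : 0 ≤ C) (h : ∀ x, |inner ℝ b (T x)| ≤ C * ‖T x‖) :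
    ‖b‖ ≤ C := by
  have h1 : |inner ℝ b b| ≤ C * ‖b‖ := by
    refine clo_induct T (P := fun v => |inner ℝ b v| ≤ C * ‖v‖) ?_ h hb
    apply isClosed_le <;> fun_prop
  rw [real_inner_self_eq_norm_sq, abs_of_nonneg (by positivity)] at h1
  rcases (norm_nonneg b).eq_or_lt with h0 | h0
  · rw [← h0]; exact hC
  · nlinarith

variable [CompleteSpace H]

/-- the Riesz vector in the closure of the range -/
lemma riesz_clo (ℓ : E →ₗ[ℝ] ℝ) {C : ℝ} (h : ∀ x, |ℓ x| ≤ C * ‖T x‖) :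
    ∃ b ∈ clo T, ∀ x, inner ℝ b (T x) = ℓ x := by
  obtain ⟨c, hc⟩ := H336Sel.factor T ℓ C h
  have : CompleteSpace (clo T) := (clo_closed T).completeSpace_coe
  refine ⟨(clo T).orthogonalProjectionOnto c, (Submodule.coe_mem _), fun x => ?_⟩
  rw [hc x]
  exact Submodule.inner_orthogonalProjectionOnto_eq_of_mem_right (K := clo T) ⟨T x, mem_clo T x⟩ c

/-- the fixed point lemma -/
theorem fixpt {R : ℝ} (hR : 0 ≤ R) (L : H → E → ℝ)
    (hlin : ∀ b ∈ clo T, ‖b‖ ≤ R → ∃ ℓ : E →ₗ[ℝ] ℝ, ∀ x, ℓ x = L b x)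
    (hbd : ∀ b ∈ clo T, ‖b‖ ≤ R → ∀ x, |L b x| ≤ R * ‖T x‖)
    (hlip : ∀ b ∈ clo T, ∀ b' ∈ clo T, ‖b‖ ≤ R → ‖b'‖ ≤ R → ∀ x,
      |L b x - L b' x| ≤ (1 / 2 * ‖b - b'‖) * ‖T x‖) :
    ∃ b ∈ clo T, ‖b‖ ≤ R ∧ ∀ x, inner ℝ b (T x) = L b x := by
  have h1 : ∀ b : H, b ∈ clo T → ‖b‖ ≤ R → ∃ c ∈ clo T, ∀ x, inner ℝ c (T x) = L b x := by
    intro b hb hbR
    obtain ⟨ℓ, hℓ⟩ := hlin b hb hbR
    obtain ⟨c, hc, hc'⟩ := riesz_clo T ℓ (C := R) (fun x => by rw [hℓ]; exact hbd b hb hbR x)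
    exact ⟨c, hc, fun x => by rw [hc', hℓ]⟩
  choose! Φ hΦ1 hΦ2 using h1
  set s : Set H := (clo T : Set H) ∩ Metric.closedBall 0 R with hs
  have hmem : ∀ b, b ∈ s ↔ b ∈ clo T ∧ ‖b‖ ≤ R := by
    intro b
    rw [hs, mem_inter_iff, mem_closedBall_zero_iff]
    rfl
  have hsc : IsComplete s := ((clo_closed T).inter Metric.isClosed_closedBall).isComplete
  have hmaps : MapsTo Φ s s := by
    intro b hb
    rw [hmem] at hb ⊢
    refine ⟨hΦ1 b hb.1 hb.2, norm_clo T (hΦ1 b hb.1 hb.2) hR fun x => ?_⟩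
    rw [hΦ2 b hb.1 hb.2]
    exact hbd b hb.1 hb.2 x
  have hcontr : ContractingWith (1 / 2 : NNReal) (hmaps.restrict Φ s s) := by
    constructor
    · rw [← NNReal.coe_lt_coe]; norm_num
    · apply LipschitzWith.of_dist_le_mul
      intro b b'
      have hb := (hmem _).1 b.2
      have hb' := (hmem _).1 b'.2
      rw [Subtype.dist_eq, Subtype.dist_eq]
      simp only [MapsTo.val_restrict_apply]
      rw [dist_eq_norm, dist_eq_norm]
      have h3 : (((1 / 2 : NNReal)) : ℝ) = 1 / 2 := by norm_num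
      rw [h3]
      apply norm_clo T ((clo T).sub_mem (hΦ1 _ hb.1 hb.2) (hΦ1 _ hb'.1 hb'.2)) (by positivity)
      intro x
      rw [inner_sub_left, hΦ2 _ hb.1 hb.2, hΦ2 _ hb'.1 hb'.2]
      exact hlip _ hb.1 _ hb'.1 hb.2 hb'.2 x
  have h0 : (0 : H) ∈ s := by
    rw [hmem]
    exact ⟨(clo T).zero_mem, by simpa using hR⟩
  obtain ⟨b, hb, hfix, -⟩ := hcontr.exists_fixedPoint' hsc hmaps h0 (edist_ne_top _ _)
  have hb' := (hmem b).1 hb
  refine ⟨b, hb'.1, hb'.2, fun x => ?_⟩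
  have h2 := hΦ2 b hb'.1 hb'.2 x
  rwa [hfix.eq] at h2

end

end Pool.Agent.H483.SA
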