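import Mathlib

set_option autoImplicit false

/-!
# Sums over squarefree numbers and differences of products
-/

namespace Pool.Agent.H483.SA

open Finset

lemma sum_powerset_prod_le (S : Finset ℕ) {x : ℕ → ℝ} (hx : ∀ n, 0 ≤ x n) :
    ∑ T ∈ S.powerset, ∏ q ∈ T, x q ≤ Real.exp (∑ q ∈ S, x q) := by
  rw [← Finset.prod_one_add, Real.exp_sum]
  apply Finset.prod_le_prod
  · intro q _
    have := hx q
    linarith
  · intro q _
    have := Real.add_one_le_exp (x q)
    linarith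

/-- the sum with one distinguished element -/
noncomputable def gg (y x : ℕ → ℝ) (T : Finset ℕ) : ℝ := ∑ p ∈ T, y p * ∏ q ∈ T.erase p, x q

lemma gg_nonneg {y x : ℕ → ℝ} (hy : ∀ n, 0 ≤ y n) (hx : ∀ n, 0 ≤ x n) (T : Finset ℕ) : 0 ≤ gg y x T :=
  Finset.sum_nonneg fun p _ => mul_nonneg (hy p) (Finset.prod_nonneg fun q _ => hx q)

lemma gg_insert {y x : ℕ → ℝ} {a : ℕ} {T : Finset ℕ} (ha : a ∉ T) :
    gg y x (insert a T) = y a * ∏ q ∈ T, x q + x a * gg y x T := by
  unfold gg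
  rw [Finset.sum_insert ha, Finset.erase_insert ha, Finset.mul_sum]
  congr 1
  apply Finset.sum_congr rfl
  intro p hp
  have hpa : a ≠ p := fun h => ha (h ▸ hp)
  rw [Finset.erase_insert_of_ne hpa, Finset.prod_insert (fun h => ha (Finset.mem_of_mem_erase h))]
  ring

lemma sum_gg_le (S : Finset ℕ) {y x : ℕ → ℝ} (hy : ∀ n, 0 ≤ y n) (hx : ∀ n, 0 ≤ x n) :
    ∑ T ∈ S.powerset, gg y x T ≤ (∑ p ∈ S, y p) * ∏ q ∈ S, (1 + x q) := by
  induction S using Finset.induction_on with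
  | empty => simp [gg]
  | insert a S ha ih =>
    rw [Finset.sum_powerset_insert ha, Finset.sum_insert ha, Finset.prod_insert ha]
    have h1 : ∑ T ∈ S.powerset, gg y x (insert a T) =
        y a * ∏ q ∈ S, (1 + x q) + x a * ∑ T ∈ S.powerset, gg y x T := by
      rw [Finset.prod_one_add, Finset.mul_sum, Finset.mul_sum, ← Finset.sum_add_distrib]
      apply Finset.sum_congr rfl
      intro T hT
      apply gg_insert
      intro h
      exact ha (Finset.mem_powerset.1 hT h)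
    rw [h1]
    have hP : 0 ≤ ∏ q ∈ S, (1 + x q) := Finset.prod_nonneg fun q _ => by have := hx q; linarith
    have h2 := mul_le_mul_of_nonneg_left ih (by have := hx a; linarith : 0 ≤ 1 + x a)
    have h3 : 0 ≤ y a * x a * ∏ q ∈ S, (1 + x q) := mul_nonneg (mul_nonneg (hy a) (hx a)) hP
    nlinarith

/-- squarefree numbers as sets of primes -/
lemma sum_sqfree_le {F : Finset ℕ} (hF : ∀ n ∈ F, Squarefree n) {g : Finset ℕ → ℝ} (hg : ∀ T, 0 ≤ g T)
    {S : Finset ℕ} (hS : ∀ n ∈ F, n.primeFactors ⊆ S) :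
    ∑ n ∈ F, g n.primeFactors ≤ ∑ T ∈ S.powerset, g T := by
  have hinj : Set.InjOn Nat.primeFactors (F : Set ℕ) := by
    intro a ha b hb hab
    have h1 := Nat.prod_primeFactors_of_squarefree (hF a ha)
    have h2 := Nat.prod_primeFactors_of_squarefree (hF b hb)
    have hab' : a.primeFactors = b.primeFactors := hab
    rw [← h1, ← h2, hab']
  calc ∑ n ∈ F, g n.primeFactors = ∑ T ∈ F.image Nat.primeFactors, g T := by
        rw [Finset.sum_image hinj]
    _ ≤ _ := by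
        apply Finset.sum_le_sum_of_subset_of_nonneg
        · intro T hT
          rw [Finset.mem_image] at hT
          obtain ⟨n, hn, rfl⟩ := hT
          exact Finset.mem_powerset.2 (hS n hn)
        · intro T _ _
          exact hg T

lemma sum_gg_sqfree {F : Finset ℕ} (hF : ∀ n ∈ F, Squarefree n) {y x : ℕ → ℝ} (hy : ∀ n, 0 ≤ y n)
    (hx : ∀ n, 0 ≤ x n) {Y X : ℝ} (hY : ∀ S : Finset ℕ, ∑ p ∈ S, y p ≤ Y) (hX : ∀ S : Finset ℕ, ∑ p ∈ S, x p ≤ X) :
    ∑ n ∈ F, gg y x n.primeFactors ≤ Y * Real.exp X := by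
  set S := F.biUnion Nat.primeFactors with hS
  refine (sum_sqfree_le hF (gg_nonneg hy hx) (S := S) (fun n hn => Finset.subset_biUnion_of_mem _ hn)).trans ?_
  refine (sum_gg_le S hy hx).trans ?_
  have h1 : ∏ q ∈ S, (1 + x q) ≤ Real.exp X := by
    calc ∏ q ∈ S, (1 + x q) ≤ ∏ q ∈ S, Real.exp (x q) := by
          apply Finset.prod_le_prod
          · intro q _; have := hx q; linarith
          · intro q _; have := Real.add_one_le_exp (x q); linarith
      _ = Real.exp (∑ q ∈ S, x q) := (Real.exp_sum _ _).symm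
      _ ≤ _ := Real.exp_le_exp.2 (hX S)
  have h2 : 0 ≤ ∑ p ∈ S, y p := Finset.sum_nonneg fun p _ => hy p
  exact mul_le_mul (hY S) h1 (Finset.prod_nonneg fun q _ => by have := hx q; linarith) (h2.trans (hY S))

lemma sum_prod_sqfree {F : Finset ℕ} (hF : ∀ n ∈ F, Squarefree n) {x : ℕ → ℝ}
    (hx : ∀ n, 0 ≤ x n) {X : ℝ} (hX : ∀ S : Finset ℕ, ∑ p ∈ S, x p ≤ X) :
    ∑ n ∈ F, ∏ q ∈ n.primeFactors, x q ≤ Real.exp X := by
  set S := F.biUnion Nat.primeFactors with hS
  refine (sum_sqfree_le (g := fun T => ∏ q ∈ T, x q) hF (fun T => Finset.prod_nonneg fun q _ => hx q) (S := S)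
    (fun n hn => Finset.subset_biUnion_of_mem _ hn)).trans ?_
  exact (sum_powerset_prod_le S hx).trans (Real.exp_le_exp.2 (hX S))

lemma sum_prod_sqfree_ne_one {F : Finset ℕ} (hF : ∀ n ∈ F, Squarefree n ∧ n ≠ 1) {x : ℕ → ℝ}
    (hx : ∀ n, 0 ≤ x n) {X : ℝ} (hX : ∀ S : Finset ℕ, ∑ p ∈ S, x p ≤ X) :
    ∑ n ∈ F, ∏ q ∈ n.primeFactors, x q ≤ Real.exp X - 1 := by
  have h1 : 1 ∉ F := fun h => (hF 1 h).2 rfl
  have h2 := sum_prod_sqfree (F := insert 1 F) (by
    intro n hn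
    rw [Finset.mem_insert] at hn
    rcases hn with rfl | hn
    · exact squarefree_one
    · exact (hF n hn).1) hx hX
  rw [Finset.sum_insert h1] at h2
  simp only [Nat.primeFactors_one, Finset.prod_empty] at h2
  linarith

/-- differences of products -/
lemma prod_sub_le (T : Finset ℕ) {a a' : ℕ → ℂ} {B : ℕ → ℝ} (h : ∀ q, ‖a q‖ ≤ B q) (h' : ∀ q, ‖a' q‖ ≤ B q) :
    ‖∏ q ∈ T, a q - ∏ q ∈ T, a' q‖ ≤ gg (fun q => ‖a q - a' q‖) B T := by
  have hB : ∀ q, 0 ≤ B q := fun q => (norm_nonneg _).trans (h q)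
  induction T using Finset.induction_on with
  | empty => simp [gg]
  | insert c T hc ih =>
    rw [Finset.prod_insert hc, Finset.prod_insert hc, gg_insert hc]
    have e : a c * ∏ q ∈ T, a q - a' c * ∏ q ∈ T, a' q =
        (a c - a' c) * ∏ q ∈ T, a q + a' c * (∏ q ∈ T, a q - ∏ q ∈ T, a' q) := by ring
    rw [e]
    refine (norm_add_le _ _).trans ?_
    rw [norm_mul, norm_mul, norm_prod]
    have h1 : ∏ q ∈ T, ‖a q‖ ≤ ∏ q ∈ T, B q := Finset.prod_le_prod (fun q _ => norm_nonneg _) (fun q _ => h q)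
    exact add_le_add (mul_le_mul_of_nonneg_left h1 (norm_nonneg _))
      (mul_le_mul (h' c) ih (norm_nonneg _) (hB c))

lemma gg_sq_le (T : Finset ℕ) {y x : ℕ → ℝ} : gg y x T ^ 2 ≤ T.card * gg (fun q => y q ^ 2) (fun q => x q ^ 2) T := by
  unfold gg
  refine (sq_sum_le_card_mul_sum_sq).trans (le_of_eq ?_)
  congr 1
  apply Finset.sum_congr rfl
  intro p _
  rw [mul_pow, Finset.prod_pow]

lemma gg_mul (T : Finset ℕ) {u y x : ℕ → ℝ} :
    gg (fun q => u q * y q) (fun q => u q * x q) T = (∏ q ∈ T, u q) * gg y x T := by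
  unfold gg
  rw [Finset.mul_sum]
  apply Finset.sum_congr rfl
  intro p hp
  rw [Finset.prod_mul_distrib, ← Finset.mul_prod_erase T u hp]
  ring

end Pool.Agent.H483.SA
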