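import Pool.Agent.H483.FE.Theta

set_option autoImplicit false

/-!
# The completed function attached to a system of relations
-/

namespace Pool.Agent.H483.SA

open MeasureTheory Set Filter Topology Complex FourierTransform
open Pool.Agent.H336R4.PF Pool.Agent.H483.FE
open scoped ComplexConjugate

/-- the completed function attached to coefficients satisfying all relations -/
theorem core_of {γ : ℂ → ℂ} {α : ℝ} (A : Adm γ α) {a : ℕ → ℂ} (h0 : a 0 = 0)
    (ha : Summable fun n : ℕ => ‖a n‖ ^ 2 * (n : ℝ) ^ (-(2 * α)))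
    (hr : ∀ h, Good γ h → HasSum (fun n : ℕ => (a n * h (Real.log n)).re) 0) : ∃ Λ : ℂ → ℂ,
    Differentiable ℂ Λ ∧
    (∀ s, Λ s = conj (Λ (1 - conj s))) ∧
    (∀ σ₁ σ₂ : ℝ, ∃ C : ℝ, ∀ s : ℂ, σ₁ ≤ s.re → s.re ≤ σ₂ → ‖Λ s‖ ≤ C) ∧
    ∀ s : ℂ, 1 / 2 + α < s.re → LSeriesSummable a s ∧ Λ s = γ s * LSeries a s := by
  have hD := Th_dec2 A h0 ha hr
  have hc := Th_cont A h0 ha
  refine ⟨fun s => ∫ y : ℝ, cexp (s * y) * Th γ a y, hD.entire hc, ?_, fun a b => hD.strip a b, ?_⟩
  · intro s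
    simp only
    rw [← integral_conj, ← integral_neg_eq_self]
    congr 1
    funext y
    rw [Th_feq A h0 ha hr (-y)]
    simp only [map_mul, ← Complex.exp_conj, Complex.conj_ofReal, map_sub, map_one, Complex.conj_conj, neg_neg]
    rw [← mul_assoc, Complex.ofReal_exp, ← Complex.exp_add]
    congr 2
    push_cast
    ring
  · intro s hs
    have hs0 : 0 < s.re := by have := A.pos; linarith
    have hsum := abs_sum ha A.pos hs
    have hterm : ∀ n : ℕ, LSeries.term a s n = a n * (n : ℂ) ^ (-s) := by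
      intro n
      rcases Nat.eq_zero_or_pos n with rfl | hn
      · simp [h0]
      · rw [LSeries.term_of_ne_zero hn.ne', Complex.cpow_neg, div_eq_mul_inv]
    constructor
    · refine Summable.of_norm_bounded hsum (fun n => ?_)
      rw [hterm]
      rcases Nat.eq_zero_or_pos n with rfl | hn
      · simp [h0]
      · rw [norm_mul, Complex.norm_natCast_cpow_of_pos hn]
        simp
    · obtain ⟨hKi, hKe⟩ := KK_bil A hs0
      -- interchange
      set F : ℕ → ℝ → ℂ := fun n y => cexp (s * y) * (a n * KK γ (Real.log n + y)) with hF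
      have hF1 : ∀ n : ℕ, 1 ≤ n → ∀ y : ℝ, F n y = (a n * (n:ℂ) ^ (-s)) *
          (cexp (s * ((Real.log n + y : ℝ) : ℂ)) * KK γ (Real.log n + y)) := by
        intro n hn y
        have hn0 : (n:ℂ) ≠ 0 := by exact_mod_cast (by omega : n ≠ 0)
        have e : (n:ℂ) ^ (-s) * cexp (s * ((Real.log n + y : ℝ) : ℂ)) = cexp (s * y) := by
          rw [Complex.cpow_def_of_ne_zero hn0, ← Complex.exp_add]
          congr 1
          rw [show Complex.log (n:ℂ) = ((Real.log n : ℝ) : ℂ) from by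
            rw [Complex.ofReal_log (Nat.cast_nonneg n)]; simp]
          push_cast
          ring
        simp only [hF]
        rw [← e]
        ring
      have hFi : ∀ n, Integrable (F n) := by
        intro n
        rcases Nat.eq_zero_or_pos n with rfl | hn
        · simp [hF, h0]
        · have := (hKi.comp_add_left (Real.log n)).const_mul (a n * (n:ℂ) ^ (-s))
          refine this.congr (Eventually.of_forall fun y => ?_)
          simp only
          rw [hF1 n hn]
      have hFn : ∀ n, ∫ y, ‖F n y‖ = (‖a n‖ * (n:ℝ) ^ (-s.re)) * ∫ y : ℝ, ‖cexp (s * y) * KK γ y‖ := by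
        intro n
        rcases Nat.eq_zero_or_pos n with rfl | hn
        · simp [hF, h0]
        · simp_rw [hF1 n hn, norm_mul (a n * (n:ℂ) ^ (-s))]
          rw [integral_const_mul, norm_mul, Complex.norm_natCast_cpow_of_pos hn, Complex.neg_re]
          congr 1
          exact integral_add_left_eq_self (fun y : ℝ => ‖cexp (s * y) * KK γ y‖) (Real.log n)
      have hFe : ∀ n, ∫ y, F n y = a n * (n:ℂ) ^ (-s) * γ s := by
        intro n
        rcases Nat.eq_zero_or_pos n with rfl | hn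
        · simp [hF, h0]
        · simp_rw [hF1 n hn]
          rw [integral_const_mul, ← hKe]
          congr 1
          exact integral_add_left_eq_self (fun y : ℝ => cexp (s * y) * KK γ y) (Real.log n)
      have H := hasSum_integral_of_summable_integral_norm hFi (by
        simp_rw [hFn]; exact hsum.mul_right _)
      simp_rw [hFe] at H
      have e1 : ∀ y : ℝ, ∑' n, F n y = cexp (s * y) * Th γ a y := by
        intro y; simp only [hF]; rw [tsum_mul_left]; rfl
      simp_rw [e1] at H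
      beta_reduce
      rw [← H.tsum_eq, tsum_mul_right, mul_comm]
      congr 1
      unfold LSeries
      congr 1
      funext n
      rw [hterm]

/-- rescaling of kernels -/
lemma adm_scale {γ : ℂ → ℂ} {α : ℝ} (A : Adm γ α) {Q : ℝ} (hQ : 0 < Q) : Adm (fun s => (Q : ℂ) ^ s * γ s) α := by
  have hQ' : (Q : ℂ) ≠ 0 := by exact_mod_cast hQ.ne'
  refine ⟨fun s hs => ?_, fun a b ha hab => ?_, A.pos, A.lt, ?_⟩
  · exact (DifferentiableAt.const_cpow differentiableAt_id (Or.inl hQ')).mul (A.diff s hs)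
  · obtain ⟨C, δ, hδ, hC⟩ := A.decay a b ha hab
    refine ⟨Real.exp (|Real.log Q| * b) * |C|, δ, hδ, fun s h1 h2 => ?_⟩
    rw [norm_mul, Complex.norm_cpow_eq_rpow_re_of_pos hQ, mul_assoc]
    have h3 : Q ^ s.re ≤ Real.exp (|Real.log Q| * b) := by
      rw [Real.rpow_def_of_pos hQ]
      apply Real.exp_le_exp.2
      calc Real.log Q * s.re ≤ |Real.log Q| * s.re := by
            apply mul_le_mul_of_nonneg_right (le_abs_self _)
            linarith
        _ ≤ _ := by gcongr
    have h4 : ‖γ s‖ ≤ |C| * Real.exp (-δ * |s.im|) :=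
      (hC s h1 h2).trans (mul_le_mul_of_nonneg_right (le_abs_self _) (Real.exp_pos _).le)
    gcongr
  · obtain ⟨C, hC0, hC⟩ := A.ratio
    refine ⟨Q ^ (1 / 2 - α) * C / Q ^ (1 / 2 + α), by positivity, fun t => ?_⟩
    rw [norm_mul, norm_mul, Complex.norm_cpow_eq_rpow_re_of_pos hQ, Complex.norm_cpow_eq_rpow_re_of_pos hQ]
    have e1 : (((1 / 2 - α : ℝ) : ℂ) + t * I).re = 1 / 2 - α := by simp
    have e2 : (((1 / 2 + α : ℝ) : ℂ) + t * I).re = 1 / 2 + α := by simp
    rw [e1, e2]
    have h1 := hC t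
    have h2 : 0 < Q ^ (1 / 2 + α) := Real.rpow_pos_of_pos hQ _
    have h3 : 0 < Q ^ (1 / 2 - α) := Real.rpow_pos_of_pos hQ _
    calc _ = Q ^ (1 / 2 - α) * ((1 + |t|) * ‖γ (((1 / 2 - α : ℝ) : ℂ) + t * I)‖) := by ring
      _ ≤ Q ^ (1 / 2 - α) * (C * ‖γ (((1 / 2 + α : ℝ) : ℂ) + t * I)‖) := by gcongr
      _ = _ := by field_simp

/-- good functions of the rescaled kernel -/
lemma good_scale {γ : ℂ → ℂ} {Q : ℝ} (hQ : 0 < Q) {h : ℝ → ℂ} (hg : Good (fun s => (Q : ℂ) ^ s * γ s) h) :
    Good γ (fun y => h (y + Real.log Q)) := by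
  obtain ⟨p, hp1, hp2, hp3, hr⟩ := hg
  refine ⟨p, hp1, hp2, hp3, fun σ hσ y => ?_⟩
  have hQ' : (Q : ℂ) ≠ 0 := by exact_mod_cast hQ.ne'
  beta_reduce
  rw [hr σ hσ, Real.fourier_real_eq_integral_exp_smul, Real.fourier_real_eq_integral_exp_smul,
    ← integral_const_mul, ← integral_const_mul]
  congr 1
  funext t
  simp only [smul_eq_mul]
  have e1 : (Q : ℂ) ^ (ln σ t) = cexp ((Real.log Q : ℂ) * ln σ t) := by
    rw [Complex.cpow_def_of_ne_zero hQ', Complex.ofReal_log hQ.le]
  rw [e1]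
  have e2 : cexp (-((σ * (y + Real.log Q) : ℝ) : ℂ)) * (cexp (((-2 * Real.pi * t * (y + Real.log Q) : ℝ) : ℂ) * I) *
      (cexp ((Real.log Q : ℂ) * ln σ t) * γ (ln σ t) * p (ln σ t))) =
      (cexp (-((σ * (y + Real.log Q) : ℝ) : ℂ)) * cexp (((-2 * Real.pi * t * (y + Real.log Q) : ℝ) : ℂ) * I) *
      cexp ((Real.log Q : ℂ) * ln σ t)) * (γ (ln σ t) * p (ln σ t)) := by ring
  rw [e2, ← Complex.exp_add, ← Complex.exp_add]
  have e3 : cexp (-((σ * y : ℝ) : ℂ)) * (cexp (((-2 * Real.pi * t * y : ℝ) : ℂ) * I) * (γ (ln σ t) * p (ln σ t))) =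
      (cexp (-((σ * y : ℝ) : ℂ)) * cexp (((-2 * Real.pi * t * y : ℝ) : ℂ) * I)) * (γ (ln σ t) * p (ln σ t)) := by ring
  rw [e3, ← Complex.exp_add]
  congr 2
  unfold ln
  push_cast
  ring

end Pool.Agent.H483.SA
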