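import Mathlib

set_option autoImplicit false

/-!
# A uniform bound for a weighted sum over the primes
-/

namespace Pool.Agent.H483.SA

open Finset

lemma shift_sq {x y : ℝ} (h : |x - y| ≤ 1) : 1 + y ^ 2 ≤ 3 * (1 + x ^ 2) := by
  have h1 : (x - y) ^ 2 ≤ 1 := by
    rw [← sq_abs]; exact pow_le_one₀ (abs_nonneg _) h
  nlinarith [sq_nonneg (2 * x - y)]

lemma arctan_step (x : ℝ) : 1 / (1 + x ^ 2) ≤ 3 * (Real.arctan (x + 1) - Real.arctan x) := by
  rw [← integral_one_div_one_add_sq]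
  have h1 : ∫ _u in x..(x + 1), (1 / 3 * (1 / (1 + x ^ 2)) : ℝ) ≤ ∫ u in x..(x + 1), 1 / (1 + u ^ 2) := by
    apply intervalIntegral.integral_mono_on (by linarith) intervalIntegrable_const
    · apply Continuous.intervalIntegrable
      have : ∀ u : ℝ, 1 + u ^ 2 ≠ 0 := fun u => by positivity
      fun_prop (disch := exact this _)
    · intro u hu
      have h2 := shift_sq (x := x) (y := u) (by
        rw [abs_le]; constructor <;> linarith [hu.1, hu.2])
      rw [one_div_mul_one_div]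
      apply one_div_le_one_div_of_le (by positivity)
      exact h2
  rw [intervalIntegral.integral_const, smul_eq_mul] at h1
  have : (x + 1 - x) * (1 / 3 * (1 / (1 + x ^ 2))) = 1 / 3 * (1 / (1 + x ^ 2)) := by ring
  rw [this] at h1
  linarith

lemma sum_shift (L : ℝ) (J : ℕ) : ∑ j ∈ range J, 1 / (1 + ((j : ℝ) - L) ^ 2) ≤ 3 * Real.pi := by
  have h1 : ∀ J : ℕ, ∑ j ∈ range J, 1 / (1 + ((j : ℝ) - L) ^ 2) ≤
      3 * (Real.arctan (J - L) - Real.arctan (-L)) := by
    intro J
    induction J with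
    | zero => simp
    | succ J ih =>
      rw [Finset.sum_range_succ]
      have := arctan_step ((J : ℝ) - L)
      have e : (J : ℝ) - L + 1 = ((J + 1 : ℕ) : ℝ) - L := by push_cast; ring
      rw [e] at this
      linarith
  refine (h1 J).trans ?_
  have h2 := Real.arctan_lt_pi_div_two ((J : ℝ) - L)
  have h3 := Real.neg_pi_div_two_lt_arctan (-L)
  linarith

lemma block (F : Finset ℕ) (j : ℕ) : ∑ q ∈ F with (Nat.Prime q ∧ ⌊Real.log (q : ℝ)⌋₊ = j), Real.log q / q ≤ 4 := by
  have hE : 0 < Real.exp (j : ℝ) := Real.exp_pos _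
  have h1 : ∀ q ∈ F.filter (fun q : ℕ => q.Prime ∧ ⌊Real.log (q : ℝ)⌋₊ = j),
      Real.log q / q ≤ Real.log q / Real.exp j := by
    intro q hq
    rw [mem_filter] at hq
    obtain ⟨-, hp, hj⟩ := hq
    have hq0 : (0:ℝ) < q := by exact_mod_cast hp.pos
    have hl : 0 ≤ Real.log q := Real.log_natCast_nonneg q
    apply div_le_div_of_nonneg_left hl hE
    have : (j : ℝ) ≤ Real.log q := by rw [← hj]; exact Nat.floor_le hl
    calc Real.exp j ≤ Real.exp (Real.log q) := Real.exp_le_exp.2 this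
      _ = q := Real.exp_log hq0
  refine (Finset.sum_le_sum h1).trans ?_
  rw [← Finset.sum_div, div_le_iff₀ hE]
  have h2 : ∑ q ∈ F with (Nat.Prime q ∧ ⌊Real.log (q : ℝ)⌋₊ = j), Real.log q ≤ Chebyshev.theta (Real.exp (j + 1)) := by
    unfold Chebyshev.theta
    apply Finset.sum_le_sum_of_subset_of_nonneg
    · intro q hq
      rw [mem_filter] at hq ⊢
      obtain ⟨-, hp, hj⟩ := hq
      have hq0 : (0:ℝ) < q := by exact_mod_cast hp.pos
      refine ⟨?_, hp⟩
      rw [mem_Ioc]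
      refine ⟨hp.pos, ?_⟩
      rw [Nat.le_floor_iff (Real.exp_pos _).le]
      have : Real.log q < j + 1 := by rw [← hj]; exact Nat.lt_floor_add_one _
      calc (q : ℝ) = Real.exp (Real.log q) := (Real.exp_log hq0).symm
        _ ≤ _ := Real.exp_le_exp.2 this.le
    · intro q _ _
      exact Real.log_natCast_nonneg q
  have h3 := Chebyshev.theta_le_log4_mul_x (x := Real.exp (j + 1)) (Real.exp_pos _).le
  have h4 : Real.log 4 * Real.exp 1 ≤ 4 := by
    have e1 : Real.log 4 = 2 * Real.log 2 := by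
      rw [show (4:ℝ) = 2 ^ 2 by norm_num, Real.log_pow]; norm_num
    have e2 := Real.log_two_lt_d9
    have e3 := Real.exp_one_lt_d9
    have e4 := Real.log_two_gt_d9
    rw [e1]
    nlinarith
  rw [Real.exp_add] at h2 h3
  calc _ ≤ _ := h2
    _ ≤ _ := h3
    _ = Real.log 4 * Real.exp 1 * Real.exp j := by ring
    _ ≤ _ := by gcongr

/-- the uniform bound -/
theorem mert (L : ℝ) (F : Finset ℕ) :
    ∑ q ∈ F with q.Prime, Real.log q / (q * (1 + (Real.log q - L) ^ 2)) ≤ 120 := by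
  obtain ⟨J, hJ⟩ : ∃ J, ∀ q ∈ F.filter Nat.Prime, ⌊Real.log (q : ℝ)⌋₊ < J :=
    ⟨(F.filter Nat.Prime).sup (fun q : ℕ => ⌊Real.log (q : ℝ)⌋₊) + 1, fun q hq =>
      Nat.lt_succ_of_le (Finset.le_sup (f := fun q : ℕ => ⌊Real.log (q : ℝ)⌋₊) hq)⟩
  rw [← Finset.sum_fiberwise_of_maps_to (g := fun q : ℕ => ⌊Real.log (q : ℝ)⌋₊) (t := range J)
    (fun q hq => Finset.mem_range.2 (hJ q hq))]
  have h1 : ∀ j ∈ range J, ∑ q ∈ (F.filter Nat.Prime) with ⌊Real.log ((q : ℕ) : ℝ)⌋₊ = j,
      Real.log q / (q * (1 + (Real.log q - L) ^ 2)) ≤ 4 * (3 * (1 / (1 + ((j : ℝ) - L) ^ 2))) := by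
    intro j _
    have h2 : ∀ q ∈ (F.filter Nat.Prime).filter (fun q : ℕ => ⌊Real.log (q : ℝ)⌋₊ = j),
        Real.log q / (q * (1 + (Real.log q - L) ^ 2)) ≤ (Real.log q / q) * (3 * (1 / (1 + ((j : ℝ) - L) ^ 2))) := by
      intro q hq
      rw [mem_filter, mem_filter] at hq
      obtain ⟨⟨-, hp⟩, hj⟩ := hq
      have hl : 0 ≤ Real.log q := Real.log_natCast_nonneg q
      have hq0 : (0:ℝ) < q := by exact_mod_cast hp.pos
      have h3 := shift_sq (x := Real.log q - L) (y := (j : ℝ) - L) (by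
        have a1 : (j : ℝ) ≤ Real.log q := by rw [← hj]; exact Nat.floor_le hl
        have a2 : Real.log q < j + 1 := by rw [← hj]; exact Nat.lt_floor_add_one _
        rw [abs_le]; constructor <;> linarith)
      rw [div_mul_eq_div_mul_one_div]
      apply mul_le_mul_of_nonneg_left _ (by positivity)
      rw [mul_one_div, div_le_div_iff₀ (by positivity) (by positivity)]
      linarith
    refine (Finset.sum_le_sum h2).trans ?_
    rw [← Finset.sum_mul, Finset.filter_filter]
    exact mul_le_mul_of_nonneg_right (block F j) (by positivity)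
  refine (Finset.sum_le_sum h1).trans ?_
  rw [← Finset.mul_sum, ← Finset.mul_sum]
  have := sum_shift L J
  have hpi := Real.pi_lt_d2
  nlinarith

end Pool.Agent.H483.SA
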