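import Pool.Agent.H483.SA.SI
import Pool.Agent.H483.SA.Mert
import Pool.Agent.H483.SA.Comb

set_option autoImplicit false

/-!
# Weighted count of composite numbers with large prime factors in a short interval
-/

namespace Pool.Agent.H483.SA

open Finset Pool.Agent.Q240.KS

/-- `1 + log² (n / Q)` -/
noncomputable def MM (Q : ℝ) (n : ℕ) : ℝ := 1 + (Real.log n - Real.log Q) ^ 2

lemma MM_pos (Q : ℝ) (n : ℕ) : 0 < MM Q n := by unfold MM; positivity
lemma one_le_MM (Q : ℝ) (n : ℕ) : 1 ≤ MM Q n := by unfold MM; nlinarith [sq_nonneg (Real.log n - Real.log Q)]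

/-- `η log q / (1 + log² (q / Q))` -/
noncomputable def gt (η Q : ℝ) (q : ℕ) : ℝ := η * Real.log q / MM Q q

lemma gt_nonneg {η Q : ℝ} (hη : 0 ≤ η) (q : ℕ) : 0 ≤ gt η Q q := by
  unfold gt
  have := MM_pos Q q
  have := Real.log_natCast_nonneg q
  positivity

/-- squarefree numbers with at least two prime factors, all larger than `Y` -/
def Cmp (Y : ℝ) (n : ℕ) : Prop := Squarefree n ∧ 2 ≤ n.primeFactors.card ∧ ∀ q ∈ n.primeFactors, Y < q

/-- the coefficient -/
noncomputable def cn (η Q : ℝ) (n : ℕ) : ℝ :=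
  2 ^ n.primeFactors.card * MM Q n * η⁻¹ * ∏ q ∈ n.primeFactors, gt η Q q

lemma cn_nonneg {η Q : ℝ} (hη : 0 ≤ η) (n : ℕ) : 0 ≤ cn η Q n := by
  unfold cn
  have h1 := MM_pos Q n
  have h2 : 0 ≤ ∏ q ∈ n.primeFactors, gt η Q q := Finset.prod_nonneg fun q _ => gt_nonneg hη q
  positivity

lemma log_sqfree {n : ℕ} (hn : Squarefree n) : Real.log n = ∑ q ∈ n.primeFactors, Real.log q := by
  conv_lhs => rw [← Nat.prod_primeFactors_of_squarefree hn]
  push_cast
  rw [Real.log_prod]
  intro q hq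
  have := (Nat.prime_of_mem_primeFactors hq).pos
  positivity

lemma two_mul_aux {a b : ℝ} : 1 + (a + b) ^ 2 ≤ 2 * (1 + a ^ 2) * (1 + b ^ 2) := by
  nlinarith [sq_nonneg (a - b), sq_nonneg (a * b)]

lemma pow_aux (j : ℕ) (hj : 1 ≤ j) : (2 : ℝ) ^ (j + 1) * (j + 1) ^ 2 ≤ 16 ^ j := by
  induction j, hj using Nat.le_induction with
  | base => norm_num
  | succ j hj ih =>
    have hj' : (1:ℝ) ≤ j := by exact_mod_cast hj
    have h1 : ((j : ℝ) + 1 + 1) ^ 2 ≤ 4 * ((j : ℝ) + 1) ^ 2 := by nlinarith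
    push_cast
    calc (2:ℝ) ^ (j + 1 + 1) * ((j : ℝ) + 1 + 1) ^ 2 ≤ 2 ^ (j + 1 + 1) * (4 * ((j : ℝ) + 1) ^ 2) := by gcongr
      _ = 8 * (2 ^ (j + 1) * ((j : ℝ) + 1) ^ 2) := by ring
      _ ≤ 16 * 16 ^ j := by
          have : (0:ℝ) ≤ 16 ^ j := by positivity
          nlinarith
      _ = 16 ^ (j + 1) := by ring

lemma nat_aux (j : ℕ) (hj : 1 ≤ j) : (j : ℝ) * (1 / 2) ^ (j - 1) ≤ 1 := by
  obtain ⟨i, rfl⟩ : ∃ i, j = i + 1 := ⟨j - 1, by omega⟩
  simp only [Nat.add_sub_cancel]
  rw [one_div, inv_pow, mul_inv_le_iff₀ (by positivity), one_mul]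
  have := Nat.lt_two_pow_self (n := i)
  exact_mod_cast this

/-- decomposition by the largest prime factor -/
lemma decomp {Y : ℝ} {n : ℕ} (hn : Cmp Y n) : ∃ P r : ℕ, P.Prime ∧ n = r * P ∧ Squarefree r ∧
    P ∉ r.primeFactors ∧ n.primeFactors = insert P r.primeFactors ∧
    r.primeFactors.card + 1 = n.primeFactors.card ∧ 1 ≤ r.primeFactors.card ∧ (∀ q ∈ r.primeFactors, q ≤ P) := by
  obtain ⟨hsq, h2, -⟩ := hn
  have hne : n.primeFactors.Nonempty := Finset.card_pos.1 (by omega)
  obtain ⟨P, hP, hmax⟩ := Finset.exists_max_image n.primeFactors id hne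
  have hPp := Nat.prime_of_mem_primeFactors hP
  have hPd := Nat.dvd_of_mem_primeFactors hP
  obtain ⟨r, hr⟩ := hPd
  have hn0 : n ≠ 0 := hsq.ne_zero
  have hr0 : r ≠ 0 := by rintro rfl; simp at hr; exact hn0 hr
  have hcop : Nat.Coprime P r := by
    rw [hr] at hsq
    exact Nat.coprime_of_squarefree_mul hsq
  have hPr : P ∉ r.primeFactors := by
    intro h
    have := Nat.dvd_of_mem_primeFactors h
    have h3 := Nat.dvd_gcd (dvd_refl P) this
    rw [hcop.gcd_eq_one] at h3
    exact hPp.one_lt.ne' (Nat.dvd_one.1 h3)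
  have hpf : n.primeFactors = insert P r.primeFactors := by
    rw [hr, Nat.primeFactors_mul hPp.ne_zero hr0, hPp.primeFactors]
    rfl
  have hcard : r.primeFactors.card + 1 = n.primeFactors.card := by
    rw [hpf, Finset.card_insert_of_notMem hPr]
  refine ⟨P, r, hPp, by rw [hr]; ring, ?_, hPr, hpf, hcard, by omega, ?_⟩
  · rw [hr] at hsq
    exact hsq.of_mul_right
  · intro q hq
    exact hmax q (by rw [hpf]; exact Finset.mem_insert_of_mem hq)

section

variable {Q η : ℝ}

lemma t_small (hQ : 1 ≤ Q) (hη : 0 ≤ η) (hη1 : 32 * η * (1 + Real.log Q) ≤ 1) (q : ℕ) : 16 * gt η Q q ≤ 1 / 2 := by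
  have hL : 0 ≤ Real.log Q := Real.log_nonneg hQ
  set u := Real.log q - Real.log Q with hu
  have h1 : Real.log q ≤ (1 + Real.log Q) * MM Q q := by
    unfold MM
    have : Real.log q = u + Real.log Q := by rw [hu]; ring
    rw [this]
    nlinarith [sq_nonneg (u - 1), mul_nonneg hL (sq_nonneg u)]
  have h2 : gt η Q q ≤ η * (1 + Real.log Q) := by
    unfold gt
    rw [div_le_iff₀ (MM_pos Q q)]
    calc η * Real.log q ≤ η * ((1 + Real.log Q) * MM Q q) := by gcongr
      _ = _ := by ring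
  nlinarith

lemma t_log (hQ : 1 ≤ Q) (hη : 0 ≤ η) (q : ℕ) :
    Real.log q * (16 * gt η Q q) ≤ 32 * η * (1 + Real.log Q ^ 2) := by
  set u := Real.log q - Real.log Q with hu
  have h1 : Real.log q ^ 2 ≤ 2 * (1 + Real.log Q ^ 2) * MM Q q := by
    unfold MM
    have : Real.log q = u + Real.log Q := by rw [hu]; ring
    rw [this]
    have := two_mul_aux (a := Real.log Q) (b := u)
    nlinarith
  unfold gt
  have h2 : Real.log q * (16 * (η * Real.log q / MM Q q)) = 16 * η * (Real.log q ^ 2 / MM Q q) := by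
    field_simp
  rw [h2]
  have h3 : Real.log q ^ 2 / MM Q q ≤ 2 * (1 + Real.log Q ^ 2) := by
    rw [div_le_iff₀ (MM_pos Q q)]; exact h1
  nlinarith [mul_le_mul_of_nonneg_left h3 hη]

/-- the basic bound for `cn` -/
lemma cn_le (hQ : 1 ≤ Q) (hη : 0 < η) {n P r : ℕ} (hsq : Squarefree n) (hP : P.Prime) (hPr : P ∉ r.primeFactors)
    (hpf : n.primeFactors = insert P r.primeFactors) (hcard : r.primeFactors.card + 1 = n.primeFactors.card)
    (h1 : 1 ≤ r.primeFactors.card) (hle : ∀ q ∈ r.primeFactors, q ≤ P) :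
    cn η Q n ≤ 2 * (1 + Real.log Q ^ 2) * Real.log P * ∏ q ∈ r.primeFactors, (16 * gt η Q q) := by
  have hL : 0 ≤ Real.log Q := Real.log_nonneg hQ
  have hP0 : (0:ℝ) < P := by exact_mod_cast hP.pos
  have hlP : 0 ≤ Real.log P := Real.log_natCast_nonneg P
  set j := r.primeFactors.card with hj
  set k := n.primeFactors.card with hk
  have hk1 : (1:ℝ) ≤ k := by
    have : 1 ≤ k := by omega
    exact_mod_cast this
  set u := Real.log P - Real.log Q with hu
  -- MM
  have hup : Real.log n ≤ k * Real.log P := by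
    rw [log_sqfree hsq]
    calc ∑ q ∈ n.primeFactors, Real.log q ≤ ∑ q ∈ n.primeFactors, Real.log P := by
          apply Finset.sum_le_sum
          intro q hq
          have hqp := (Nat.prime_of_mem_primeFactors hq).pos
          apply Real.log_le_log (by exact_mod_cast hqp)
          rw [hpf, Finset.mem_insert] at hq
          rcases hq with rfl | hq
          · exact le_rfl
          · exact_mod_cast hle q hq
      _ = _ := by rw [Finset.sum_const, nsmul_eq_mul]
  have hlo : Real.log P ≤ Real.log n := by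
    rw [log_sqfree hsq]
    exact Finset.single_le_sum (f := fun q : ℕ => Real.log (q : ℝ)) (fun q _ => Real.log_natCast_nonneg q)
      (by rw [hpf]; exact Finset.mem_insert_self _ _)
  have habs : |Real.log n - Real.log Q| ≤ k * (|u| + Real.log Q) := by
    rw [abs_le]
    have a1 := neg_abs_le u
    have a2 := le_abs_self u
    have a3 := abs_nonneg u
    constructor
    · have : -(|u| + Real.log Q) ≤ u := by linarith
      nlinarith
    · have e : Real.log P = u + Real.log Q := by rw [hu]; ring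
      rw [e] at hup
      nlinarith
  have hMM : MM Q n ≤ 2 * k ^ 2 * (1 + Real.log Q ^ 2) * MM Q P := by
    unfold MM
    rw [← hu, ← sq_abs (Real.log n - Real.log Q)]
    have h3 := pow_le_pow_left₀ (abs_nonneg _) habs 2
    have h4 := two_mul_aux (a := |u|) (b := Real.log Q)
    rw [sq_abs] at h4
    have hk2 : (1:ℝ) ≤ (k:ℝ) ^ 2 := one_le_pow₀ hk1
    calc 1 + |Real.log n - Real.log Q| ^ 2 ≤ k ^ 2 + (k * (|u| + Real.log Q)) ^ 2 := by linarith
      _ = k ^ 2 * (1 + (|u| + Real.log Q) ^ 2) := by ring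
      _ ≤ k ^ 2 * (2 * (1 + u ^ 2) * (1 + Real.log Q ^ 2)) := by gcongr
      _ = _ := by ring
  have hprod : ∏ q ∈ n.primeFactors, gt η Q q = gt η Q P * ∏ q ∈ r.primeFactors, gt η Q q := by
    rw [hpf, Finset.prod_insert hPr]
  have hG : 0 ≤ ∏ q ∈ r.primeFactors, gt η Q q := Finset.prod_nonneg fun q _ => gt_nonneg hη.le q
  have hpw := pow_aux j h1
  have hkj : (k : ℝ) = j + 1 := by
    have : k = j + 1 := by omega
    rw [this]; push_cast; ring
  have hkj2 : (2:ℝ) ^ k = 2 ^ (j + 1) := by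
    have : k = j + 1 := by omega
    rw [this]
  unfold cn
  rw [hprod, ← hk]
  have hMP := MM_pos Q P
  calc _ ≤ 2 ^ k * (2 * k ^ 2 * (1 + Real.log Q ^ 2) * MM Q P) * η⁻¹ * (gt η Q P * ∏ q ∈ r.primeFactors, gt η Q q) := by
        gcongr
        exact mul_nonneg (gt_nonneg hη.le P) hG
    _ = 2 * (1 + Real.log Q ^ 2) * Real.log P * ((2 ^ k * k ^ 2) * ∏ q ∈ r.primeFactors, gt η Q q) := by
        unfold gt
        field_simp
    _ ≤ 2 * (1 + Real.log Q ^ 2) * Real.log P * (16 ^ j * ∏ q ∈ r.primeFactors, gt η Q q) := by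
        rw [hkj2, hkj]
        gcongr
    _ = _ := by
        rw [Finset.prod_mul_distrib, Finset.prod_const]

/-- the second case: the cofactor is large -/
lemma case_two (hQ : 1 ≤ Q) (hη : 0 < η) (hη1 : 32 * η * (1 + Real.log Q) ≤ 1) {X : ℝ} (hX : 2 ≤ X) {n P r : ℕ}
    (hnX : (n : ℝ) ≤ 2 * X) (hn : n = r * P)
    (hsq : Squarefree n) (hsr : Squarefree r) (hP : P.Prime) (hPr : P ∉ r.primeFactors)
    (hpf : n.primeFactors = insert P r.primeFactors) (hcard : r.primeFactors.card + 1 = n.primeFactors.card)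
    (h1 : 1 ≤ r.primeFactors.card) (hle : ∀ q ∈ r.primeFactors, q ≤ P) (hr : X ^ (1 / 4 : ℝ) < r) :
    cn η Q n ≤ 512 * η * (1 + Real.log Q ^ 2) ^ 2 := by
  have hX0 : 0 < X := by linarith
  refine (cn_le hQ hη hsq hP hPr hpf hcard h1 hle).trans ?_
  have hne : r.primeFactors.Nonempty := Finset.card_pos.1 (by omega)
  obtain ⟨q, hq, hmax⟩ := Finset.exists_max_image r.primeFactors id hne
  set j := r.primeFactors.card with hj
  have hr0 : (0:ℝ) < r := by
    have := hsr.ne_zero
    positivity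
  have hlr : Real.log r ≤ j * Real.log q := by
    rw [log_sqfree hsr]
    calc ∑ p ∈ r.primeFactors, Real.log p ≤ ∑ p ∈ r.primeFactors, Real.log q := by
          apply Finset.sum_le_sum
          intro p hp
          have hpp := (Nat.prime_of_mem_primeFactors hp).pos
          apply Real.log_le_log (by exact_mod_cast hpp)
          exact_mod_cast hmax p hp
      _ = _ := by rw [Finset.sum_const, nsmul_eq_mul]
  have hlX : 1 / 4 * Real.log X ≤ Real.log r := by
    rw [← Real.log_rpow hX0]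
    exact Real.log_le_log (by positivity) hr.le
  have hlP : Real.log P ≤ 2 * Real.log X := by
    have hP0 : (0:ℝ) < P := by exact_mod_cast hP.pos
    have hPn : (P : ℝ) ≤ n := by
      have hr1 : 1 ≤ r := Nat.one_le_iff_ne_zero.2 hsr.ne_zero
      have : P ≤ n := by rw [hn]; exact Nat.le_mul_of_pos_left P hr1
      exact_mod_cast this
    calc Real.log P ≤ Real.log (2 * X) := Real.log_le_log hP0 (hPn.trans hnX)
      _ ≤ Real.log (X * X) := Real.log_le_log (by positivity) (by nlinarith)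
      _ = _ := by rw [Real.log_mul hX0.ne' hX0.ne']; ring
  have hlq : 0 ≤ Real.log q := Real.log_natCast_nonneg q
  have hlP2 : Real.log P ≤ 8 * (j * Real.log q) := by linarith
  have hsplit : ∏ p ∈ r.primeFactors, (16 * gt η Q p) =
      (16 * gt η Q q) * ∏ p ∈ r.primeFactors.erase q, (16 * gt η Q p) := (Finset.mul_prod_erase _ _ hq).symm
  have hrest : ∏ p ∈ r.primeFactors.erase q, (16 * gt η Q p) ≤ (1 / 2) ^ (j - 1) := by
    calc _ ≤ ∏ _p ∈ r.primeFactors.erase q, (1 / 2 : ℝ) := by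
          apply Finset.prod_le_prod
          · intro p _
            have := gt_nonneg (Q := Q) hη.le p
            positivity
          · intro p _
            exact t_small hQ hη.le hη1 p
      _ = _ := by rw [Finset.prod_const, Finset.card_erase_of_mem hq]
  have hrest0 : 0 ≤ ∏ p ∈ r.primeFactors.erase q, (16 * gt η Q p) :=
    Finset.prod_nonneg fun p _ => by have := gt_nonneg (Q := Q) hη.le p; positivity
  have hgq := gt_nonneg (Q := Q) hη.le q
  have hna := nat_aux j h1
  have hlog := t_log hQ hη.le q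
  have hΛ : 0 < 1 + Real.log Q ^ 2 := by positivity
  rw [hsplit]
  calc _ ≤ 2 * (1 + Real.log Q ^ 2) * (8 * (j * Real.log q)) *
        ((16 * gt η Q q) * ∏ p ∈ r.primeFactors.erase q, (16 * gt η Q p)) := by gcongr
    _ = 16 * (1 + Real.log Q ^ 2) * (Real.log q * (16 * gt η Q q)) *
        (j * ∏ p ∈ r.primeFactors.erase q, (16 * gt η Q p)) := by ring
    _ ≤ 16 * (1 + Real.log Q ^ 2) * (32 * η * (1 + Real.log Q ^ 2)) * (j * (1 / 2) ^ (j - 1)) := by gcongr
    _ ≤ 16 * (1 + Real.log Q ^ 2) * (32 * η * (1 + Real.log Q ^ 2)) * 1 := by gcongr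
    _ = _ := by ring

end

end Pool.Agent.H483.SA
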