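import Pool.Agent.H483.SA.Count

set_option autoImplicit false

/-!
# Weighted count of composite numbers with large prime factors in a short interval: the sum
-/

namespace Pool.Agent.H483.SA

open Finset Pool.Agent.Q240.KS

section

variable {Q η : ℝ}

lemma case_one_fib {B₀ : ℝ} (hB2 : 2 ≤ B₀)
    (hB : ∀ X H : ℝ, 0 ≤ X → B₀ ≤ H → (pic X H : ℝ) ≤ 6 * H / Real.log H)
    {X H : ℝ} (hX : B₀ ^ 4 ≤ X) (hH1 : X ^ (1 / 2 : ℝ) ≤ H) {r : ℕ} (hr : (r : ℝ) ≤ X ^ (1 / 4 : ℝ)) (hr0 : 0 < r)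
    {F : Finset ℕ} (hF : ∀ P ∈ F, P.Prime ∧ X < r * P ∧ (r : ℝ) * P ≤ X + H) :
    (F.card : ℝ) ≤ 24 * (H / r) / Real.log X := by
  have hr0' : (0:ℝ) < r := by exact_mod_cast hr0
  have hX1 : 16 ≤ X := by
    have : (2:ℝ) ^ 4 ≤ B₀ ^ 4 := pow_le_pow_left₀ (by norm_num) hB2 4
    norm_num at this
    linarith
  have hX0 : 0 < X := by linarith
  have hH0 : 0 < H := lt_of_lt_of_le (by positivity) hH1
  have hq : X ^ (1 / 4 : ℝ) ≤ H / r := by
    rw [le_div_iff₀ hr0']
    calc X ^ (1 / 4 : ℝ) * r ≤ X ^ (1 / 4 : ℝ) * X ^ (1 / 4 : ℝ) := by gcongr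
      _ = X ^ (1 / 2 : ℝ) := by rw [← Real.rpow_add hX0]; norm_num
      _ ≤ H := hH1
  have hB0 : 0 < B₀ := by linarith
  have hBX : B₀ ≤ X ^ (1 / 4 : ℝ) := by
    have : (B₀ ^ 4) ^ (1 / 4 : ℝ) ≤ X ^ (1 / 4 : ℝ) := Real.rpow_le_rpow (by positivity) hX (by norm_num)
    rwa [← Real.rpow_natCast, ← Real.rpow_mul hB0.le, show ((4:ℕ):ℝ) * (1 / 4 : ℝ) = 1 by norm_num, Real.rpow_one] at this
  have hpic := hB (X / r) (H / r) (by positivity) (hBX.trans hq)
  have hsub : (F.card : ℝ) ≤ pic (X / r) (H / r) := by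
    unfold pic
    exact_mod_cast Finset.card_le_card (by
      intro P hP
      obtain ⟨h1, h2, h3⟩ := hF P hP
      rw [Finset.mem_filter]
      refine ⟨?_, h1⟩
      rw [Finset.mem_Ioc, Nat.floor_lt (by positivity), Nat.le_floor_iff (by positivity)]
      constructor
      · rw [div_lt_iff₀ hr0']; linarith
      · rw [← add_div, le_div_iff₀ hr0']; linarith)
  have hlog : 1 / 4 * Real.log X ≤ Real.log (H / r) := by
    rw [← Real.log_rpow hX0]
    exact Real.log_le_log (by positivity) hq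
  have hlX : 0 < Real.log X := Real.log_pos (by linarith)
  refine hsub.trans (hpic.trans ?_)
  calc 6 * (H / r) / Real.log (H / r) ≤ 6 * (H / r) / (1 / 4 * Real.log X) := by gcongr
    _ = _ := by field_simp; ring

lemma gt_div {r : ℕ} (hr : Squarefree r) : ∏ q ∈ r.primeFactors, (16 * gt η Q q) =
    r * ∏ q ∈ r.primeFactors, (if q.Prime then 16 * gt η Q q / q else 0) := by
  have h1 : (r : ℝ) = ∏ q ∈ r.primeFactors, (q : ℝ) := by
    conv_lhs => rw [← Nat.prod_primeFactors_of_squarefree hr]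
    push_cast
    rfl
  rw [h1, ← Finset.prod_mul_distrib]
  apply Finset.prod_congr rfl
  intro q hq
  have hp := Nat.prime_of_mem_primeFactors hq
  have hq0 : (q : ℝ) ≠ 0 := by exact_mod_cast hp.ne_zero
  rw [if_pos hp]
  field_simp

/-- the weighted count -/
theorem count {B₀ : ℝ} (hB2 : 2 ≤ B₀)
    (hB : ∀ X H : ℝ, 0 ≤ X → B₀ ≤ H → (pic X H : ℝ) ≤ 6 * H / Real.log H)
    (hQ : 1 ≤ Q) (hη : 0 < η) (hη1 : 32 * η * (1 + Real.log Q) ≤ 1) (hη2 : 1920 * η ≤ 1)
    {X H : ℝ} (hX : B₀ ^ 4 ≤ X) (hH1 : X ^ (1 / 2 : ℝ) ≤ H) (hH2 : H ≤ X) {Y : ℝ}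
    {F : Finset ℕ} (hF : ∀ n ∈ F, Cmp Y n ∧ X < n ∧ (n : ℝ) ≤ X + H) :
    ∑ n ∈ F, cn η Q n ≤ 400000 * η * (1 + Real.log Q ^ 2) ^ 2 * H := by
  classical
  have hX1 : 16 ≤ X := by
    have : (2:ℝ) ^ 4 ≤ B₀ ^ 4 := pow_le_pow_left₀ (by norm_num) hB2 4
    norm_num at this
    linarith
  have hX0 : 0 < X := by linarith
  have hH0 : 1 ≤ H := le_trans (Real.one_le_rpow (by linarith) (by norm_num)) hH1
  have hlX : 0 < Real.log X := Real.log_pos (by linarith)
  set Λ := 1 + Real.log Q ^ 2 with hΛ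
  have hΛ1 : 1 ≤ Λ := by rw [hΛ]; nlinarith [sq_nonneg (Real.log Q)]
  have hdec := fun n (hn : Cmp Y n) => decomp hn
  choose! Pf rf hP hn hsr hPr hpf hcard h1 hle using hdec
  rw [← Finset.sum_filter_add_sum_filter_not F (fun n => (rf n : ℝ) ≤ X ^ (1 / 4 : ℝ))]
  -- second case
  have hsec : ∑ n ∈ F with ¬ (rf n : ℝ) ≤ X ^ (1 / 4 : ℝ), cn η Q n ≤ 1024 * η * Λ ^ 2 * H := by
    have hc : ((F.filter (fun n => ¬ (rf n : ℝ) ≤ X ^ (1 / 4 : ℝ))).card : ℝ) ≤ 2 * H := by
      have h3 : F.filter (fun n => ¬ (rf n : ℝ) ≤ X ^ (1 / 4 : ℝ)) ⊆ Finset.Ioc ⌊X⌋₊ ⌊X + H⌋₊ := by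
        intro n hn'
        obtain ⟨-, h4, h5⟩ := hF n (Finset.mem_filter.1 hn').1
        rw [Finset.mem_Ioc, Nat.floor_lt (by positivity), Nat.le_floor_iff (by positivity)]
        exact ⟨h4, h5⟩
      have h4 := Finset.card_le_card h3
      rw [Nat.card_Ioc] at h4
      have h5 : (⌊X⌋₊ : ℝ) > X - 1 := by have := Nat.lt_floor_add_one X; linarith
      have h6 : (⌊X + H⌋₊ : ℝ) ≤ X + H := Nat.floor_le (by positivity)
      have h7 : ⌊X⌋₊ ≤ ⌊X + H⌋₊ := Nat.floor_le_floor (by linarith)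
      have h8 : ((⌊X + H⌋₊ - ⌊X⌋₊ : ℕ) : ℝ) = (⌊X + H⌋₊ : ℝ) - ⌊X⌋₊ := Nat.cast_sub h7
      have h9 : ((F.filter (fun n => ¬ (rf n : ℝ) ≤ X ^ (1 / 4 : ℝ))).card : ℝ) ≤
          ((⌊X + H⌋₊ - ⌊X⌋₊ : ℕ) : ℝ) := by exact_mod_cast h4
      linarith
    calc _ ≤ ∑ n ∈ F with ¬ (rf n : ℝ) ≤ X ^ (1 / 4 : ℝ), 512 * η * Λ ^ 2 := by
          apply Finset.sum_le_sum
          intro n hn'
          rw [Finset.mem_filter] at hn'
          obtain ⟨h4, h5, h6⟩ := hF n hn'.1
          exact case_two hQ hη hη1 (X := X) (by linarith) (by linarith) (hn n h4) h4.1 (hsr n h4) (hP n h4) (hPr n h4)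
            (hpf n h4) (hcard n h4) (h1 n h4) (hle n h4) (not_le.1 hn'.2)
      _ = (F.filter (fun n => ¬ (rf n : ℝ) ≤ X ^ (1 / 4 : ℝ))).card * (512 * η * Λ ^ 2) := by
          rw [Finset.sum_const, nsmul_eq_mul]
      _ ≤ (2 * H) * (512 * η * Λ ^ 2) := by gcongr
      _ = _ := by ring
  -- first case
  set F1 := F.filter (fun n => (rf n : ℝ) ≤ X ^ (1 / 4 : ℝ)) with hF1
  have hfst : ∑ n ∈ F1, cn η Q n ≤ 368640 * η * Λ * H := by
    rw [← Finset.sum_fiberwise_of_maps_to (g := rf) (t := F1.image rf) (fun n hn' => Finset.mem_image_of_mem rf hn')]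
    have hfib : ∀ r ∈ F1.image rf, ∑ n ∈ F1 with rf n = r, cn η Q n ≤
        96 * Λ * H * ∏ q ∈ r.primeFactors, (if q.Prime then 16 * gt η Q q / q else 0) := by
      intro r hr
      rw [Finset.mem_image] at hr
      obtain ⟨n₀, hn₀, hrn⟩ := hr
      have hn₀F := (Finset.mem_filter.1 hn₀)
      obtain ⟨c1, c2, c3⟩ := hF n₀ hn₀F.1
      have hsqr : Squarefree r := hrn ▸ hsr n₀ c1
      have hr0 : 0 < r := Nat.pos_of_ne_zero hsqr.ne_zero
      have hr0' : (0:ℝ) < r := by exact_mod_cast hr0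
      have hrX : (r : ℝ) ≤ X ^ (1 / 4 : ℝ) := hrn ▸ hn₀F.2
      have hprod0 : 0 ≤ ∏ q ∈ r.primeFactors, (16 * gt η Q q) :=
        Finset.prod_nonneg fun q _ => by have := gt_nonneg (Q := Q) hη.le q; positivity
      have hcard2 : ((F1.filter (fun n => rf n = r)).card : ℝ) ≤ 24 * (H / r) / Real.log X := by
        have hinj : Set.InjOn Pf (F1.filter (fun n => rf n = r) : Set ℕ) := by
          intro a ha b hb hab
          rw [Finset.mem_coe, Finset.mem_filter, hF1, Finset.mem_filter] at ha hb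
          have ea := hn a (hF a ha.1.1).1
          have eb := hn b (hF b hb.1.1).1
          rw [ea, eb, ha.2, hb.2, hab]
        rw [← Finset.card_image_of_injOn hinj]
        apply case_one_fib hB2 hB hX hH1 hrX hr0
        intro P hP'
        rw [Finset.mem_image] at hP'
        obtain ⟨n, hn', rfl⟩ := hP'
        rw [Finset.mem_filter, hF1, Finset.mem_filter] at hn'
        obtain ⟨d1, d2, d3⟩ := hF n hn'.1.1
        have e := hn n d1
        rw [hn'.2] at e
        have e' : (n : ℝ) = r * Pf n := by exact_mod_cast e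
        rw [e'] at d2 d3
        exact ⟨hP n d1, d2, d3⟩
      calc _ ≤ ∑ n ∈ F1 with rf n = r, 2 * Λ * (2 * Real.log X) * ∏ q ∈ r.primeFactors, (16 * gt η Q q) := by
            apply Finset.sum_le_sum
            intro n hn'
            rw [Finset.mem_filter, hF1, Finset.mem_filter] at hn'
            obtain ⟨d1, d2, d3⟩ := hF n hn'.1.1
            have e := cn_le hQ hη d1.1 (hP n d1) (hPr n d1) (hpf n d1) (hcard n d1) (h1 n d1) (hle n d1)
            rw [hn'.2] at e
            refine e.trans ?_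
            have hlP : Real.log (Pf n) ≤ 2 * Real.log X := by
              have hP0 : (0:ℝ) < Pf n := by exact_mod_cast (hP n d1).pos
              have hPn : (Pf n : ℝ) ≤ n := by
                have hr1 : 1 ≤ rf n := Nat.one_le_iff_ne_zero.2 (hsr n d1).ne_zero
                have : Pf n ≤ n := by
                  conv_rhs => rw [hn n d1]
                  exact Nat.le_mul_of_pos_left (Pf n) hr1
                exact_mod_cast this
              calc Real.log (Pf n) ≤ Real.log (2 * X) := Real.log_le_log hP0 (by linarith)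
                _ ≤ Real.log (X * X) := Real.log_le_log (by positivity) (by nlinarith)
                _ = _ := by rw [Real.log_mul hX0.ne' hX0.ne']; ring
            gcongr
        _ = (F1.filter (fun n => rf n = r)).card * (2 * Λ * (2 * Real.log X) * ∏ q ∈ r.primeFactors, (16 * gt η Q q)) := by
            rw [Finset.sum_const, nsmul_eq_mul]
        _ ≤ (24 * (H / r) / Real.log X) * (2 * Λ * (2 * Real.log X) * ∏ q ∈ r.primeFactors, (16 * gt η Q q)) := by
            gcongr
        _ = _ := by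
            rw [gt_div hsqr]
            field_simp
            ring
    have hexp : ∑ r ∈ F1.image rf, ∏ q ∈ r.primeFactors, (if q.Prime then 16 * gt η Q q / q else 0) ≤
        Real.exp (1920 * η) - 1 := by
      apply sum_prod_sqfree_ne_one
      · intro r hr
        rw [Finset.mem_image] at hr
        obtain ⟨n₀, hn₀, hrn⟩ := hr
        obtain ⟨c1, -, -⟩ := hF n₀ (Finset.mem_filter.1 hn₀).1
        refine ⟨hrn ▸ hsr n₀ c1, ?_⟩
        rintro rfl
        have := h1 n₀ c1
        rw [hrn] at this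
        simp at this
      · intro q
        split_ifs
        · have := gt_nonneg (Q := Q) hη.le q
          positivity
        · exact le_rfl
      · intro S
        have hm := mert (Real.log Q) S
        rw [← Finset.sum_filter]
        calc ∑ q ∈ S with q.Prime, 16 * gt η Q q / q =
            16 * η * ∑ q ∈ S with q.Prime, Real.log q / (q * (1 + (Real.log q - Real.log Q) ^ 2)) := by
              rw [Finset.mul_sum]
              apply Finset.sum_congr rfl
              intro q hq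
              have hq0 : (q : ℝ) ≠ 0 := by exact_mod_cast (Finset.mem_filter.1 hq).2.ne_zero
              have hM : MM Q q ≠ 0 := (MM_pos Q q).ne'
              unfold gt
              rw [← MM]
              field_simp
          _ ≤ 16 * η * 120 := by gcongr
          _ = _ := by ring
    have hexp2 : Real.exp (1920 * η) - 1 ≤ 2 * (1920 * η) := by
      have h3 : 0 ≤ 1920 * η := by positivity
      have := Real.exp_bound' h3 hη2 (n := 2) (by norm_num)
      norm_num [Finset.sum_range_succ, Nat.factorial] at this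
      nlinarith
    calc _ ≤ ∑ r ∈ F1.image rf, 96 * Λ * H * ∏ q ∈ r.primeFactors, (if q.Prime then 16 * gt η Q q / q else 0) :=
          Finset.sum_le_sum hfib
      _ = 96 * Λ * H * ∑ r ∈ F1.image rf, ∏ q ∈ r.primeFactors, (if q.Prime then 16 * gt η Q q / q else 0) := by
          rw [Finset.mul_sum]
      _ ≤ 96 * Λ * H * (2 * (1920 * η)) := by
          gcongr
          exact hexp.trans hexp2
      _ = _ := by ring
  have h10 : 368640 * η * Λ * H ≤ 368640 * η * Λ ^ 2 * H := by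
    have : Λ ≤ Λ ^ 2 := by nlinarith
    gcongr
  have h11 : 0 ≤ η * Λ ^ 2 * H := by positivity
  nlinarith [hfst, hsec]

end

end Pool.Agent.H483.SA
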