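import Pool.Agent.H483.SA.Prm
import Pool.Agent.H483.SA.Count2

set_option autoImplicit false

/-!
# The analytic data for a given conductor parameter `Q`
-/

namespace Pool.Agent.H483.SA

open Filter Topology Set
open Pool.Agent.H483.FE Pool.Agent.Q240.KS

lemma Cmp.zz_gt {Q y0 : ℝ} (hQ : 0 < Q) {n : ℕ} (hn : Cmp (Q * Real.exp y0) n) : y0 < zz Q n := by
  obtain ⟨h1, h2, h3⟩ := hn
  have hne : n.primeFactors.Nonempty := Finset.card_pos.1 (by omega)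
  obtain ⟨q, hq⟩ := hne
  have h4 := h3 q hq
  have hn0 : 0 < n := Nat.pos_of_ne_zero h1.ne_zero
  have h5 : q ≤ n := Nat.le_of_dvd hn0 (Nat.dvd_of_mem_primeFactors hq)
  have h6 : Q * Real.exp y0 < n := lt_of_lt_of_le h4 (by exact_mod_cast h5)
  unfold zz
  rw [lt_sub_iff_add_lt]
  have e1 : Q * Real.exp y0 = Real.exp (y0 + Real.log Q) := by
    rw [Real.exp_add, Real.exp_log hQ]; ring
  rw [e1] at h6
  have hn0' : (0:ℝ) < n := by exact_mod_cast hn0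
  exact (Real.lt_log_iff_exp_lt hn0').2 h6

/-- the composites in a window -/
theorem comp_window {α δ y0 B₀ : ℝ} (hα : 0 < α) (hα4 : α ≤ 1 / 4) (hδ : 0 < δ) (hδ1 : δ ≤ 1 / 2) (hB2 : 2 ≤ B₀)
    (hB : ∀ X H : ℝ, 0 ≤ X → B₀ ≤ H → (pic X H : ℝ) ≤ 6 * H / Real.log H) :
    ∃ Q₀ : ℝ, 1 ≤ Q₀ ∧ ∀ Q : ℝ, Q₀ ≤ Q → ∀ η : ℝ, 0 < η → 32 * η * (1 + Real.log Q) ≤ 1 → 1920 * η ≤ 1 →
      ∀ F : Finset ℕ, (∀ n ∈ F, Cmp (Q * Real.exp y0) n) → ∀ k : ℕ,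
      ∑ n ∈ F with zz Q n ∈ Ioc (wy α δ y0 k) (wy α δ y0 (k + 1)), (n : ℝ) ^ (2 * α) * Q ^ (-(1 + 2 * α)) * cn η Q n ≤
      (4000000 * (η * (1 + Real.log Q ^ 2) ^ 2)) *
        ((wy α δ y0 (k + 1) - wy α δ y0 k) * Real.exp (2 * (1 / 2 + α) * wy α δ y0 k)) := by
  obtain ⟨Q₀, hQ₀, hW⟩ := window_size (y0 := y0) hα hδ hδ1 (θ := 1 / 2) (by norm_num) (by linarith) (B₀ ^ 4)
  refine ⟨Q₀, hQ₀, fun Q hQ η hη hη1 hη2 F hF k => ?_⟩
  have hQ1 : 1 ≤ Q := hQ₀.trans hQ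
  have hQ0 : 0 < Q := by linarith
  obtain ⟨g1, g2, g3, g4, g5, g6⟩ := hW Q hQ k
  set a := wy α δ y0 k with ha
  set b := wy α δ y0 (k + 1) with hb
  have hab : 0 < b - a := wy_pos hδ k
  have hab2 : b - a ≤ 1 / 2 := (wy_le hδ k).trans hδ1
  set X := Q * Real.exp a with hX
  set X' := Q * Real.exp b with hX'
  have hX'0 : 0 < X' := by positivity
  have hcount := count hB2 hB hQ1 hη hη1 hη2 (X := X) (H := X' - X) g1 g3 g4 (Y := Q * Real.exp y0)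
    (F := F.filter (fun n => zz Q n ∈ Ioc a b)) (by
      intro n hn
      rw [Finset.mem_filter] at hn
      have h1 := hF n hn.1
      have hn0 : 0 < n := Nat.pos_of_ne_zero h1.1.ne_zero
      have h2 := (zz_mem hQ0 hn0).1 hn.2
      refine ⟨h1, h2.1, ?_⟩
      rw [add_sub_cancel]
      exact h2.2)
  calc _ ≤ ∑ n ∈ F with zz Q n ∈ Ioc a b, (X' ^ (2 * α) * Q ^ (-(1 + 2 * α))) * cn η Q n := by
        apply Finset.sum_le_sum
        intro n hn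
        rw [Finset.mem_filter] at hn
        have h1 := hF n hn.1
        have hn0 : 0 < n := Nat.pos_of_ne_zero h1.1.ne_zero
        have h2 := (zz_mem hQ0 hn0).1 hn.2
        have h3 := cn_nonneg (Q := Q) hη.le n
        have h4 : (n : ℝ) ^ (2 * α) ≤ X' ^ (2 * α) :=
          Real.rpow_le_rpow (Nat.cast_nonneg _) h2.2 (by positivity)
        gcongr
    _ = (X' ^ (2 * α) * Q ^ (-(1 + 2 * α))) * ∑ n ∈ F with zz Q n ∈ Ioc a b, cn η Q n := by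
        rw [Finset.mul_sum]
    _ ≤ (X' ^ (2 * α) * Q ^ (-(1 + 2 * α))) * (400000 * η * (1 + Real.log Q ^ 2) ^ 2 * (X' - X)) := by
        gcongr
    _ ≤ (X' ^ (2 * α) * Q ^ (-(1 + 2 * α))) * (400000 * η * (1 + Real.log Q ^ 2) ^ 2 * (2 * (X * (b - a)))) := by
        gcongr
    _ = (800000 * (η * (1 + Real.log Q ^ 2) ^ 2)) * (b - a) * (Real.exp (2 * α * b) * Real.exp a) := by
        have e1 : X' ^ (2 * α) = Q ^ (2 * α) * Real.exp (2 * α * b) := by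
          rw [hX', Real.mul_rpow hQ0.le (Real.exp_pos _).le, ← Real.exp_mul]
          congr 2
          ring
        have e2 : Q ^ (-(1 + 2 * α)) = Q⁻¹ * (Q ^ (2 * α))⁻¹ := by
          rw [neg_add, Real.rpow_add hQ0, Real.rpow_neg_one, Real.rpow_neg hQ0.le]
        have e3 : Q ^ (2 * α) ≠ 0 := (Real.rpow_pos_of_pos hQ0 _).ne'
        rw [e1, e2, hX]
        field_simp
        ring
    _ ≤ (800000 * (η * (1 + Real.log Q ^ 2) ^ 2)) * (b - a) * (5 * Real.exp (2 * (1 / 2 + α) * a)) := by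
        apply mul_le_mul_of_nonneg_left _ (by positivity)
        have e1 : Real.exp (2 * α * b) * Real.exp a = Real.exp (2 * α * (b - a)) * Real.exp (2 * (1 / 2 + α) * a) := by
          rw [← Real.exp_add, ← Real.exp_add]; congr 1; ring
        rw [e1]
        gcongr
        have e2 : Real.exp (2 * α * (b - a)) ≤ Real.exp 1 := by
          apply Real.exp_le_exp.2
          nlinarith
        have := Real.exp_one_lt_d9
        linarith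
    _ = _ := by ring

/-- the sampled energy -/
noncomputable def SS (α y0 Q : ℝ) (h : ℝ → ℂ) : ℝ := ∑' n, ww α y0 Q n * ‖dv h (zz Q n)‖ ^ 2

/-- the data -/
structure Dt (γ : ℂ → ℂ) (α y0 K Q : ℝ) : Prop where
  summ : ∀ h, Good γ h → Summable fun n => ww α y0 Q n * ‖dv h (zz Q n)‖ ^ 2
  left : ∀ h, Good γ h → ∀ z ≤ y0, ‖dv h z‖ ^ 2 ≤ K * Real.exp (-(2 * (1 / 2 - α)) * z) * SS α y0 Q h
  right : ∀ h, Good γ h → ∀ z, y0 ≤ z → ‖dv h z‖ ^ 2 ≤ K * Real.exp (-z) * SS α y0 Q h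
  up : ∀ h, Good γ h → ∀ F : Finset ℕ, (∀ n ∈ F, Cmp (Q * Real.exp y0) n) → ∀ η : ℝ, 0 < η →
    32 * η * (1 + Real.log Q) ≤ 1 → 1920 * η ≤ 1 →
    ∑ n ∈ F, ((n : ℝ) ^ (2 * α) * Q ^ (-(1 + 2 * α)) * cn η Q n) * ‖dv h (zz Q n)‖ ^ 2 ≤
      K * (η * (1 + Real.log Q ^ 2) ^ 2) * SS α y0 Q h

lemma dec_zz {f : ℝ → ℂ} (hD : Dec f) {σ : ℝ} (hσ : 0 < σ) {Q : ℝ} (hQ : 0 < Q) : ∃ C : ℝ, 0 ≤ C ∧ ∀ n : ℕ, 1 ≤ n →
    ‖f (zz Q n)‖ ≤ C * (n : ℝ) ^ (-σ) := by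
  obtain ⟨C, hC⟩ := hD σ hσ
  refine ⟨|C| * Q ^ σ, by positivity, fun n hn => ?_⟩
  have hn0 : (0:ℝ) < n := by exact_mod_cast hn
  have h1 := hC (zz Q n)
  have e : Real.exp (-σ * zz Q n) = Q ^ σ * (n : ℝ) ^ (-σ) := by
    unfold zz
    rw [Real.rpow_def_of_pos hn0, Real.rpow_def_of_pos hQ, ← Real.exp_add]
    congr 1
    ring
  rw [e] at h1
  refine h1.trans ?_
  calc C * (Q ^ σ * (n : ℝ) ^ (-σ)) ≤ |C| * (Q ^ σ * (n : ℝ) ^ (-σ)) := by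
        gcongr; exact le_abs_self _
    _ = _ := by ring

lemma ww_le {α y0 Q : ℝ} (hα : 0 < α) (hα2 : α < 1 / 2) (hQ : 1 ≤ Q) {n : ℕ} (hn : 1 ≤ n) : ww α y0 Q n ≤ (n : ℝ) ^ 2 := by
  have hn1 : (1:ℝ) ≤ n := by exact_mod_cast hn
  unfold ww
  split_ifs with h
  · have h1 : Real.log n ≤ n := (Real.log_le_sub_one_of_pos (by linarith)).trans (by linarith)
    have h0 := Real.log_natCast_nonneg n
    have h2 : Real.log n / Q ≤ n := (div_le_self h0 hQ).trans h1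
    have h3 : ((n : ℝ) / Q) ^ (2 * α) ≤ n := by
      calc ((n : ℝ) / Q) ^ (2 * α) ≤ (n : ℝ) ^ (2 * α) :=
            Real.rpow_le_rpow (by positivity) (div_le_self (by linarith) hQ) (by positivity)
        _ ≤ (n : ℝ) ^ (1:ℝ) := Real.rpow_le_rpow_of_exponent_le hn1 (by linarith)
        _ = n := Real.rpow_one _
    calc _ ≤ (n : ℝ) * n := by gcongr
      _ = _ := by ring
  · positivity

lemma ww_zero {α y0 Q : ℝ} : ww α y0 Q 0 = 0 := by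
  unfold ww
  rw [if_neg]
  rintro ⟨h, -⟩
  exact Nat.not_prime_zero h

lemma summ_ww {α y0 Q : ℝ} (hα : 0 < α) (hα2 : α < 1 / 2) (hQ : 1 ≤ Q) {f : ℝ → ℂ} (hD : Dec f) :
    Summable fun n => ww α y0 Q n * ‖f (zz Q n)‖ ^ 2 := by
  obtain ⟨C, hC0, hC⟩ := dec_zz hD (σ := 2) (by norm_num) (Q := Q) (by linarith)
  have hs : Summable fun n : ℕ => C ^ 2 * (n : ℝ) ^ (-(2:ℝ)) :=
    (Real.summable_nat_rpow.2 (by norm_num)).mul_left _
  refine Summable.of_nonneg_of_le (fun n => mul_nonneg (ww_nonneg (by linarith) n) (by positivity)) (fun n => ?_) hs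
  rcases Nat.eq_zero_or_pos n with rfl | hn
  · rw [ww_zero, zero_mul]; positivity
  · have hn0 : (0:ℝ) < n := by exact_mod_cast hn
    calc _ ≤ (n : ℝ) ^ 2 * (C * (n : ℝ) ^ (-(2:ℝ))) ^ 2 := by
          gcongr
          · exact ww_le hα hα2 hQ hn
          · exact hC n hn
      _ = C ^ 2 * ((n : ℝ) ^ 2 * ((n : ℝ) ^ (-(2:ℝ))) ^ 2) := by ring
      _ = _ := by
          congr 1
          rw [← Real.rpow_natCast, ← Real.rpow_natCast, ← Real.rpow_mul hn0.le, ← Real.rpow_add hn0]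
          norm_num

/-- existence of the data for all large `Q` -/
theorem data {α E θ : ℝ} (hα : 0 < α) (hE : 0 ≤ E) (hθ1 : θ < 1) (hθ0 : 1 / 2 ≤ θ) (hθ : θ ≤ 1 - 2 * α)
    (hPI : PI θ) :
    ∃ y0 K Q₀ : ℝ, y0 ≤ 0 ∧ 0 < K ∧ 1 ≤ Q₀ ∧ ∀ Q : ℝ, Q₀ ≤ Q → ∀ γ : ℂ → ℂ,
      (∀ h, Good γ h → ∃ f', Cls α E (dv h) f') → Dt γ α y0 K Q := by
  have hα2 : α < 1 / 2 := by linarith
  have hα4 : α ≤ 1 / 4 := by linarith
  obtain ⟨δ, y0, C, hδ, hδ1, hy0, hC, hlow⟩ := lower hα hα2 hE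
  obtain ⟨c, Q₁, hc, hQ₁, hPW⟩ := PP_weight (y0 := y0) hα hδ hδ1 hθ1 hθ hPI
  obtain ⟨B₀, hB2, hB⟩ := bt
  obtain ⟨Q₂, hQ₂, hCW⟩ := comp_window (y0 := y0) hα hα4 hδ hδ1 hB2 hB
  obtain ⟨Cr, hCr, hr⟩ := point_right (y0 := y0) hα hα2 hδ (by linarith) hy0
  obtain ⟨Cl, hCl, hl⟩ := point_left (y0 := y0) hα hα2 hδ (by linarith) hy0
  set K₁ := (1 + E) * (C / c) with hK₁
  have hK₁0 : 0 < K₁ := by positivity
  refine ⟨y0, K₁ * (Cr + Cl + 8000000), max Q₁ Q₂, hy0, by positivity, hQ₁.trans (le_max_left _ _), fun Q hQ γ hcls => ?_⟩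
  have hQa : Q₁ ≤ Q := (le_max_left _ _).trans hQ
  have hQb : Q₂ ≤ Q := (le_max_right _ _).trans hQ
  have hQ1 : 1 ≤ Q := hQ₁.trans hQa
  have hQ0 : 0 < Q := by linarith
  have hsumm : ∀ h, Good γ h → Summable fun n => ww α y0 Q n * ‖dv h (zz Q n)‖ ^ 2 := by
    intro h hg
    obtain ⟨f', hf⟩ := hcls h hg
    exact summ_ww hα hα2 hQ1 hf.dec
  have hAD : ∀ h f', Good γ h → Cls α E (dv h) f' →
      ((∫ y, Real.exp (2 * (1 / 2 + α) * y) * ‖dv h y‖ ^ 2) +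
        ∫ y, Real.exp (2 * (1 / 2 - α) * y) * ‖f' y‖ ^ 2) ≤ K₁ * SS α y0 Q h := by
    intro h f' hg hf
    have h1 := hlow (dv h) f' hf (ww α y0 Q) (zz Q) c (PP α δ y0 Q) hc (ww_nonneg hQ0)
      (fun k p hp => Ioc_subset_Icc_self ((mem_PP hQ0 k p).1 hp).2) (fun k l hkl => PP_disj hδ hQ0 k l hkl)
      (fun k => hPW Q hQa k) (hsumm h hg)
    have h2 := hf.en
    have h3 : (∫ y, Real.exp (2 * (1 / 2 + α) * y) * ‖dv h y‖ ^ 2) ≤ C / c * SS α y0 Q h := h1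
    calc _ ≤ (1 + E) * ∫ y, Real.exp (2 * (1 / 2 + α) * y) * ‖dv h y‖ ^ 2 := by linarith
      _ ≤ (1 + E) * (C / c * SS α y0 Q h) := by gcongr
      _ = _ := by rw [hK₁]; ring
  have hSS0 : ∀ h, 0 ≤ SS α y0 Q h := fun h =>
    tsum_nonneg fun n => mul_nonneg (ww_nonneg hQ0 n) (by positivity)
  refine ⟨hsumm, ?_, ?_, ?_⟩
  · intro h hg z hz
    obtain ⟨f', hf⟩ := hcls h hg
    have h1 := hl E (dv h) f' hf z hz
    have h2 := hAD h f' hg hf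
    refine h1.trans ?_
    calc _ ≤ Cl * Real.exp (-(2 * (1 / 2 - α)) * z) * (K₁ * SS α y0 Q h) := by gcongr
      _ = (K₁ * Cl) * Real.exp (-(2 * (1 / 2 - α)) * z) * SS α y0 Q h := by ring
      _ ≤ _ := by
          have := hSS0 h
          gcongr
          linarith
  · intro h hg z hz
    obtain ⟨f', hf⟩ := hcls h hg
    have h1 := hr E (dv h) f' hf z hz
    have h2 := hAD h f' hg hf
    refine h1.trans ?_
    calc _ ≤ Cr * Real.exp (-z) * (K₁ * SS α y0 Q h) := by gcongr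
      _ = (K₁ * Cr) * Real.exp (-z) * SS α y0 Q h := by ring
      _ ≤ _ := by
          have := hSS0 h
          gcongr
          linarith
  · intro h hg F hF η hη hη1 hη2
    obtain ⟨f', hf⟩ := hcls h hg
    have h2 := hAD h f' hg hf
    have h3 := upper_sum (y0 := y0) hα hα2 hδ (by linarith) hf F (zz Q)
      (fun n => (n : ℝ) ^ (2 * α) * Q ^ (-(1 + 2 * α)) * cn η Q n)
      (fun n _ => mul_nonneg (by positivity) (cn_nonneg hη.le n)) (fun n hn => (hF n hn).zz_gt hQ0)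
      (ε := 4000000 * (η * (1 + Real.log Q ^ 2) ^ 2)) (by positivity)
      (fun k => hCW Q hQb η hη hη1 hη2 F hF k)
    refine h3.trans ?_
    calc _ ≤ 2 * (4000000 * (η * (1 + Real.log Q ^ 2) ^ 2)) * (K₁ * SS α y0 Q h) := by gcongr
      _ = (K₁ * 8000000) * (η * (1 + Real.log Q ^ 2) ^ 2) * SS α y0 Q h := by ring
      _ ≤ _ := by
          have := hSS0 h
          gcongr
          linarith

end Pool.Agent.H483.SA
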