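import Pool.Agent.H483.SA.Fix

set_option autoImplicit false

/-!
# The Euler product
-/

namespace Pool.Agent.H483.SA

open Set Filter Topology Complex

/-- multiplicativity -/
lemma cf_mul (a : ℕ → ℂ) {m n : ℕ} (h : Nat.Coprime m n) : cf a (m * n) = cf a m * cf a n := by
  by_cases hm : Squarefree m
  · by_cases hn : Squarefree n
    · have hmn : Squarefree (m * n) := (Nat.squarefree_mul h).2 ⟨hm, hn⟩
      rw [cf_sqfree hm, cf_sqfree hn, cf_sqfree hmn, h.primeFactors_mul,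
        Finset.prod_union h.disjoint_primeFactors]
    · rw [cf_not_sqfree hn, cf_not_sqfree (fun h' => hn ((Nat.squarefree_mul h).1 h').2), mul_zero]
  · rw [cf_not_sqfree hm, cf_not_sqfree (fun h' => hm ((Nat.squarefree_mul h).1 h').1), zero_mul]

lemma cf_prime (a : ℕ → ℂ) {p : ℕ} (hp : p.Prime) : cf a p = a p := by
  rw [cf_sqfree hp.squarefree, hp.primeFactors, Finset.prod_singleton]

lemma cf_le_one {a : ℕ → ℂ} (ha : ∀ p, ‖a p‖ ≤ 1) (n : ℕ) : ‖cf a n‖ ≤ 1 := by
  unfold cf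
  split_ifs with h
  · rw [norm_prod]
    exact Finset.prod_le_one (fun _ _ => norm_nonneg _) (fun p _ => ha p)
  · simp

/-- the Euler product over `1 + a(p) p^{-s}` -/
theorem euler_basic {a : ℕ → ℂ} {s : ℂ} (hs : LSeriesSummable (cf a) s) :
    HasProd (fun p : Nat.Primes => 1 + a p * ((p : ℕ) : ℂ) ^ (-s)) (LSeries (cf a) s) := by
  have h0 : LSeries.term (cf a) s 0 = 0 := LSeries.term_zero _ _
  have h1 : LSeries.term (cf a) s 1 = 1 := by
    rw [LSeries.term_of_ne_zero one_ne_zero, cf_one]; simp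
  have hmul : ∀ {m n : ℕ}, Nat.Coprime m n →
      LSeries.term (cf a) s (m * n) = LSeries.term (cf a) s m * LSeries.term (cf a) s n := by
    intro m n h
    rcases Nat.eq_zero_or_pos m with rfl | hm
    · simp
    rcases Nat.eq_zero_or_pos n with rfl | hn
    · simp
    rw [LSeries.term_of_ne_zero (Nat.mul_pos hm hn).ne', LSeries.term_of_ne_zero hm.ne',
      LSeries.term_of_ne_zero hn.ne', cf_mul a h]
    push_cast
    rw [Complex.natCast_mul_natCast_cpow]
    field_simp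
  have hprod := EulerProduct.eulerProduct_hasProd h1 hmul hs.norm h0
  have e : (∑' n, LSeries.term (cf a) s n) = LSeries (cf a) s := rfl
  rw [e] at hprod
  convert! hprod using 1
  funext p
  have hp := p.2
  have h2 : ∀ e : ℕ, e ∉ Finset.range 2 → LSeries.term (cf a) s ((p : ℕ) ^ e) = 0 := by
    intro e he
    rw [Finset.mem_range, not_lt] at he
    rw [LSeries.term_of_ne_zero (pow_ne_zero _ hp.ne_zero), cf_not_sqfree, zero_div]
    intro hsq
    have h3 : (p : ℕ) * p ∣ (p : ℕ) ^ e := by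
      rw [← sq]; exact pow_dvd_pow _ he
    have h4 := hsq p h3
    exact hp.one_lt.ne' (Nat.isUnit_iff.1 h4)
  rw [tsum_eq_sum h2, Finset.sum_range_succ, Finset.sum_range_one, pow_zero, pow_one, h1,
    LSeries.term_of_ne_zero hp.ne_zero, cf_prime a hp, Complex.cpow_neg, div_eq_mul_inv]

/-- the coefficients of the logarithm -/
noncomputable def bc (a : ℕ → ℂ) (n : ℕ) : ℂ :=
  (-1) ^ (n.factorization n.minFac + 1) * a n.minFac ^ (n.factorization n.minFac) / (n.factorization n.minFac : ℂ)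

lemma bc_pow (a : ℕ → ℂ) {p k : ℕ} (hp : p.Prime) (hk : 1 ≤ k) : bc a (p ^ k) = (-1) ^ (k + 1) * a p ^ k / (k : ℂ) := by
  have h1 : (p ^ k).minFac = p := hp.pow_minFac (by omega)
  have h2 : (p ^ k).factorization p = k := by
    rw [hp.factorization_pow]; simp
  unfold bc
  rw [h1, h2]

lemma bc_le {a : ℕ → ℂ} (ha : ∀ p, ‖a p‖ ≤ 1) {p k : ℕ} (hp : p.Prime) (hk : 1 ≤ k) : ‖bc a (p ^ k)‖ ≤ 1 := by
  rw [bc_pow a hp hk, norm_div, norm_mul, norm_pow, norm_pow, norm_neg, norm_one, one_pow, one_mul,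
    Complex.norm_natCast]
  have hk1 : (1:ℝ) ≤ k := by exact_mod_cast hk
  rw [div_le_one (by linarith)]
  exact (pow_le_one₀ (norm_nonneg _) (ha p)).trans hk1

/-- the Euler product in exponential form -/
theorem euler_exp {a : ℕ → ℂ} (ha : ∀ p, ‖a p‖ ≤ 1) {s : ℂ} (hs0 : 0 < s.re) (hs : LSeriesSummable (cf a) s) :
    HasProd (fun p : Nat.Primes =>
      Complex.exp (∑' k : ℕ, bc a ((p : ℕ) ^ (k + 1)) * ((p : ℕ) : ℂ) ^ (-(((k + 1 : ℕ) : ℂ) * s))))
      (LSeries (cf a) s) := by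
  convert! euler_basic hs using 1
  funext p
  have hp := p.2
  have hp0 : ((p : ℕ) : ℂ) ≠ 0 := by exact_mod_cast hp.ne_zero
  set z : ℂ := a p * ((p : ℕ) : ℂ) ^ (-s) with hz
  have hz1 : ‖z‖ < 1 := by
    rw [hz, norm_mul, Complex.norm_natCast_cpow_of_pos hp.pos]
    have h1 : ((p : ℕ) : ℝ) ^ (-s).re < 1 := by
      apply Real.rpow_lt_one_of_one_lt_of_neg
      · exact_mod_cast hp.one_lt
      · simp; exact hs0
    have h2 := ha p
    have h3 : 0 ≤ ((p : ℕ) : ℝ) ^ (-s).re := by positivity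
    calc _ ≤ 1 * ((p : ℕ) : ℝ) ^ (-s).re := by gcongr
      _ < 1 := by rw [one_mul]; exact h1
  have hlog := Complex.hasSum_taylorSeries_log hz1
  have h2 := (hasSum_nat_add_iff' 1).2 hlog
  simp only [Finset.sum_range_one, Nat.cast_zero, div_zero, sub_zero] at h2
  have h3 : ∑' k : ℕ, bc a ((p : ℕ) ^ (k + 1)) * ((p : ℕ) : ℂ) ^ (-(((k + 1 : ℕ) : ℂ) * s)) = Complex.log (1 + z) := by
    rw [← h2.tsum_eq]
    congr 1
    funext k
    rw [bc_pow a hp (by omega), hz, mul_pow]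
    have e : ((p : ℕ) : ℂ) ^ (-(((k + 1 : ℕ) : ℂ) * s)) = (((p : ℕ) : ℂ) ^ (-s)) ^ (k + 1) := by
      rw [← Complex.cpow_nat_mul]
      congr 1
      push_cast
      ring
    rw [e]
    ring
  rw [h3, Complex.exp_log]
  intro h
  have h4 : z = -1 := by linear_combination h
  rw [h4] at hz1
  simp at hz1

end Pool.Agent.H483.SA
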