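import Pool.Agent.H483.SA.Map
import Pool.Agent.H483.FE.Theta

set_option autoImplicit false

/-!
# The fixed point: an Euler product satisfying all relations
-/

namespace Pool.Agent.H483.SA

open Filter Topology Set Complex
open Pool.Agent.H483.FE
open scoped ComplexConjugate

/-- the multiplicative coefficients supported on squarefree numbers -/
noncomputable def cf (a : ℕ → ℂ) (n : ℕ) : ℂ :=
  open Classical in if Squarefree n then ∏ p ∈ n.primeFactors, a p else 0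

lemma cf_zero' (a : ℕ → ℂ) : cf a 0 = 0 := by
  unfold cf
  rw [if_neg (by simp)]

lemma cf_one (a : ℕ → ℂ) : cf a 1 = 1 := by
  unfold cf
  rw [if_pos squarefree_one]
  simp

lemma cf_sqfree {a : ℕ → ℂ} {n : ℕ} (hn : Squarefree n) : cf a n = ∏ p ∈ n.primeFactors, a p := by
  unfold cf; rw [if_pos hn]

lemma cf_not_sqfree {a : ℕ → ℂ} {n : ℕ} (hn : ¬ Squarefree n) : cf a n = 0 := by
  unfold cf; rw [if_neg hn]

lemma cf_split {a : ℕ → ℂ} (ha : ∀ p, ¬ p.Prime → a p = 0) (n : ℕ) :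
    cf a n = (if n = 1 then 1 else 0) + a n + cc a n := by
  by_cases hn : Squarefree n
  · rw [cf_sqfree hn]
    unfold cc
    rcases lt_trichotomy n.primeFactors.card 1 with h | h | h
    · have h0 : n.primeFactors = ∅ := Finset.card_eq_zero.1 (by omega)
      have h1 : n = 1 := by
        rw [← Nat.prod_primeFactors_of_squarefree hn, h0]; rfl
      subst h1
      simp [ha 1 Nat.not_prime_one]
    · obtain ⟨p, hp⟩ := Finset.card_eq_one.1 h
      have h1 : n = p := by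
        conv_lhs => rw [← Nat.prod_primeFactors_of_squarefree hn, hp]
        simp
      have hpp : p.Prime := Nat.prime_of_mem_primeFactors (n := n) (by rw [hp]; simp)
      rw [if_neg (by rw [h1]; exact hpp.one_lt.ne'), if_neg (by omega), hp, Finset.prod_singleton, h1]
      ring
    · have h1 : n ≠ 1 := by rintro rfl; simp at h
      have h2 : ¬ n.Prime := by
        intro hp
        rw [hp.primeFactors] at h
        simp at h
      rw [if_neg h1, ha n h2, if_pos ⟨hn, h⟩]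
      ring
  · rw [cf_not_sqfree hn]
    unfold cc
    have h1 : n ≠ 1 := by rintro rfl; exact hn squarefree_one
    have h2 : ¬ n.Prime := fun hp => hn hp.squarefree
    rw [if_neg h1, ha n h2, if_neg (fun h => hn h.1)]
    ring

section

variable {α y0 Q : ℝ}

lemma log_le_MM (hQ : 1 ≤ Q) (q : ℕ) : Real.log q ≤ (1 + Real.log Q) * MM Q q := by
  have hL : 0 ≤ Real.log Q := Real.log_nonneg hQ
  set u := Real.log q - Real.log Q with hu
  unfold MM
  have : Real.log q = u + Real.log Q := by rw [hu]; ring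
  rw [this]
  nlinarith [sq_nonneg (u - 1), mul_nonneg hL (sq_nonneg u)]

lemma logsq_le_MM (q : ℕ) : Real.log q ^ 2 ≤ 2 * (1 + Real.log Q ^ 2) * MM Q q := by
  set u := Real.log q - Real.log Q with hu
  unfold MM
  have : Real.log q = u + Real.log Q := by rw [hu]; ring
  rw [this]
  have := two_mul_aux (a := Real.log Q) (b := u)
  nlinarith

lemma ww_div_MM (hα : 0 < α) (hQ : 1 ≤ Q) (q : ℕ) : ww α y0 Q q / MM Q q * (q : ℝ) ^ (-(2 * α)) ≤ 1 + Real.log Q := by
  have hQ0 : 0 < Q := by linarith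
  have hL : 0 ≤ Real.log Q := Real.log_nonneg hQ
  unfold ww
  split_ifs with hb
  · have hq0 : (0:ℝ) < q := by exact_mod_cast hb.1.pos
    have hM := MM_pos Q q
    have h1 := log_le_MM hQ q
    have h2 : ((q : ℝ) / Q) ^ (2 * α) * (q : ℝ) ^ (-(2 * α)) = (Q ^ (2 * α))⁻¹ := by
      rw [Real.div_rpow hq0.le hQ0.le, Real.rpow_neg hq0.le]
      have := (Real.rpow_pos_of_pos hq0 (2 * α)).ne'
      field_simp
    have h3 : 1 ≤ Q ^ (2 * α) := Real.one_le_rpow hQ (by positivity)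
    calc _ = Real.log q / MM Q q * (Q⁻¹ * (((q : ℝ) / Q) ^ (2 * α) * (q : ℝ) ^ (-(2 * α)))) := by
          field_simp
      _ ≤ Real.log q / MM Q q * (1 * 1) := by
          have h5 := Real.log_natCast_nonneg q
          rw [h2]
          gcongr
          · exact inv_le_one_of_one_le₀ hQ
          · exact inv_le_one_of_one_le₀ h3
      _ = Real.log q / MM Q q := by ring
      _ ≤ _ := by rw [div_le_iff₀ hM]; exact h1
  · simp
    positivity

/-- square summability of the coefficients -/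
lemma cf_summable (hα : 0 < α) (hQ : 1 ≤ Q) (b : L2) :
    Summable fun n : ℕ => ‖cf (ac α y0 Q b) n‖ ^ 2 * (n : ℝ) ^ (-(2 * α)) := by
  classical
  have hQ0 : 0 < Q := by linarith
  have hL : 0 ≤ Real.log Q := Real.log_nonneg hQ
  set a := ac α y0 Q b with ha
  set x : ℕ → ℝ := fun q => ‖a q‖ ^ 2 * (q : ℝ) ^ (-(2 * α)) with hx
  have hx0 : ∀ q, 0 ≤ x q := fun q => by positivity
  have hX : ∀ S : Finset ℕ, ∑ p ∈ S, x p ≤ (1 + Real.log Q) * ‖b‖ ^ 2 := by
    intro S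
    calc ∑ p ∈ S, x p ≤ ∑ p ∈ S, (1 + Real.log Q) * ‖b p‖ ^ 2 := by
          apply Finset.sum_le_sum
          intro p _
          simp only [hx, ha]
          rw [ac_sq hQ0]
          have := ww_div_MM (y0 := y0) hα hQ p
          calc _ = (ww α y0 Q p / MM Q p * (p : ℝ) ^ (-(2 * α))) * ‖b p‖ ^ 2 := by ring
            _ ≤ _ := by gcongr
      _ = (1 + Real.log Q) * ∑ p ∈ S, ‖b p‖ ^ 2 := by rw [Finset.mul_sum]
      _ ≤ _ := by
          gcongr
          exact L2_sum b S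
  refine summable_of_sum_le (c := Real.exp ((1 + Real.log Q) * ‖b‖ ^ 2)) (fun n => by positivity) (fun F => ?_)
  calc ∑ n ∈ F, ‖cf a n‖ ^ 2 * (n : ℝ) ^ (-(2 * α)) =
      ∑ n ∈ F.filter Squarefree, ∏ q ∈ n.primeFactors, x q := by
        rw [Finset.sum_filter]
        apply Finset.sum_congr rfl
        intro n _
        split_ifs with hn
        · rw [cf_sqfree hn, norm_prod, ← Finset.prod_pow]
          have h2 : (n : ℝ) ^ (-(2 * α)) = ∏ q ∈ n.primeFactors, ((q : ℝ) ^ (-(2 * α))) := by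
            conv_lhs => rw [← Nat.prod_primeFactors_of_squarefree hn]
            push_cast
            rw [Real.finsetProd_rpow]
            intro q _
            positivity
          rw [h2, ← Finset.prod_mul_distrib]
        · rw [cf_not_sqfree hn]; simp
    _ ≤ _ := sum_prod_sqfree (fun n hn => (Finset.mem_filter.1 hn).2) hx0 hX

lemma cf_h_summable (hα : 0 < α) (hα2 : α < 1 / 2) (hQ : 1 ≤ Q) (b : L2) {h : ℝ → ℂ} (hD : Dec h) :
    Summable fun n : ℕ => ‖cf (ac α y0 Q b) n‖ * ‖h (zz Q n)‖ := by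
  have hQ0 : 0 < Q := by linarith
  have h1 := abs_sum (cf_summable (y0 := y0) hα hQ b) hα (σ := 2) (by linarith)
  obtain ⟨C, hC0, hC⟩ := dec_zz hD (σ := 2) (by norm_num) hQ0
  refine Summable.of_nonneg_of_le (fun n => by positivity) (fun n => ?_) (h1.mul_left C)
  rcases Nat.eq_zero_or_pos n with rfl | hn
  · rw [cf_zero']; simp
  · calc _ ≤ ‖cf (ac α y0 Q b) n‖ * (C * (n : ℝ) ^ (-(2:ℝ))) := by gcongr; exact hC n hn
      _ = _ := by ring

lemma ac_not_prime {b : ℕ → ℂ} (p : ℕ) (hp : ¬ p.Prime) : ac α y0 Q b p = 0 :=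
  ac_zero (fun h => hp h.1)

lemma cc_le_cf (a : ℕ → ℂ) (n : ℕ) : ‖cc a n‖ ≤ ‖cf a n‖ := by
  unfold cc
  split_ifs with h
  · rw [cf_sqfree h.1]
  · simp

lemma cc_h_summable (hα : 0 < α) (hα2 : α < 1 / 2) (hQ : 1 ≤ Q) (b : L2) {h : ℝ → ℂ} (hD : Dec h) :
    Summable fun n : ℕ => cc (ac α y0 Q b) n * h (zz Q n) := by
  refine Summable.of_norm_bounded (cf_h_summable (y0 := y0) hα hα2 hQ b hD) (fun n => ?_)
  rw [norm_mul]
  gcongr
  exact cc_le_cf _ _

/-- the composite part -/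
noncomputable def LL (α y0 Q : ℝ) (b : ℕ → ℂ) (h : ℝ → ℂ) : ℂ := ∑' n : ℕ, cc (ac α y0 Q b) n * h (zz Q n)

lemma ac_zero_seq (α y0 Q : ℝ) (n : ℕ) : cc (ac α y0 Q ((0 : L2) : ℕ → ℂ)) n = 0 := by
  unfold cc
  split_ifs with h
  · obtain ⟨q, hq⟩ : n.primeFactors.Nonempty := Finset.card_pos.1 (by omega)
    refine Finset.prod_eq_zero hq ?_
    unfold ac
    simp
  · rfl

lemma LL_diff {γ : ℂ → ℂ} {K : ℝ} (hα : 0 < α) (hα2 : α < 1 / 2) (hQ : 1 ≤ Q) (D : Dt γ α y0 K Q) (hK : 0 < K)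
    {R : ℝ} (hR : 0 < R)
    (h1 : 32 * (2 * R ^ 2 * Q ^ (-(1 + 2 * α))) * (1 + Real.log Q) ≤ 1)
    (h2 : 1920 * (2 * R ^ 2 * Q ^ (-(1 + 2 * α))) ≤ 1)
    (h3 : 3 * (K * ((2 * R ^ 2 * Q ^ (-(1 + 2 * α))) * (1 + Real.log Q ^ 2) ^ 2)) ≤ 1 / 4)
    {b b' : L2} (hb : ‖b‖ ≤ R) (hb' : ‖b'‖ ≤ R) {h : ℝ → ℂ} (hg : Good γ h) :
    ‖LL α y0 Q b h - LL α y0 Q b' h‖ ≤ 1 / 2 * ‖b - b'‖ * Real.sqrt (SS α y0 Q h) := by
  have hQ0 : 0 < Q := by linarith
  have hD := good_dec hg
  have s1 := cc_h_summable (y0 := y0) hα hα2 hQ b hD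
  have s2 := cc_h_summable (y0 := y0) hα hα2 hQ b' hD
  unfold LL
  rw [← s1.tsum_sub s2]
  have hbd := fun F : Finset ℕ => diff_bound hQ0 D hK hR h1 h2 h3 hb hb' hg F
  have e : ∀ n, ‖cc (ac α y0 Q b) n * h (zz Q n) - cc (ac α y0 Q b') n * h (zz Q n)‖ =
      ‖cc (ac α y0 Q b) n - cc (ac α y0 Q b') n‖ * ‖h (zz Q n)‖ := by
    intro n
    rw [← sub_mul, norm_mul]
  have hsn : Summable fun n => ‖cc (ac α y0 Q b) n * h (zz Q n) - cc (ac α y0 Q b') n * h (zz Q n)‖ := by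
    refine summable_of_sum_le (fun n => norm_nonneg _) (fun F => ?_) (c := 1 / 2 * ‖b - b'‖ * Real.sqrt (SS α y0 Q h))
    simp_rw [e]
    exact hbd F
  refine (norm_tsum_le_tsum_norm hsn).trans ?_
  refine hsn.tsum_le_of_sum_le (fun F => ?_)
  simp_rw [e]
  exact hbd F

end

end Pool.Agent.H483.SA
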