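import Pool.Agent.H483.SA.Win

set_option autoImplicit false

/-!
# The lower sampling inequality
-/

namespace Pool.Agent.H483.SA

open MeasureTheory Set Filter Topology Complex
open Pool.Agent.H483.FE

lemma Iic_split {α δ y0 : ℝ} (hδ : 0 < δ) {ρ : ℝ} (hρ : 0 < ρ) {g : ℝ → ℂ} (hg : Continuous g) (hD : Dec g)
    (K : ℕ) : En ρ g (Iic (wy α δ y0 K)) = En ρ g (Iic y0) +
      ∑ k ∈ Finset.range K, En ρ g (Ioc (wy α δ y0 k) (wy α δ y0 (k + 1))) := by
  induction K with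
  | zero => simp [wy]
  | succ K ih =>
    rw [Finset.sum_range_succ, ← add_assoc, ← ih]
    unfold En
    rw [← setIntegral_union (Set.Iic_disjoint_Ioc le_rfl) measurableSet_Ioc
      (hD.int_sq hg hρ).integrableOn (hD.int_sq hg hρ).integrableOn,
      Iic_union_Ioc_eq_Iic (wy_mono hδ (Nat.le_succ K))]

lemma En_le_total {ρ : ℝ} (hρ : 0 < ρ) {g : ℝ → ℂ} (hg : Continuous g) (hD : Dec g) (s : Set ℝ) :
    En ρ g s ≤ ∫ y, Real.exp (2 * ρ * y) * ‖g y‖ ^ 2 := by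
  have := En_mono hρ hg hD (subset_univ s)
  unfold En at this ⊢
  rwa [Measure.restrict_univ] at this

/-- averaging over the samples of a window -/
lemma avg_le {P : Finset ℕ} {w : ℕ → ℝ} (hw : ∀ n, 0 ≤ w n) {u : ℕ → ℝ} {A B D Ω : ℝ} (hΩ : 0 < Ω)
    (hB : 0 ≤ B) (hu : ∀ n, 0 ≤ u n)
    (hP : Ω ≤ ∑ p ∈ P, w p) (h : ∀ p ∈ P, A ≤ B * u p + D) : A ≤ B / Ω * (∑ p ∈ P, w p * u p) + D := by
  have h1 : (∑ p ∈ P, w p) * (A - D) ≤ B * ∑ p ∈ P, w p * u p := by
    rw [Finset.sum_mul, Finset.mul_sum]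
    apply Finset.sum_le_sum
    intro p hp
    have := mul_le_mul_of_nonneg_left (h p hp) (hw p)
    nlinarith
  have h2 : 0 ≤ B * ∑ p ∈ P, w p * u p :=
    mul_nonneg hB (Finset.sum_nonneg fun p _ => mul_nonneg (hw p) (hu p))
  have h3 : Ω * (A - D) ≤ B * ∑ p ∈ P, w p * u p := by
    rcases le_total 0 (A - D) with h0 | h0
    · exact (mul_le_mul_of_nonneg_right hP h0).trans h1
    · exact (mul_nonpos_of_nonneg_of_nonpos hΩ.le h0).trans h2
  have h4 : A - D ≤ (B * ∑ p ∈ P, w p * u p) / Ω := by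
    rw [le_div_iff₀ hΩ]; linarith
  have h5 : (B * ∑ p ∈ P, w p * u p) / Ω = B / Ω * (∑ p ∈ P, w p * u p) := by ring
  linarith

/-- The lower sampling inequality. -/
theorem lower {α E : ℝ} (hα : 0 < α) (hα2 : α < 1 / 2) (hE : 0 ≤ E) : ∃ δ y0 C : ℝ, 0 < δ ∧ δ ≤ 1 / 2 ∧ y0 ≤ 0 ∧ 0 < C ∧
    ∀ f f' : ℝ → ℂ, Cls α E f f' → ∀ (w z : ℕ → ℝ) (c : ℝ) (P : ℕ → Finset ℕ), 0 < c → (∀ n, 0 ≤ w n) →
    (∀ k, ∀ p ∈ P k, z p ∈ Icc (wy α δ y0 k) (wy α δ y0 (k + 1))) →
    (∀ k l, k ≠ l → Disjoint (P k) (P l)) →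
    (∀ k, c * ((wy α δ y0 (k + 1) - wy α δ y0 k) * Real.exp (2 * (1 / 2 + α) * wy α δ y0 k)) ≤
      ∑ p ∈ P k, w p) →
    (Summable fun n => w n * ‖f (z n)‖ ^ 2) →
    (∫ y, Real.exp (2 * (1 / 2 + α) * y) * ‖f y‖ ^ 2) ≤ C / c * ∑' n, w n * ‖f (z n)‖ ^ 2 := by
  set σ : ℝ := 1 / 2 + α with hσd
  set τ : ℝ := 1 / 2 - α with hτd
  have hσ : 0 < σ := by rw [hσd]; linarith
  have hτ : 0 < τ := by rw [hτd]; linarith
  have hστ : σ - τ = 2 * α := by rw [hσd, hτd]; ring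
  have hσ1 : σ ≤ 1 := by rw [hσd]; linarith
  -- parameters
  set e2 : ℝ := Real.exp 2 with he2
  have he20 : 0 < e2 := Real.exp_pos _
  have he21 : 1 ≤ e2 := Real.one_le_exp (by norm_num)
  set δ : ℝ := 1 / (8 * e2 * (E + 1)) with hδd
  have hδ : 0 < δ := by positivity
  have hden : 1 ≤ e2 * (E + 1) := by nlinarith
  have hδ8 : δ ≤ 1 / 8 := by
    rw [hδd]
    apply one_div_le_one_div_of_le (by norm_num)
    nlinarith
  have hδE : 2 * δ ^ 2 * e2 * E ≤ 1 / 4 := by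
    have h1 : δ * (8 * e2 * (E + 1)) = 1 := by rw [hδd]; field_simp
    have h2 : δ * (e2 * E) ≤ 1 / 8 := by nlinarith [mul_pos hδ he20]
    have h3 : 0 ≤ δ * (e2 * E) := by positivity
    nlinarith
  obtain ⟨y0, hy0, hy0'⟩ : ∃ y0 : ℝ, y0 ≤ 0 ∧ (2 * δ / σ + 1 / (2 * τ * (2 * α))) * Real.exp (4 * α * y0) * E ≤ 1 / 4 := by
    have h1 : Tendsto (fun y : ℝ => (2 * δ / σ + 1 / (2 * τ * (2 * α))) * Real.exp (4 * α * y) * E) atBot (𝓝 0) := by
      have h2 : Tendsto (fun y : ℝ => Real.exp (4 * α * y)) atBot (𝓝 0) :=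
        Real.tendsto_exp_atBot.comp (tendsto_id.const_mul_atBot (by positivity))
      have := (h2.const_mul (2 * δ / σ + 1 / (2 * τ * (2 * α)))).mul_const E
      simpa using this
    have h3 := (h1.eventually_le_const (show (0:ℝ) < 1 / 4 by norm_num)).and (eventually_le_atBot (0:ℝ))
    obtain ⟨y, h4, h5⟩ := h3.exists
    exact ⟨y, h5, h4⟩
  refine ⟨δ, y0, 2 * (2 / (σ * δ) + 2 * e2), hδ, by linarith, hy0, by positivity, ?_⟩
  intro f f' hf w z c P hc hw hz hdisj hP hsum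
  have hcf := hf.cont
  set A := ∫ y, Real.exp (2 * σ * y) * ‖f y‖ ^ 2 with hA
  set D := ∫ y, Real.exp (2 * τ * y) * ‖f' y‖ ^ 2 with hD
  have hA0 : 0 ≤ A := integral_nonneg fun y => by positivity
  have hD0 : 0 ≤ D := integral_nonneg fun y => by positivity
  have hDA : D ≤ E * A := hf.en
  set S := ∑' n, w n * ‖f (z n)‖ ^ 2 with hS
  have hS0 : 0 ≤ S := tsum_nonneg fun n => mul_nonneg (hw n) (by positivity)
  have hlen : ∀ k, 0 < wy α δ y0 (k + 1) - wy α δ y0 k := fun k => wy_pos hδ k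
  have hlen1 : ∀ k, wy α δ y0 (k + 1) - wy α δ y0 k ≤ 1 := fun k => (wy_le hδ k).trans (by linarith)
  -- one window
  have hwin : ∀ k, En σ f (Ioc (wy α δ y0 k) (wy α δ y0 (k + 1))) ≤
      2 * e2 / c * (∑ p ∈ P k, w p * ‖f (z p)‖ ^ 2) +
      2 * δ ^ 2 * e2 * En τ f' (Ioc (wy α δ y0 k) (wy α δ y0 (k + 1))) := by
    intro k
    set a := wy α δ y0 k with ha
    set b := wy α δ y0 (k + 1) with hb
    have hab : 0 < b - a := hlen k
    have hab1 : b - a ≤ 1 := hlen1 k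
    have hexp : Real.exp (2 * σ * b) ≤ e2 * Real.exp (2 * σ * a) := by
      rw [he2, ← Real.exp_add]
      apply Real.exp_le_exp.2
      nlinarith
    have h1 := avg_le (A := En σ f (Ioc a b)) (B := 2 * (b - a) * Real.exp (2 * σ * b))
      (D := 2 * (b - a) ^ 2 * Real.exp (2 * σ * b - 2 * τ * a) * En τ f' (Ioc a b))
      (Ω := c * ((b - a) * Real.exp (2 * σ * a))) hw (by positivity) (by positivity)
      (u := fun n => ‖f (z n)‖ ^ 2) (fun n => by positivity) (hP k)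
      (fun p hp => loc_lower hf.hd hf.cont' hσ hτ (hz k p hp))
    have hSk : 0 ≤ ∑ p ∈ P k, w p * ‖f (z p)‖ ^ 2 :=
      Finset.sum_nonneg fun p _ => mul_nonneg (hw p) (by positivity)
    refine h1.trans (add_le_add ?_ ?_)
    · apply mul_le_mul_of_nonneg_right _ hSk
      rw [div_le_div_iff₀ (by positivity) hc]
      calc 2 * (b - a) * Real.exp (2 * σ * b) * c ≤ 2 * (b - a) * (e2 * Real.exp (2 * σ * a)) * c := by gcongr
        _ = _ := by ring
    · apply mul_le_mul_of_nonneg_right _ (En_nonneg _ _)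
      have h2 := wy_sq (α := α) (δ := δ) (y0 := y0) k
      have h3 : Real.exp (2 * σ * b - 2 * τ * a) ≤ e2 * Real.exp (4 * α * a) := by
        have : Real.exp (2 * σ * b - 2 * τ * a) = Real.exp (2 * σ * b) * Real.exp (-(2 * τ * a)) := by
          rw [← Real.exp_add]; congr 1
        rw [this]
        calc _ ≤ e2 * Real.exp (2 * σ * a) * Real.exp (-(2 * τ * a)) := by gcongr
          _ = e2 * Real.exp (4 * α * a) := by
              rw [mul_assoc, ← Real.exp_add]; congr 2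
              have : 4 * α = 2 * (σ - τ) := by rw [hστ]; ring
              rw [this]; ring
      calc _ ≤ 2 * (b - a) ^ 2 * (e2 * Real.exp (4 * α * a)) := by gcongr
        _ = 2 * e2 * ((b - a) ^ 2 * Real.exp (4 * α * a)) := by ring
        _ ≤ 2 * e2 * δ ^ 2 := by gcongr
        _ = _ := by ring
  -- the first window
  have hfirst : En σ f (Iic y0) ≤ 2 / (σ * δ) / c * (∑ p ∈ P 0, w p * ‖f (z p)‖ ^ 2) +
      (2 * δ / σ + 1 / (2 * τ * (2 * α))) * Real.exp (4 * α * y0) * D := by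
    have h0 := FE.first hf.hd hf.cont' hf.dec hf.dec' hτ (by linarith : τ < σ) y0
    have hl0 : wy α δ y0 (0 + 1) - wy α δ y0 0 = δ := by
      rw [wy_step]
      have : 1 ≤ Real.exp (-(2 * α * wy α δ y0 0)) := by
        apply Real.one_le_exp
        simp only [wy]
        nlinarith
      rw [min_eq_left this, mul_one]
    have hb0 : wy α δ y0 (0 + 1) = y0 + δ := by
      have := hl0
      simp only [wy] at this ⊢
      linarith
    have hP0 := hP 0
    rw [hl0] at hP0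
    have hz0 := hz 0
    rw [hb0] at hz0
    simp only [wy] at hP0 hz0
    have hval : ‖f y0‖ ^ 2 ≤ 2 / (c * (δ * Real.exp (2 * σ * y0))) * (∑ p ∈ P 0, w p * ‖f (z p)‖ ^ 2) +
        2 * (δ * Real.exp (-(2 * τ * y0)) * D) := by
      apply avg_le (Ω := c * (δ * Real.exp (2 * σ * y0))) hw (by positivity) (by norm_num)
        (u := fun n => ‖f (z n)‖ ^ 2) (fun n => by positivity) hP0
      intro p hp
      have h1 := two_pts hf.hd hf.cont' hτ (hz0 p hp) (left_mem_Icc.2 (by linarith : y0 ≤ y0 + δ))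
      have h2 := sq_le_two (f y0) (f (z p))
      have h3 : En τ f' (Ioc y0 (y0 + δ)) ≤ D := En_le_total hτ hf.cont' hf.dec' _
      have h4 : (y0 + δ - y0) * Real.exp (-(2 * τ * y0)) * En τ f' (Ioc y0 (y0 + δ)) ≤
          δ * Real.exp (-(2 * τ * y0)) * D := by
        rw [add_sub_cancel_left]
        exact mul_le_mul_of_nonneg_left h3 (by positivity)
      linarith
    have hDle : En τ f' (Iic y0) ≤ D := En_le_total hτ hf.cont' hf.dec' _
    have e3 : Real.exp (2 * (σ - τ) * y0) = Real.exp (4 * α * y0) := by rw [hστ]; congr 1; ring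
    rw [e3, hστ] at h0
    refine h0.trans ?_
    have e4 : Real.exp (2 * σ * y0) * Real.exp (-(2 * τ * y0)) = Real.exp (4 * α * y0) := by
      rw [← Real.exp_add]; congr 1
      have : 4 * α = 2 * (σ - τ) := by rw [hστ]; ring
      rw [this]; ring
    have e5 : Real.exp (2 * σ * y0) / σ * (2 / (c * (δ * Real.exp (2 * σ * y0))) *
        (∑ p ∈ P 0, w p * ‖f (z p)‖ ^ 2) + 2 * (δ * Real.exp (-(2 * τ * y0)) * D)) =
        2 / (σ * δ) / c * (∑ p ∈ P 0, w p * ‖f (z p)‖ ^ 2) +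
          2 * δ / σ * (Real.exp (2 * σ * y0) * Real.exp (-(2 * τ * y0))) * D := by
      field_simp
    calc _ ≤ Real.exp (2 * σ * y0) / σ * (2 / (c * (δ * Real.exp (2 * σ * y0))) *
        (∑ p ∈ P 0, w p * ‖f (z p)‖ ^ 2) + 2 * (δ * Real.exp (-(2 * τ * y0)) * D)) +
        Real.exp (4 * α * y0) / (2 * τ * (2 * α)) * D := by gcongr
      _ = _ := by rw [e5, e4]; ring
  -- sum
  have hPsum : ∀ K, ∑ k ∈ Finset.range K, ∑ p ∈ P k, w p * ‖f (z p)‖ ^ 2 ≤ S := by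
    intro K
    rw [← Finset.sum_biUnion (fun k _ l _ hkl => hdisj k l hkl)]
    exact hsum.sum_le_tsum _ (fun n _ => mul_nonneg (hw n) (by positivity))
  have bd : ∀ K, En σ f (Iic (wy α δ y0 K)) ≤ (2 / (σ * δ) + 2 * e2) / c * S +
      ((2 * δ / σ + 1 / (2 * τ * (2 * α))) * Real.exp (4 * α * y0) + 2 * δ ^ 2 * e2) * D := by
    intro K
    rw [Iic_split hδ hσ hcf hf.dec K]
    have h1 : ∑ k ∈ Finset.range K, En σ f (Ioc (wy α δ y0 k) (wy α δ y0 (k + 1))) ≤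
        2 * e2 / c * S + 2 * δ ^ 2 * e2 * D := by
      refine (Finset.sum_le_sum fun k _ => hwin k).trans ?_
      rw [Finset.sum_add_distrib, ← Finset.mul_sum, ← Finset.mul_sum]
      have h2 := Iic_split (α := α) (y0 := y0) hδ hτ hf.cont' hf.dec' K
      have h3 : En τ f' (Iic (wy α δ y0 K)) ≤ D := En_le_total hτ hf.cont' hf.dec' _
      have h4 : 0 ≤ En τ f' (Iic y0) := En_nonneg _ _
      have h5 : ∑ k ∈ Finset.range K, En τ f' (Ioc (wy α δ y0 k) (wy α δ y0 (k + 1))) ≤ D := by linarith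
      have h6 := hPsum K
      gcongr
    have h2 : ∑ p ∈ P 0, w p * ‖f (z p)‖ ^ 2 ≤ S := by
      have := hPsum 1
      simpa using this
    have h3 : 2 / (σ * δ) / c * (∑ p ∈ P 0, w p * ‖f (z p)‖ ^ 2) ≤ 2 / (σ * δ) / c * S := by gcongr
    calc _ ≤ _ := add_le_add hfirst h1
      _ ≤ (2 / (σ * δ) / c * S + (2 * δ / σ + 1 / (2 * τ * (2 * α))) * Real.exp (4 * α * y0) * D) +
        (2 * e2 / c * S + 2 * δ ^ 2 * e2 * D) := by gcongr
      _ = _ := by ring
  have lim : Tendsto (fun K => En σ f (Iic (wy α δ y0 K))) atTop (𝓝 A) := by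
    have hcov : AECover volume atTop (fun K => Iic (wy α δ y0 K)) := aecover_Iic (wy_lim hδ)
    exact hcov.integral_tendsto_of_countably_generated (hf.dec.int_sq hcf hσ)
  have hAle := le_of_tendsto' lim bd
  have hκ : ((2 * δ / σ + 1 / (2 * τ * (2 * α))) * Real.exp (4 * α * y0) + 2 * δ ^ 2 * e2) * D ≤ 1 / 2 * A := by
    have h1 : 0 ≤ (2 * δ / σ + 1 / (2 * τ * (2 * α))) * Real.exp (4 * α * y0) + 2 * δ ^ 2 * e2 := by positivity
    calc _ ≤ ((2 * δ / σ + 1 / (2 * τ * (2 * α))) * Real.exp (4 * α * y0) + 2 * δ ^ 2 * e2) * (E * A) := by gcongr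
      _ = ((2 * δ / σ + 1 / (2 * τ * (2 * α))) * Real.exp (4 * α * y0) * E + 2 * δ ^ 2 * e2 * E) * A := by ring
      _ ≤ (1 / 4 + 1 / 4) * A := by gcongr
      _ = _ := by ring
  have : 2 * (2 / (σ * δ) + 2 * e2) / c * S = 2 * ((2 / (σ * δ) + 2 * e2) / c * S) := by ring
  rw [this]
  linarith

end Pool.Agent.H483.SA
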