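import Pool.Agent.H483.SA.Elem
import Pool.Agent.H483.SA.Eul

set_option autoImplicit false

/-!
# Every gamma factor of degree at least `26/5`
-/

namespace Pool.Agent.H483.SA

open Set Filter Topology Complex
open Pool.Agent.H483.FE Pool.Agent.H902R3.PZ
open scoped ComplexConjugate

variable {r : ℕ}

lemma gm_mul (c : ℂ) (lam : Fin r → ℝ) (mu : Fin r → ℂ) (s : ℂ) : gm c lam mu s = c * gm 1 lam mu s := by
  unfold gm; ring

/-- the ratio of the kernels with a unimodular constant -/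
lemma gm_Rho {lam : Fin r → ℝ} {mu : Fin r → ℂ} {α C : ℝ} (h : Rho (gm 1 lam mu) α C) {c : ℂ} (hc : ‖c‖ = 1) :
    Rho (gm c lam mu) α C := by
  obtain ⟨ρ, ρ', h1, h2, h3, h4, h5⟩ := h
  have hc0 : c ≠ 0 := by rintro rfl; simp at hc
  have hc0' : conj c ≠ 0 := by simpa using hc0
  have hn : ‖c / conj c‖ = 1 := by rw [norm_div, Complex.norm_conj, hc]; norm_num
  refine ⟨fun t => (c / conj c) * ρ t, fun t => (c / conj c) * ρ' t, fun t => (h1 t).const_mul _, by fun_prop,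
    fun t => ?_, fun t => ?_, fun t => ?_⟩
  · rw [norm_mul, hn, one_mul]; exact h3 t
  · rw [norm_mul, hn, one_mul]; exact h4 t
  · rw [gm_mul c, gm_mul c, h5 t, map_mul]
    field_simp

/-- unimodular constants -/
lemma exists_root {ω : ℂ} (hω : ‖ω‖ = 1) : ∃ c : ℂ, ‖c‖ = 1 ∧ conj c / c = ω := by
  refine ⟨cexp (((-(ω.arg / 2) : ℝ) : ℂ) * I), Complex.norm_exp_ofReal_mul_I _, ?_⟩
  rw [← Complex.exp_conj, ← Complex.exp_sub]
  simp only [map_mul, Complex.conj_ofReal, Complex.conj_I]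
  have h1 := Complex.norm_mul_exp_arg_mul_I ω
  rw [hω, Complex.ofReal_one, one_mul] at h1
  rw [← h1]
  congr 1
  rw [h1]
  push_cast
  ring

/-- **The family.** -/
theorem family {lam : Fin r → ℝ} {mu : Fin r → ℂ} (hl : ∀ j, 0 < lam j) (hm : ∀ j, 0 ≤ (mu j).re) {α : ℝ}
    (hα : α ≤ 77 / 400) (h1 : 1 < (2 * ∑ j, lam j) * α) :
    ∃ Q₀ : ℝ, 1 ≤ Q₀ ∧ ∀ Q : ℝ, Q₀ ≤ Q → ∀ ω : ℂ, ‖ω‖ = 1 → ∃ (a : ℕ → ℂ) (G : ℂ → ℂ),
      (∀ p, ¬ p.Prime → a p = 0) ∧ (∀ p, ‖a p‖ ≤ 1) ∧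
      (Summable fun n : ℕ => ‖cf a n‖ ^ 2 * (n : ℝ) ^ (-(2 * α))) ∧
      Differentiable ℂ G ∧ Gr G ∧
      (∀ s : ℂ, 1 / 2 + α < s.re → LSeriesSummable (cf a) s ∧ G s = LSeries (cf a) s) ∧
      ∀ s : ℂ, (∀ j, ∀ n : ℕ, (lam j : ℂ) * s + mu j ≠ -(n : ℂ)) →
        (∀ j, ∀ n : ℕ, (lam j : ℂ) * (1 - conj s) + mu j ≠ -(n : ℂ)) →
        G s * (Q : ℂ) ^ s * ∏ j, Complex.Gamma ((lam j : ℂ) * s + mu j) =
          ω * conj (G (1 - conj s) * (Q : ℂ) ^ (1 - conj s) *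
            ∏ j, Complex.Gamma ((lam j : ℂ) * (1 - conj s) + mu j)) := by
  have hS : 0 ≤ ∑ j, lam j := Finset.sum_nonneg fun j _ => (hl j).le
  have hα0 : 0 < α := by
    by_contra hcon
    push Not at hcon
    nlinarith
  have hα2 : α < 1 / 2 := by linarith
  have hA : ∀ c : ℂ, c ≠ 0 → Adm2 (gm c lam mu) α := fun c hc => gm_Adm2 hc hl hm hα0 hα2 (by linarith)
  obtain ⟨C, hC, hR⟩ := (hA 1 one_ne_zero).rho'
  obtain ⟨y0, K, Q₁, -, hK, hQ₁, hdat⟩ := data (α := α) (E := 50 * (4 * C ^ 2)) (θ := 0.615) hα0 (by positivity)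
    (by norm_num) (by norm_num) (by norm_num; linarith) pi_main
  obtain ⟨Q₂, hQ₂, hrel⟩ := relations (α := α) (y0 := y0) (K := K) hα0 (by linarith) hK
  refine ⟨max Q₁ Q₂, hQ₁.trans (le_max_left _ _), fun Q hQ ω hω => ?_⟩
  have hQ1 : 1 ≤ Q := (hQ₁.trans (le_max_left _ _)).trans hQ
  have hQ0 : 0 < Q := by linarith
  obtain ⟨c, hc, hcω⟩ := exists_root hω
  have hc0 : c ≠ 0 := by rintro rfl; simp at hc
  have hAc := (hA c hc0).toAdm
  have hD : Dt (gm c lam mu) α y0 K Q := hdat Q ((le_max_left _ _).trans hQ) _ (by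
    intro h hg
    obtain ⟨f', g1, g2, g3, g4, g5⟩ := dv_energy hAc hC (gm_Rho hR hc) h hg
    exact ⟨f', ⟨g1, g2, g3, g4, g5⟩⟩)
  obtain ⟨a, ha1, ha2, -, ha4, ha5⟩ := hrel Q ((le_max_right _ _).trans hQ) _ hAc hD
  obtain ⟨G, hG1, hG2, hG3, hG4⟩ := series_of hc0 hQ0 hl hm hAc (cf_zero' a) ha4 ha5
  rw [hcω] at hG4
  exact ⟨a, G, ha1, ha2, ha4, hG1, hG2, hG3, hG4⟩

/-- the Euler product has no zero in its half plane of absolute convergence -/
theorem euler_ne {a : ℕ → ℂ} (ha : ∀ p, ‖a p‖ ≤ 1) {s : ℂ} (hs0 : 0 < s.re) (hs : LSeriesSummable (cf a) s) :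
    LSeries (cf a) s ≠ 0 := by
  have h1 := euler_basic hs
  have h2 : Summable fun p : Nat.Primes => a p * ((p : ℕ) : ℂ) ^ (-s) := by
    have h3 : Summable fun p : Nat.Primes => LSeries.term (cf a) s p :=
      hs.comp_injective (Nat.Primes.coe_nat_injective)
    refine h3.congr fun p => ?_
    rw [LSeries.term_of_ne_zero p.2.ne_zero, cf_prime a p.2, Complex.cpow_neg, div_eq_mul_inv]
  have h4 := Complex.summable_log_one_add_of_summable h2
  have hne : ∀ p : Nat.Primes, 1 + a p * ((p : ℕ) : ℂ) ^ (-s) ≠ 0 := by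
    intro p h
    have hp := p.2
    have h5 : ‖a p * ((p : ℕ) : ℂ) ^ (-s)‖ < 1 := by
      rw [norm_mul, Complex.norm_natCast_cpow_of_pos hp.pos]
      have h6 : ((p : ℕ) : ℝ) ^ (-s).re < 1 := by
        apply Real.rpow_lt_one_of_one_lt_of_neg
        · exact_mod_cast hp.one_lt
        · simp; exact hs0
      have h7 := ha p
      have h8 : 0 ≤ ((p : ℕ) : ℝ) ^ (-s).re := by positivity
      calc _ ≤ 1 * ((p : ℕ) : ℝ) ^ (-s).re := by gcongr
        _ < 1 := by rw [one_mul]; exact h6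
    have h6 : a p * ((p : ℕ) : ℂ) ^ (-s) = -1 := by linear_combination h
    rw [h6] at h5
    simp at h5
  have h5 := Complex.hasProd_of_hasSum_log hne h4.hasSum
  rw [h1.unique h5]
  exact Complex.exp_ne_zero _

end Pool.Agent.H483.SA
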