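import Pool.Agent.H483.SA.Dat
import Pool.Agent.H483.SA.Abs
import Pool.Agent.H483.FE.Rel2

set_option autoImplicit false

/-!
# The nonlinear functional
-/

namespace Pool.Agent.H483.SA

open Filter Topology Set Complex
open Pool.Agent.H483.FE
open scoped ComplexConjugate

/-- the square summable sequences -/
noncomputable abbrev L2 := lp (fun _ : ℕ => ℂ) 2

lemma L2_sum (b : L2) (S : Finset ℕ) : ∑ n ∈ S, ‖b n‖ ^ 2 ≤ ‖b‖ ^ 2 := by
  have h := lp.sum_rpow_le_norm_rpow (p := 2) (by norm_num) b S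
  simpa using h

lemma L2_summable (b : L2) : Summable fun n => ‖b n‖ ^ 2 :=
  summable_of_sum_le (fun n => by positivity) (L2_sum b)

section

variable {γ : ℂ → ℂ} {α y0 K Q : ℝ}

lemma TS_mem (hQ : 0 < Q) (D : Dt γ α y0 K Q) {h : ℝ → ℂ} (hg : Good γ h) :
    Memℓp (fun n => ((Real.sqrt (ww α y0 Q n) : ℝ) : ℂ) * dv h (zz Q n)) 2 := by
  apply memℓp_gen
  have := D.summ h hg
  refine this.congr fun k => ?_
  rw [norm_mul, Complex.norm_real, Real.norm_eq_abs, abs_of_nonneg (Real.sqrt_nonneg _)]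
  simp only [ENNReal.toReal_ofNat, Real.rpow_ofNat]
  rw [mul_pow, Real.sq_sqrt (ww_nonneg hQ k)]

/-- the sampling map -/
noncomputable def TS (A : Adm γ α) (hQ : 0 < Q) (D : Dt γ α y0 K Q) : GS A →ₗ[ℝ] L2 where
  toFun h := ⟨fun n => ((Real.sqrt (ww α y0 Q n) : ℝ) : ℂ) * dv (h : ℝ → ℂ) (zz Q n), TS_mem hQ D h.2⟩
  map_add' h1 h2 := by
    ext k
    show ((Real.sqrt (ww α y0 Q k) : ℝ) : ℂ) * dv ((h1 : ℝ → ℂ) + (h2 : ℝ → ℂ)) (zz Q k) =
      ((Real.sqrt (ww α y0 Q k) : ℝ) : ℂ) * dv (h1 : ℝ → ℂ) (zz Q k) +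
      ((Real.sqrt (ww α y0 Q k) : ℝ) : ℂ) * dv (h2 : ℝ → ℂ) (zz Q k)
    simp only [dv, Pi.add_apply]
    ring
  map_smul' c h := by
    ext k
    show ((Real.sqrt (ww α y0 Q k) : ℝ) : ℂ) * dv (c • (h : ℝ → ℂ)) (zz Q k) =
      c • (((Real.sqrt (ww α y0 Q k) : ℝ) : ℂ) * dv (h : ℝ → ℂ) (zz Q k))
    simp only [dv, Pi.smul_apply, Complex.real_smul]
    ring

lemma TS_apply (A : Adm γ α) (hQ : 0 < Q) (D : Dt γ α y0 K Q) (h : GS A) (n : ℕ) :
    TS A hQ D h n = ((Real.sqrt (ww α y0 Q n) : ℝ) : ℂ) * dv (h : ℝ → ℂ) (zz Q n) := rfl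

lemma TS_norm (A : Adm γ α) (hQ : 0 < Q) (D : Dt γ α y0 K Q) (h : GS A) :
    ‖TS A hQ D h‖ ^ 2 = SS α y0 Q (h : ℝ → ℂ) := by
  rw [← real_inner_self_eq_norm_sq]
  have h1 := (lp.hasSum_inner (𝕜 := ℝ) (TS A hQ D h) (TS A hQ D h)).tsum_eq
  rw [← h1]
  unfold SS
  congr 1
  funext k
  rw [real_inner_self_eq_norm_sq, TS_apply, norm_mul, Complex.norm_real, Real.norm_eq_abs,
    abs_of_nonneg (Real.sqrt_nonneg _), mul_pow, Real.sq_sqrt (ww_nonneg hQ k)]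

/-- the coefficients at the primes -/
noncomputable def ac (α y0 Q : ℝ) (b : ℕ → ℂ) (p : ℕ) : ℂ :=
  ((Real.sqrt (ww α y0 Q p) : ℝ) : ℂ) * conj (b p) / ((zz Q p : ℂ) - I)

lemma norm_zI (Q : ℝ) (n : ℕ) : ‖((zz Q n : ℝ) : ℂ) - I‖ ^ 2 = MM Q n := by
  have e : ((zz Q n : ℝ) : ℂ) - I = ⟨zz Q n, -1⟩ := by
    apply Complex.ext <;> simp
  rw [← Complex.normSq_eq_norm_sq, e, Complex.normSq_mk]
  unfold MM zz
  ring

lemma ac_sub_sq (hQ : 0 < Q) (b b' : ℕ → ℂ) (p : ℕ) :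
    ‖ac α y0 Q b p - ac α y0 Q b' p‖ ^ 2 = ww α y0 Q p / MM Q p * ‖b p - b' p‖ ^ 2 := by
  have e : ac α y0 Q b p - ac α y0 Q b' p =
      ((Real.sqrt (ww α y0 Q p) : ℝ) : ℂ) * conj (b p - b' p) / ((zz Q p : ℂ) - I) := by
    unfold ac
    rw [map_sub]
    ring
  rw [e, norm_div, norm_mul, Complex.norm_conj, Complex.norm_real, Real.norm_eq_abs,
    abs_of_nonneg (Real.sqrt_nonneg _), div_pow, mul_pow, Real.sq_sqrt (ww_nonneg hQ p), norm_zI]
  ring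

lemma ac_sq (hQ : 0 < Q) (b : ℕ → ℂ) (p : ℕ) :
    ‖ac α y0 Q b p‖ ^ 2 = ww α y0 Q p / MM Q p * ‖b p‖ ^ 2 := by
  unfold ac
  rw [norm_div, norm_mul, Complex.norm_conj, Complex.norm_real, Real.norm_eq_abs,
    abs_of_nonneg (Real.sqrt_nonneg _), div_pow, mul_pow, Real.sq_sqrt (ww_nonneg hQ p), norm_zI]
  ring

lemma ac_zero {b : ℕ → ℂ} {p : ℕ} (hp : ¬ Big Q y0 p) : ac α y0 Q b p = 0 := by
  unfold ac ww
  rw [if_neg hp]
  simp

/-- the coefficient at the numbers with at least two prime factors -/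
noncomputable def cc (a : ℕ → ℂ) (n : ℕ) : ℂ :=
  open Classical in if Squarefree n ∧ 2 ≤ n.primeFactors.card then ∏ p ∈ n.primeFactors, a p else 0

lemma cc_zero {b : ℕ → ℂ} {n : ℕ} (hn : ¬ Cmp (Q * Real.exp y0) n) : cc (ac α y0 Q b) n = 0 := by
  unfold cc
  split_ifs with h
  · have h1 : ∃ q ∈ n.primeFactors, ¬ (Q * Real.exp y0 < q) := by
      by_contra hcon
      push Not at hcon
      exact hn ⟨h.1, h.2, hcon⟩
    obtain ⟨q, hq, hq'⟩ := h1
    exact Finset.prod_eq_zero hq (ac_zero (fun hb => hq' hb.2))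
  · rfl

lemma cc_cmp {a : ℕ → ℂ} {Y : ℝ} {n : ℕ} (hn : Cmp Y n) : cc a n = ∏ p ∈ n.primeFactors, a p := by
  unfold cc
  rw [if_pos ⟨hn.1, hn.2.1⟩]

/-- the weight identity -/
lemma weight_id (hQ : 0 < Q) {lam : ℝ} (hlam : 0 < lam) {n : ℕ} (hn : Cmp (Q * Real.exp y0) n) :
    2 ^ n.primeFactors.card * MM Q n * (∏ q ∈ n.primeFactors, (lam * (ww α y0 Q q / MM Q q))) / lam =
      (n : ℝ) ^ (2 * α) * Q ^ (-(1 + 2 * α)) * cn (lam * Q ^ (-(1 + 2 * α))) Q n := by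
  have h1 : ∏ q ∈ n.primeFactors, (lam * (ww α y0 Q q / MM Q q)) =
      (n : ℝ) ^ (2 * α) * ∏ q ∈ n.primeFactors, gt (lam * Q ^ (-(1 + 2 * α))) Q q := by
    have h2 : (n : ℝ) ^ (2 * α) = ∏ q ∈ n.primeFactors, ((q : ℝ) ^ (2 * α)) := by
      conv_lhs => rw [← Nat.prod_primeFactors_of_squarefree hn.1]
      push_cast
      rw [Real.finsetProd_rpow]
      intro q _
      positivity
    rw [h2, ← Finset.prod_mul_distrib]
    apply Finset.prod_congr rfl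
    intro q hq
    have hp := Nat.prime_of_mem_primeFactors hq
    have hb : Big Q y0 q := ⟨hp, hn.2.2 q hq⟩
    unfold ww gt
    rw [if_pos hb, Real.div_rpow (Nat.cast_nonneg _) hQ.le, neg_add, Real.rpow_add hQ, Real.rpow_neg_one,
      Real.rpow_neg hQ.le]
    have hq1 : (0:ℝ) < Q ^ (2 * α) := Real.rpow_pos_of_pos hQ _
    have hM := MM_pos Q q
    field_simp
  rw [h1]
  unfold cn
  have hq1 : (0:ℝ) < Q ^ (-(1 + 2 * α)) := Real.rpow_pos_of_pos hQ _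
  field_simp

/-- the main difference estimate -/
theorem diff_bound (hQ : 0 < Q) (D : Dt γ α y0 K Q) (hK : 0 < K) {R : ℝ} (hR : 0 < R)
    (h1 : 32 * (2 * R ^ 2 * Q ^ (-(1 + 2 * α))) * (1 + Real.log Q) ≤ 1)
    (h2 : 1920 * (2 * R ^ 2 * Q ^ (-(1 + 2 * α))) ≤ 1)
    (h3 : 3 * (K * ((2 * R ^ 2 * Q ^ (-(1 + 2 * α))) * (1 + Real.log Q ^ 2) ^ 2)) ≤ 1 / 4)
    {b b' : L2} (hb : ‖b‖ ≤ R) (hb' : ‖b'‖ ≤ R) {h : ℝ → ℂ} (hg : Good γ h) (F : Finset ℕ) :
    ∑ n ∈ F, ‖cc (ac α y0 Q b) n - cc (ac α y0 Q b') n‖ * ‖h (zz Q n)‖ ≤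
      1 / 2 * ‖b - b'‖ * Real.sqrt (SS α y0 Q h) := by
  classical
  set lam := 2 * R ^ 2 with hlam
  have hlam0 : 0 < lam := by positivity
  set η := lam * Q ^ (-(1 + 2 * α)) with hη
  have hη0 : 0 < η := by
    have := Real.rpow_pos_of_pos hQ (-(1 + 2 * α))
    positivity
  set a := ac α y0 Q b with ha
  set a' := ac α y0 Q b' with ha'
  set F' := F.filter (Cmp (Q * Real.exp y0)) with hF'
  have hF'm : ∀ n ∈ F', Cmp (Q * Real.exp y0) n := fun n hn => (Finset.mem_filter.1 hn).2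
  have hred : ∑ n ∈ F, ‖cc a n - cc a' n‖ * ‖h (zz Q n)‖ = ∑ n ∈ F', ‖cc a n - cc a' n‖ * ‖h (zz Q n)‖ := by
    rw [hF', Finset.sum_filter]
    apply Finset.sum_congr rfl
    intro n _
    split_ifs with hn
    · rfl
    · rw [ha, ha', cc_zero hn, cc_zero hn]; simp
  rw [hred]
  -- weights
  set x : ℕ → ℝ := fun q => (‖b q‖ ^ 2 + ‖b' q‖ ^ 2) / lam with hx
  set y : ℕ → ℝ := fun q => ‖b q - b' q‖ ^ 2 / lam with hy
  set u : ℕ → ℝ := fun q => lam * (ww α y0 Q q / MM Q q) with hu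
  have hx0 : ∀ q, 0 ≤ x q := fun q => by positivity
  have hy0' : ∀ q, 0 ≤ y q := fun q => by positivity
  have hu0 : ∀ q, 0 ≤ u q := fun q => by
    have h5 := ww_nonneg (α := α) (y0 := y0) hQ q
    have h6 := MM_pos Q q
    positivity
  have hX : ∀ S : Finset ℕ, ∑ p ∈ S, x p ≤ 1 := by
    intro S
    have e1 := L2_sum b S
    have e2 := L2_sum b' S
    have e3 : ‖b‖ ^ 2 ≤ R ^ 2 := by gcongr
    have e4 : ‖b'‖ ^ 2 ≤ R ^ 2 := by gcongr
    rw [hx, ← Finset.sum_div, Finset.sum_add_distrib, div_le_one hlam0]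
    linarith
  have hY : ∀ S : Finset ℕ, ∑ p ∈ S, y p ≤ ‖b - b'‖ ^ 2 / lam := by
    intro S
    have e1 := L2_sum (b - b') S
    rw [hy, ← Finset.sum_div]
    gcongr
    simpa using e1
  have hgsum := sum_gg_sqfree (F := F') (fun n hn => (hF'm n hn).1) hy0' hx0 hY hX
  have hup := D.up h hg F' hF'm η hη0 h1 h2
  -- the pointwise estimate
  have hpt : ∀ n ∈ F', ‖cc a n - cc a' n‖ * ‖h (zz Q n)‖ ≤ Real.sqrt (lam * gg y x n.primeFactors) *
      Real.sqrt (((n : ℝ) ^ (2 * α) * Q ^ (-(1 + 2 * α)) * cn η Q n) * ‖dv h (zz Q n)‖ ^ 2) := by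
    intro n hn
    have hn' := hF'm n hn
    set T := n.primeFactors with hT
    have hgg := gg_nonneg hy0' hx0 T
    have hMn := MM_pos Q n
    rw [← Real.sqrt_mul (by positivity)]
    apply Real.le_sqrt_of_sq_le
    have hh : ‖h (zz Q n)‖ ^ 2 = MM Q n * ‖dv h (zz Q n)‖ ^ 2 := by
      unfold dv
      rw [norm_div, div_pow, norm_zI]
      field_simp
    rw [cc_cmp hn', cc_cmp hn', mul_pow, hh]
    -- difference of products
    set B : ℕ → ℝ := fun q => Real.sqrt (u q * x q) with hB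
    have hBsq : ∀ q, B q ^ 2 = u q * x q := fun q => Real.sq_sqrt (mul_nonneg (hu0 q) (hx0 q))
    have hB1 : ∀ q, ‖a q‖ ≤ B q := by
      intro q
      apply Real.le_sqrt_of_sq_le
      rw [ha, ac_sq hQ]
      simp only [hu, hx]
      have h5 := ww_nonneg (α := α) (y0 := y0) hQ q
      have h6 := MM_pos Q q
      have e : lam * (ww α y0 Q q / MM Q q) * ((‖b q‖ ^ 2 + ‖b' q‖ ^ 2) / lam) =
          ww α y0 Q q / MM Q q * (‖b q‖ ^ 2 + ‖b' q‖ ^ 2) := by field_simp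
      rw [e]
      gcongr
      linarith [sq_nonneg ‖b' q‖]
    have hB2 : ∀ q, ‖a' q‖ ≤ B q := by
      intro q
      apply Real.le_sqrt_of_sq_le
      rw [ha', ac_sq hQ]
      simp only [hu, hx]
      have h5 := ww_nonneg (α := α) (y0 := y0) hQ q
      have h6 := MM_pos Q q
      have e : lam * (ww α y0 Q q / MM Q q) * ((‖b q‖ ^ 2 + ‖b' q‖ ^ 2) / lam) =
          ww α y0 Q q / MM Q q * (‖b q‖ ^ 2 + ‖b' q‖ ^ 2) := by field_simp
      rw [e]
      gcongr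
      linarith [sq_nonneg ‖b q‖]
    have hd := prod_sub_le T hB1 hB2
    have hd2 : ‖∏ q ∈ T, a q - ∏ q ∈ T, a' q‖ ^ 2 ≤ T.card * ((∏ q ∈ T, u q) * gg y x T) := by
      calc _ ≤ gg (fun q => ‖a q - a' q‖) B T ^ 2 := by gcongr
        _ ≤ T.card * gg (fun q => ‖a q - a' q‖ ^ 2) (fun q => B q ^ 2) T := gg_sq_le T
        _ = _ := by
            rw [← gg_mul]
            congr 2
            · funext q
              rw [ha, ha', ac_sub_sq hQ]
              simp only [hu, hy]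
              field_simp
            · funext q
              exact hBsq q
    have hk : (T.card : ℝ) ≤ 2 ^ T.card := by
      have := Nat.lt_two_pow_self (n := T.card)
      exact_mod_cast this.le
    have hPu : 0 ≤ ∏ q ∈ T, u q := Finset.prod_nonneg fun q _ => hu0 q
    rw [← weight_id hQ hlam0 hn', ← hT]
    calc _ ≤ (T.card * ((∏ q ∈ T, u q) * gg y x T)) * (MM Q n * ‖dv h (zz Q n)‖ ^ 2) := by gcongr
      _ ≤ (2 ^ T.card * ((∏ q ∈ T, u q) * gg y x T)) * (MM Q n * ‖dv h (zz Q n)‖ ^ 2) := by gcongr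
      _ = _ := by
          have e : ∏ q ∈ T, (lam * (ww α y0 Q q / MM Q q)) = ∏ q ∈ T, u q := rfl
          rw [e]
          generalize ∏ q ∈ T, u q = W
          field_simp
  calc _ ≤ ∑ n ∈ F', Real.sqrt (lam * gg y x n.primeFactors) *
      Real.sqrt (((n : ℝ) ^ (2 * α) * Q ^ (-(1 + 2 * α)) * cn η Q n) * ‖dv h (zz Q n)‖ ^ 2) :=
        Finset.sum_le_sum hpt
    _ ≤ Real.sqrt (∑ n ∈ F', lam * gg y x n.primeFactors) *
        Real.sqrt (∑ n ∈ F', ((n : ℝ) ^ (2 * α) * Q ^ (-(1 + 2 * α)) * cn η Q n) * ‖dv h (zz Q n)‖ ^ 2) := by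
        apply Real.sum_sqrt_mul_sqrt_le
        · intro n
          exact mul_nonneg hlam0.le (gg_nonneg hy0' hx0 _)
        · intro n
          have := cn_nonneg (Q := Q) hη0.le n
          positivity
    _ ≤ Real.sqrt (3 * ‖b - b'‖ ^ 2) *
        Real.sqrt (K * (η * (1 + Real.log Q ^ 2) ^ 2) * SS α y0 Q h) := by
        gcongr
        rw [← Finset.mul_sum]
        calc _ ≤ lam * (‖b - b'‖ ^ 2 / lam * Real.exp 1) := by gcongr
          _ = Real.exp 1 * ‖b - b'‖ ^ 2 := by field_simp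
          _ ≤ 3 * ‖b - b'‖ ^ 2 := by
              have := Real.exp_one_lt_d9
              gcongr
              linarith
    _ = ‖b - b'‖ * Real.sqrt (3 * (K * (η * (1 + Real.log Q ^ 2) ^ 2))) * Real.sqrt (SS α y0 Q h) := by
        rw [Real.sqrt_mul (by norm_num), Real.sqrt_sq (norm_nonneg _), Real.sqrt_mul (by positivity),
          Real.sqrt_mul (by norm_num : (0:ℝ) ≤ 3)]
        ring
    _ ≤ ‖b - b'‖ * (1 / 2) * Real.sqrt (SS α y0 Q h) := by
        gcongr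
        rw [Real.sqrt_le_left (by norm_num)]
        norm_num
        norm_num at h3
        exact h3
    _ = _ := by ring

end

end Pool.Agent.H483.SA
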