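import Pool.Agent.H483.SA.SI
import Pool.Agent.H483.SA.Low

set_option autoImplicit false

/-!
# Primes in the windows
-/

namespace Pool.Agent.H483.SA

open Filter Topology Set
open Pool.Agent.H483.FE Pool.Agent.Q240.KS

/-- the nodes -/
noncomputable def zz (Q : ℝ) (n : ℕ) : ℝ := Real.log n - Real.log Q

/-- a prime larger than `Q e^{y0}` -/
def Big (Q y0 : ℝ) (p : ℕ) : Prop := p.Prime ∧ Q * Real.exp y0 < p

open Classical in
/-- the weights -/
noncomputable def ww (α y0 Q : ℝ) (p : ℕ) : ℝ :=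
  if Big Q y0 p then Real.log p / Q * ((p : ℝ) / Q) ^ (2 * α) else 0

lemma ww_nonneg {α y0 Q : ℝ} (hQ : 0 < Q) (p : ℕ) : 0 ≤ ww α y0 Q p := by
  unfold ww
  split_ifs with h
  · have := Real.log_natCast_nonneg p
    positivity
  · exact le_rfl

/-- the primes of a window -/
noncomputable def PP (α δ y0 Q : ℝ) (k : ℕ) : Finset ℕ :=
  (Finset.Ioc ⌊Q * Real.exp (wy α δ y0 k)⌋₊ ⌊Q * Real.exp (wy α δ y0 (k + 1))⌋₊).filter Nat.Prime

lemma mem_Ioc_floor {a b : ℝ} (ha : 0 ≤ a) (hb : 0 ≤ b) (n : ℕ) :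
    n ∈ Finset.Ioc ⌊a⌋₊ ⌊b⌋₊ ↔ a < n ∧ (n : ℝ) ≤ b := by
  rw [Finset.mem_Ioc, Nat.floor_lt ha, Nat.le_floor_iff hb]

lemma zz_mem {Q a b : ℝ} (hQ : 0 < Q) {n : ℕ} (hn : 0 < n) :
    zz Q n ∈ Ioc a b ↔ Q * Real.exp a < n ∧ (n : ℝ) ≤ Q * Real.exp b := by
  have hn0 : (0:ℝ) < n := by exact_mod_cast hn
  unfold zz
  rw [mem_Ioc, lt_sub_iff_add_lt, sub_le_iff_le_add]
  have e1 : Q * Real.exp a = Real.exp (a + Real.log Q) := by
    rw [Real.exp_add, Real.exp_log hQ]; ring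
  have e2 : Q * Real.exp b = Real.exp (b + Real.log Q) := by
    rw [Real.exp_add, Real.exp_log hQ]; ring
  rw [e1, e2, ← Real.lt_log_iff_exp_lt hn0, ← Real.log_le_iff_le_exp hn0]

lemma mem_PP {α δ y0 Q : ℝ} (hQ : 0 < Q) (k n : ℕ) : n ∈ PP α δ y0 Q k ↔
    n.Prime ∧ zz Q n ∈ Ioc (wy α δ y0 k) (wy α δ y0 (k + 1)) := by
  unfold PP
  rw [Finset.mem_filter, mem_Ioc_floor (by positivity) (by positivity)]
  constructor
  · rintro ⟨h1, h2⟩
    exact ⟨h2, (zz_mem hQ h2.pos).2 h1⟩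
  · rintro ⟨h1, h2⟩
    exact ⟨(zz_mem hQ h1.pos).1 h2, h1⟩

/-- sizes of the windows -/
lemma window_size {θ α δ y0 : ℝ} (hα : 0 < α) (hδ : 0 < δ) (hδ1 : δ ≤ 1 / 2) (hθ1 : θ < 1)
    (hθ : θ ≤ 1 - 2 * α) (X₀ : ℝ) :
    ∃ Q₀ : ℝ, 1 ≤ Q₀ ∧ ∀ Q : ℝ, Q₀ ≤ Q → ∀ k : ℕ, X₀ ≤ Q * Real.exp (wy α δ y0 k) ∧
      1 ≤ Q * Real.exp (wy α δ y0 k) ∧
      (Q * Real.exp (wy α δ y0 k)) ^ θ ≤
        Q * Real.exp (wy α δ y0 (k + 1)) - Q * Real.exp (wy α δ y0 k) ∧
      Q * Real.exp (wy α δ y0 (k + 1)) - Q * Real.exp (wy α δ y0 k) ≤ Q * Real.exp (wy α δ y0 k) ∧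
      Q * Real.exp (wy α δ y0 k) * (wy α δ y0 (k + 1) - wy α δ y0 k) ≤
        Q * Real.exp (wy α δ y0 (k + 1)) - Q * Real.exp (wy α δ y0 k) ∧
      Q * Real.exp (wy α δ y0 (k + 1)) - Q * Real.exp (wy α δ y0 k) ≤
        2 * (Q * Real.exp (wy α δ y0 k) * (wy α δ y0 (k + 1) - wy α δ y0 k)) := by
  have hev1 : ∀ᶠ Q : ℝ in atTop, 1 / δ ≤ (Q * Real.exp y0) ^ (1 - θ) :=
    ((tendsto_rpow_atTop (by linarith : 0 < 1 - θ)).comp
      (tendsto_id.atTop_mul_const (Real.exp_pos y0))).eventually_ge_atTop _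
  have hev2 : ∀ᶠ Q : ℝ in atTop, 1 / δ ≤ Q ^ (2 * α) :=
    (tendsto_rpow_atTop (by positivity)).eventually_ge_atTop _
  have hev3 : ∀ᶠ Q : ℝ in atTop, max X₀ 1 ≤ Q * Real.exp y0 :=
    (tendsto_id.atTop_mul_const (Real.exp_pos y0)).eventually_ge_atTop _
  obtain ⟨Q₀, hQ₀⟩ := Filter.eventually_atTop.1 (hev1.and (hev2.and hev3))
  refine ⟨max Q₀ 1, le_max_right _ _, fun Q hQ k => ?_⟩
  obtain ⟨h1, h2, h3⟩ := hQ₀ Q ((le_max_left _ _).trans hQ)
  have hQ1 : 1 ≤ Q := (le_max_right _ _).trans hQ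
  have hQ0 : 0 < Q := by linarith
  set a := wy α δ y0 k with ha
  set b := wy α δ y0 (k + 1) with hb
  have hay : y0 ≤ a := by
    have := wy_mono (α := α) (y0 := y0) hδ (Nat.zero_le k)
    simpa [wy] using this
  set X := Q * Real.exp a with hX
  have hXy : Q * Real.exp y0 ≤ X := by rw [hX]; gcongr
  have hX1 : 1 ≤ X := (le_max_right _ _).trans (h3.trans hXy)
  have hX0 : 0 < X := by linarith
  have hXX0 : X₀ ≤ X := (le_max_left _ _).trans (h3.trans hXy)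
  have hab : 0 < b - a := wy_pos hδ k
  have habδ : b - a ≤ 1 / 2 := (wy_le hδ k).trans hδ1
  have hXb : Q * Real.exp b = X * Real.exp (b - a) := by
    rw [hX, mul_assoc, ← Real.exp_add]; congr 2; ring
  have g1 : (b - a) + 1 ≤ Real.exp (b - a) := Real.add_one_le_exp _
  have g2 : Real.exp (b - a) ≤ 1 + 2 * (b - a) := by
    have h4 := Real.exp_bound' hab.le (by linarith : b - a ≤ 1) (n := 2) (by norm_num)
    norm_num [Finset.sum_range_succ, Nat.factorial] at h4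
    nlinarith
  have hlow : X * (b - a) ≤ Q * Real.exp b - X := by
    rw [hXb]
    have : X * (b - a) ≤ X * (Real.exp (b - a) - 1) := by
      apply mul_le_mul_of_nonneg_left _ hX0.le
      linarith
    linarith
  have hup : Q * Real.exp b - X ≤ 2 * (X * (b - a)) := by
    rw [hXb]
    have : X * (Real.exp (b - a) - 1) ≤ X * (2 * (b - a)) := by
      apply mul_le_mul_of_nonneg_left _ hX0.le
      linarith
    linarith
  refine ⟨hXX0, hX1, ?_, ?_, hlow, hup⟩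
  · refine le_trans ?_ hlow
    rw [hb, ha, wy_step, ← ha]
    rcases le_total a 0 with hc | hc
    · have e1 : 1 ≤ Real.exp (-(2 * α * a)) := Real.one_le_exp (by nlinarith)
      rw [min_eq_left e1, mul_one]
      have e2 : 1 / δ ≤ X ^ (1 - θ) := h1.trans (Real.rpow_le_rpow (by positivity) hXy (by linarith))
      rw [div_le_iff₀ hδ] at e2
      have e3 : X = X ^ θ * X ^ (1 - θ) := by
        rw [← Real.rpow_add hX0]; simp
      calc X ^ θ = X ^ θ * 1 := by ring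
        _ ≤ X ^ θ * (X ^ (1 - θ) * δ) := by gcongr
        _ = X * δ := by rw [← mul_assoc, ← e3]
    · have e1 : Real.exp (-(2 * α * a)) ≤ 1 := Real.exp_le_one_iff.2 (by nlinarith)
      rw [min_eq_right e1]
      have e2 : Real.exp (-(2 * α * a)) = Q ^ (2 * α) * X ^ (-(2 * α)) := by
        rw [hX, Real.mul_rpow hQ0.le (Real.exp_pos _).le, ← Real.exp_mul, ← mul_assoc, ← Real.rpow_add hQ0]
        simp only [add_neg_cancel, Real.rpow_zero, one_mul]
        congr 1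
        ring
      rw [div_le_iff₀ hδ] at h2
      have e3 : X * X ^ (-(2 * α)) = X ^ (1 - 2 * α) := by
        nth_rw 1 [← Real.rpow_one X]
        rw [← Real.rpow_add hX0]; congr 1
      calc X ^ θ ≤ X ^ (1 - 2 * α) := Real.rpow_le_rpow_of_exponent_le hX1 hθ
        _ = 1 * (X * X ^ (-(2 * α))) := by rw [e3, one_mul]
        _ ≤ (Q ^ (2 * α) * δ) * (X * X ^ (-(2 * α))) := by gcongr
        _ = _ := by rw [e2]; ring
  · refine hup.trans ?_
    nlinarith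

/-- the primes carry enough weight in each window -/
theorem PP_weight {θ α δ y0 : ℝ} (hα : 0 < α) (hδ : 0 < δ) (hδ1 : δ ≤ 1 / 2) (hθ1 : θ < 1)
    (hθ : θ ≤ 1 - 2 * α) (hPI : PI θ) : ∃ c Q₀ : ℝ, 0 < c ∧ 1 ≤ Q₀ ∧ ∀ Q : ℝ, Q₀ ≤ Q →
      ∀ k, c * ((wy α δ y0 (k + 1) - wy α δ y0 k) * Real.exp (2 * (1 / 2 + α) * wy α δ y0 k)) ≤
        ∑ p ∈ PP α δ y0 Q k, ww α y0 Q p := by
  obtain ⟨c, X₀, hc, hX₀, H⟩ := hPI
  obtain ⟨Q₀, hQ₀, hW⟩ := window_size (y0 := y0) hα hδ hδ1 hθ1 hθ X₀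
  refine ⟨c, Q₀, hc, hQ₀, fun Q hQ k => ?_⟩
  have hQ1 : 1 ≤ Q := hQ₀.trans hQ
  have hQ0 : 0 < Q := by linarith
  obtain ⟨g1, g2, g3, g4, g5, -⟩ := hW Q hQ k
  set a := wy α δ y0 k with ha
  set b := wy α δ y0 (k + 1) with hb
  set X := Q * Real.exp a with hX
  set X' := Q * Real.exp b with hX'
  have hab : 0 < b - a := wy_pos hδ k
  have hX2 : 2 ≤ X := hX₀.trans g1
  have hX0 : 0 < X := by linarith
  have hlX : 0 < Real.log X := Real.log_pos (by linarith)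
  have hay : y0 ≤ a := by
    have := wy_mono (α := α) (y0 := y0) hδ (Nat.zero_le k)
    simpa [wy] using this
  have hcard := H X (X' - X) g1 g3 g4
  have ecard : pic X (X' - X) = (PP α δ y0 Q k).card := by
    unfold pic PP
    rw [add_sub_cancel]
  rw [ecard] at hcard
  have hterm : ∀ p ∈ PP α δ y0 Q k, Real.log X / Q * Real.exp (2 * α * a) ≤ ww α y0 Q p := by
    intro p hp
    rw [mem_PP hQ0] at hp
    have hpr := hp.1
    have hz := (zz_mem hQ0 hpr.pos).1 hp.2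
    have hbig : Big Q y0 p := ⟨hpr, lt_of_le_of_lt (by gcongr) hz.1⟩
    unfold ww
    rw [if_pos hbig]
    have e1 : Real.log X ≤ Real.log p := Real.log_le_log hX0 hz.1.le
    have e2 : Real.exp (2 * α * a) ≤ ((p : ℝ) / Q) ^ (2 * α) := by
      have : Real.exp a ≤ (p : ℝ) / Q := by
        rw [le_div_iff₀ hQ0, mul_comm]; exact hz.1.le
      calc Real.exp (2 * α * a) = (Real.exp a) ^ (2 * α) := by rw [← Real.exp_mul]; congr 1; ring
        _ ≤ _ := Real.rpow_le_rpow (Real.exp_pos _).le this (by positivity)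
    gcongr
  calc _ = c * (X * (b - a)) / Real.log X * (Real.log X / Q * Real.exp (2 * α * a)) := by
        have : Real.exp (2 * (1 / 2 + α) * a) = Real.exp a * Real.exp (2 * α * a) := by
          rw [← Real.exp_add]; congr 1; ring
        have hXa : Real.exp a = X / Q := by rw [hX]; field_simp
        rw [this, hXa]
        field_simp
    _ ≤ c * (X' - X) / Real.log X * (Real.log X / Q * Real.exp (2 * α * a)) := by gcongr
    _ ≤ (PP α δ y0 Q k).card * (Real.log X / Q * Real.exp (2 * α * a)) := by gcongr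
    _ = ∑ p ∈ PP α δ y0 Q k, Real.log X / Q * Real.exp (2 * α * a) := by
        rw [Finset.sum_const, nsmul_eq_mul]
    _ ≤ _ := Finset.sum_le_sum hterm

lemma PP_disj {α δ y0 Q : ℝ} (hδ : 0 < δ) (hQ : 0 < Q) (k l : ℕ) (hkl : k ≠ l) :
    Disjoint (PP α δ y0 Q k) (PP α δ y0 Q l) := by
  rw [Finset.disjoint_left]
  intro n h1 h2
  rw [mem_PP hQ] at h1 h2
  rcases lt_or_gt_of_ne hkl with h | h
  · have := wy_mono (α := α) (y0 := y0) hδ (Nat.succ_le_of_lt h)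
    rw [Nat.succ_eq_add_one] at this
    linarith [h1.2.2, h2.2.1]
  · have := wy_mono (α := α) (y0 := y0) hδ (Nat.succ_le_of_lt h)
    rw [Nat.succ_eq_add_one] at this
    linarith [h1.2.1, h2.2.2]

end Pool.Agent.H483.SA
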