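import Pool.Graph.R_pool_sql_team_seeded_3997aac3.Q278.KT.Fin
import Pool.Graph.R_seed8.H902R3.Task469C

set_option autoImplicit false

/-!
# Primes in all intervals of length `x ^ 0.615`
-/

namespace Pool.Agent.H483.SA

open Finset Filter Topology Pool.Agent.Q240.KS

/-- `c H / log X` primes in all intervals `(X, X + H]`, `X ^ θ ≤ H ≤ X`. -/
def PI (θ : ℝ) : Prop := ∃ c X₀ : ℝ, 0 < c ∧ 2 ≤ X₀ ∧ ∀ X H : ℝ, X₀ ≤ X → X ^ θ ≤ H → H ≤ X →
  c * H / Real.log X ≤ pic X H

lemma pic_add {X a b : ℝ} (ha : 0 ≤ a) (hb : 0 ≤ b) : pic X a + pic (X + a) b = pic X (a + b) := by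
  unfold pic
  rw [← Finset.card_union_of_disjoint, ← Finset.filter_union, Finset.Ioc_union_Ioc_eq_Ioc]
  · rw [add_assoc]
  · exact Nat.floor_le_floor (by linarith)
  · exact Nat.floor_le_floor (by linarith)
  · apply Finset.disjoint_filter_filter
    rw [Finset.disjoint_left]
    intro n h1 h2
    rw [Finset.mem_Ioc] at h1 h2
    omega

lemma pic_mono {X a b : ℝ} (ha : 0 ≤ a) (hab : a ≤ b) : pic X a ≤ pic X b := by
  have := pic_add (X := X) ha (sub_nonneg.2 hab)
  rw [add_sub_cancel] at this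
  omega

lemma pic_blocks {X h : ℝ} (hh : 0 ≤ h) (N : ℕ) : ∑ j ∈ range N, pic (X + j * h) h = pic X (N * h) := by
  induction N with
  | zero => simp [pic]
  | succ N ih =>
    rw [Finset.sum_range_succ, ih, pic_add (by positivity) hh]
    congr 1
    push_cast
    ring

/-- from few poor intervals to all longer intervals -/
theorem pi_of_mainp {lam0 e0 : ℝ} (h0 : 0 ≤ e0) (h2 : 1 / 10 ≤ lam0)
    (hM : MAINP lam0 e0) : PI (1 - lam0 + e0) := by
  obtain ⟨c, η, Y₀, hc, hη, H⟩ := hM
  set η' : ℝ := min η (1 / 20) with hη'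
  have hη'0 : 0 < η' := lt_min hη (by norm_num)
  have hη'1 : η' ≤ η := min_le_left _ _
  have hη'2 : η' ≤ 1 / 20 := min_le_right _ _
  have hev : ∀ᶠ X : ℝ in atTop, 16 ≤ X ^ η' := (tendsto_rpow_atTop hη'0).eventually_ge_atTop _
  have hev2 : ∀ᶠ X : ℝ in atTop, Y₀ ≤ Real.log X := Real.tendsto_log_atTop.eventually_ge_atTop _
  obtain ⟨X₀, hX₀⟩ := Filter.eventually_atTop.1 (hev.and hev2)
  refine ⟨c / 16, max 3 X₀, by positivity, le_trans (by norm_num) (le_max_left _ _), fun X Hh hX hH1 hH2 => ?_⟩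
  have hX3 : 3 ≤ X := (le_max_left _ _).trans hX
  have hX0 : 0 < X := by linarith
  have hX1 : 1 ≤ X := by linarith
  obtain ⟨a1, a2⟩ := hX₀ X ((le_max_right _ _).trans hX)
  set Y : ℝ := Real.log X with hY
  have hYpos : 0 < Y := Real.log_pos (by linarith)
  have eX : Real.exp Y = X := Real.exp_log hX0
  have epow : ∀ z : ℝ, Real.exp (z * Y) = X ^ z := by
    intro z
    rw [Real.rpow_def_of_pos hX0, mul_comm]
  set h : ℝ := X ^ (1 - lam0 - η') with hh
  have hh0 : 0 < h := Real.rpow_pos_of_pos hX0 _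
  -- sizes
  have k1 : X ^ (e0 + η') * h = X ^ (1 - lam0 + e0) := by
    rw [hh, ← Real.rpow_add hX0]; congr 1; ring
  have k2 : X ^ (e0 + η') * h ≤ Hh := by rw [k1]; exact hH1
  have k3 : X ^ (e0 + η') = X ^ e0 * X ^ η' := Real.rpow_add hX0 _ _
  have k4 : 1 ≤ X ^ e0 := Real.one_le_rpow hX1 h0
  have hq : X ^ e0 * 16 ≤ Hh / h := by
    rw [le_div_iff₀ hh0]
    refine le_trans ?_ k2
    rw [k3]
    gcongr
  set N : ℕ := ⌊Hh / (4 * h)⌋₊ with hN
  have hN1 : (N : ℝ) ≤ Hh / (4 * h) := Nat.floor_le (by have : 0 ≤ Hh := le_trans (by positivity) hH1; positivity)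
  have hN2 : Hh / (4 * h) < N + 1 := Nat.lt_floor_add_one _
  have e1 : Hh / (4 * h) = Hh / h / 4 := by field_simp
  rw [e1] at hN1 hN2
  have hN3 : Hh / h / 8 ≤ N := by linarith
  -- the poor blocks
  set U : Finset ℝ := ((range N).filter (fun j : ℕ => (pic (X + j * h) h : ℝ) < c * h / Y)).image
    (fun j : ℕ => X + j * h) with hU
  have hinj : Function.Injective (fun j : ℕ => X + j * h) := by
    intro a b hab
    have : (a : ℝ) * h = b * h := by simpa using hab
    have := mul_right_cancel₀ hh0.ne' this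
    exact_mod_cast this
  have hcard : U.card = ((range N).filter (fun j : ℕ => (pic (X + j * h) h : ℝ) < c * h / Y)).card :=
    Finset.card_image_of_injective _ hinj
  have hNh : (N : ℝ) * h ≤ Hh / 4 := by
    calc (N : ℝ) * h ≤ (Hh / h / 4) * h := by gcongr
      _ = Hh / 4 := by field_simp
  have hbad : (U.card : ℝ) ≤ X ^ (e0 - η') := by
    have := H Y a2 h (by
        rw [epow]
        apply Real.rpow_le_rpow_of_exponent_le hX1
        linarith) (by
        rw [epow]
        apply Real.rpow_le_rpow_of_exponent_le hX1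
        linarith) U (by
        intro y hy
        rw [hU, Finset.mem_image] at hy
        obtain ⟨j, hj, rfl⟩ := hy
        rw [Finset.mem_filter, Finset.mem_range] at hj
        have hj0 : (0:ℝ) ≤ j := Nat.cast_nonneg j
        have hjN : (j : ℝ) * h ≤ X / 4 := by
          have : (j : ℝ) ≤ N := by exact_mod_cast hj.1.le
          calc (j : ℝ) * h ≤ N * h := by gcongr
            _ ≤ Hh / 4 := hNh
            _ ≤ X / 4 := by linarith
        have hpos : 0 < X + j * h := by positivity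
        refine ⟨hpos, ?_, hj.2⟩
        have l1 : Y ≤ Real.log (X + j * h) := Real.log_le_log hX0 (by nlinarith [mul_nonneg hj0 hh0.le])
        have l2 : Real.log (X + j * h) ≤ Real.log (X * (1 + 1 / 4)) :=
          Real.log_le_log hpos (by linarith)
        rw [Real.log_mul hX0.ne' (by norm_num)] at l2
        have l3 : Real.log (1 + 1 / 4) ≤ 1 / 4 := by
          have := Real.log_le_sub_one_of_pos (show (0:ℝ) < 1 + 1 / 4 by norm_num)
          linarith
        rw [abs_of_nonneg (by linarith)]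
        linarith) (by
        intro y hy y' hy' hne
        rw [hU, Finset.mem_image] at hy hy'
        obtain ⟨j, -, rfl⟩ := hy
        obtain ⟨j', -, rfl⟩ := hy'
        have hjj : j ≠ j' := fun h => hne (by rw [h])
        have : (1 : ℝ) ≤ |(j : ℝ) - j'| := by
          have h1 : (1 : ℤ) ≤ |(j : ℤ) - j'| := Int.one_le_abs (sub_ne_zero.2 (by exact_mod_cast hjj))
          exact_mod_cast h1
        have e : X + j * h - (X + j' * h) = ((j : ℝ) - j') * h := by ring
        rw [e, abs_mul, abs_of_pos hh0]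
        nlinarith)
    rw [epow] at this
    refine this.trans (Real.rpow_le_rpow_of_exponent_le hX1 (by linarith))
  have hbad2 : (U.card : ℝ) ≤ Hh / h / 16 := by
    refine hbad.trans (le_trans ?_ (by linarith : X ^ e0 ≤ Hh / h / 16))
    exact Real.rpow_le_rpow_of_exponent_le hX1 (by linarith)
  -- good blocks
  set Gd := (range N).filter (fun j : ℕ => ¬ (pic (X + j * h) h : ℝ) < c * h / Y) with hGd
  have hsum : (N : ℝ) = U.card + Gd.card := by
    rw [hcard, hGd]
    have := Finset.card_filter_add_card_filter_not (s := range N)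
      (p := fun j : ℕ => (pic (X + j * h) h : ℝ) < c * h / Y)
    rw [Finset.card_range] at this
    exact_mod_cast this.symm
  have hGcard : Hh / h / 16 ≤ Gd.card := by linarith
  have hlow : (Gd.card : ℝ) * (c * h / Y) ≤ pic X (N * h) := by
    rw [← pic_blocks hh0.le N]
    push_cast
    calc (Gd.card : ℝ) * (c * h / Y) = ∑ j ∈ Gd, c * h / Y := by rw [Finset.sum_const, nsmul_eq_mul]
      _ ≤ ∑ j ∈ Gd, (pic (X + j * h) h : ℝ) := by
          apply Finset.sum_le_sum
          intro j hj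
          rw [hGd, Finset.mem_filter] at hj
          exact not_lt.1 hj.2
      _ ≤ _ := Finset.sum_le_sum_of_subset_of_nonneg (Finset.filter_subset _ _) (fun _ _ _ => by positivity)
  have hfin : (pic X (N * h) : ℝ) ≤ pic X Hh := by
    have : 0 ≤ Hh := le_trans (by positivity) hH1
    exact_mod_cast pic_mono (by positivity) (by linarith)
  refine le_trans ?_ (hlow.trans hfin)
  calc c / 16 * Hh / Y = (Hh / h / 16) * (c * h / Y) := by field_simp
    _ ≤ _ := by gcongr

theorem pi_main : PI 0.615 := by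
  have := pi_of_mainp (by norm_num) (by norm_num) Pool.Agent.Q278.KT.mainp_043
  norm_num at this ⊢
  exact this

/-- Brun-Titchmarsh -/
theorem bt : ∃ B₀ : ℝ, 2 ≤ B₀ ∧ ∀ X H : ℝ, 0 ≤ X → B₀ ≤ H → (pic X H : ℝ) ≤ 6 * H / Real.log H := by
  obtain ⟨Y₀, h2, h⟩ := Pool.Agent.H902R3.C469.bt2 1 one_pos
  have h2' : (2:ℝ) ≤ Y₀ := by exact_mod_cast h2
  refine ⟨Y₀ + 2, by linarith, fun X H hX hH => ?_⟩
  set Y : ℕ := ⌊H⌋₊ + 1 with hY
  have hH0 : 0 ≤ H := by linarith
  have hY1 : H < Y := by rw [hY]; push_cast; exact Nat.lt_floor_add_one H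
  have hY2 : (Y : ℝ) ≤ H + 1 := by
    rw [hY]; push_cast
    have := Nat.floor_le hH0
    linarith
  have hYY : Y₀ ≤ Y := by
    have : (Y₀ : ℝ) < Y := by linarith
    exact_mod_cast this.le
  have := h ⌊X⌋₊ Y hYY
  have hsub : pic X H ≤ ((Ioc ⌊X⌋₊ (⌊X⌋₊ + Y)).filter Nat.Prime).card := by
    unfold pic
    apply Finset.card_le_card
    apply Finset.filter_subset_filter
    apply Finset.Ioc_subset_Ioc_right
    have h1 : ((⌊X + H⌋₊ : ℕ) : ℝ) ≤ X + H := Nat.floor_le (by linarith)
    have h2 : X < ⌊X⌋₊ + 1 := Nat.lt_floor_add_one X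
    have : ((⌊X + H⌋₊ : ℕ) : ℝ) < ((⌊X⌋₊ + Y + 1 : ℕ) : ℝ) := by push_cast; linarith
    have : ⌊X + H⌋₊ < ⌊X⌋₊ + Y + 1 := by exact_mod_cast this
    omega
  have h3 : (pic X H : ℝ) ≤ (((Ioc ⌊X⌋₊ (⌊X⌋₊ + Y)).filter Nat.Prime).card : ℝ) := by exact_mod_cast hsub
  refine (h3.trans this).trans ?_
  have hl : 0 < Real.log H := Real.log_pos (by linarith)
  have hl2 : Real.log H ≤ Real.log Y := Real.log_le_log (by linarith) hY1.le
  calc _ ≤ (2 + 1) * (Y:ℝ) / Real.log H := by gcongr
    _ ≤ 6 * H / Real.log H := by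
        apply div_le_div_of_nonneg_right _ hl.le
        linarith

end Pool.Agent.H483.SA
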