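import Pool.Agent.H483.SA.Wt

set_option autoImplicit false

/-!
# Windows, local estimates and sampling
-/

namespace Pool.Agent.H483.SA

open MeasureTheory Set Filter Topology Complex
open Pool.Agent.H483.FE

/-- `f` with derivative `f'` and the energy inequality -/
structure Cls (α E : ℝ) (f f' : ℝ → ℂ) : Prop where
  hd : ∀ y, HasDerivAt f (f' y) y
  cont' : Continuous f'
  dec : Dec f
  dec' : Dec f'
  en : ∫ y, Real.exp (2 * (1 / 2 - α) * y) * ‖f' y‖ ^ 2 ≤ E * ∫ y, Real.exp (2 * (1 / 2 + α) * y) * ‖f y‖ ^ 2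

lemma Cls.cont {α E : ℝ} {f f' : ℝ → ℂ} (h : Cls α E f f') : Continuous f := by
  rw [continuous_iff_continuousAt]; exact fun y => (h.hd y).continuousAt

lemma two_pts {h h' : ℝ → ℂ} (hd : ∀ y, HasDerivAt h (h' y) y) (hc' : Continuous h')
    {τ : ℝ} (hτ : 0 < τ) {a b v z : ℝ} (hv : v ∈ Icc a b) (hz : z ∈ Icc a b) :
    ‖h z - h v‖ ^ 2 ≤ (b - a) * Real.exp (-(2 * τ * a)) * En τ h' (Ioc a b) := by
  wlog hvz : v ≤ z generalizing v z
  · rw [norm_sub_rev]
    exact this hz hv (le_of_not_ge hvz)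
  have hab : a ≤ b := hv.1.trans hv.2
  have k1 := incr hd hc' τ hvz
  have k2 := (expInt_le hτ hvz).2
  have k3 : ∫ u in v..z, Real.exp (2 * τ * u) * ‖h' u‖ ^ 2 ≤ En τ h' (Ioc a b) := by
    rw [← En_interval hab]
    apply intervalIntegral.integral_mono_interval hv.1 hvz hz.2
    · exact Eventually.of_forall fun v => by positivity
    · exact (by fun_prop : Continuous fun v : ℝ => Real.exp (2 * τ * v) * ‖h' v‖ ^ 2).intervalIntegrable _ _
  have k4 : 0 ≤ ∫ u in v..z, Real.exp (2 * τ * u) * ‖h' u‖ ^ 2 :=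
    intervalIntegral.integral_nonneg hvz (fun v _ => by positivity)
  refine k1.trans (mul_le_mul (k2.trans ?_) k3 k4 ?_)
  · apply mul_le_mul
    · linarith [hv.1, hz.2]
    · apply Real.exp_le_exp.2
      nlinarith [hv.1]
    · positivity
    · linarith
  · have : 0 ≤ b - a := by linarith
    positivity

lemma loc_lower {h h' : ℝ → ℂ} (hd : ∀ y, HasDerivAt h (h' y) y) (hc' : Continuous h')
    {σ τ : ℝ} (hσ : 0 < σ) (hτ : 0 < τ) {a b z : ℝ} (hz : z ∈ Icc a b) :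
    En σ h (Ioc a b) ≤ (2 * (b - a) * Real.exp (2 * σ * b)) * ‖h z‖ ^ 2 +
      2 * (b - a) ^ 2 * Real.exp (2 * σ * b - 2 * τ * a) * En τ h' (Ioc a b) := by
  have hab : a ≤ b := hz.1.trans hz.2
  have hc : Continuous h := by
    rw [continuous_iff_continuousAt]; exact fun y => (hd y).continuousAt
  set W := En τ h' (Ioc a b) with hW
  have hW0 : 0 ≤ W := En_nonneg _ _
  set M := Real.exp (2 * σ * b) * (2 * ‖h z‖ ^ 2 + 2 * ((b - a) * Real.exp (-(2 * τ * a)) * W)) with hM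
  have h1 : En σ h (Ioc a b) ≤ ∫ v in a..b, M := by
    rw [← En_interval hab]
    apply intervalIntegral.integral_mono_on hab
    · exact (by fun_prop : Continuous fun v : ℝ => Real.exp (2 * σ * v) * ‖h v‖ ^ 2).intervalIntegrable _ _
    · exact intervalIntegrable_const
    · intro y hy
      have k5 := two_pts hd hc' hτ hz hy
      have k6 := sq_le_two (h y) (h z)
      rw [hM]
      apply mul_le_mul
      · apply Real.exp_le_exp.2
        have := hy.2
        nlinarith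
      · linarith
      · positivity
      · positivity
  rw [intervalIntegral.integral_const, smul_eq_mul] at h1
  refine h1.trans (le_of_eq ?_)
  rw [hM, sub_eq_add_neg (2 * σ * b), Real.exp_add]
  ring

lemma loc_upper {h h' : ℝ → ℂ} (hd : ∀ y, HasDerivAt h (h' y) y) (hc' : Continuous h')
    {σ τ : ℝ} (hσ : 0 < σ) (hτ : 0 < τ) {a b z : ℝ} (hz : z ∈ Icc a b) :
    (b - a) * Real.exp (2 * σ * a) * ‖h z‖ ^ 2 ≤ 2 * En σ h (Ioc a b) +
      2 * (b - a) ^ 2 * Real.exp (2 * σ * a - 2 * τ * a) * En τ h' (Ioc a b) := by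
  have hab : a ≤ b := hz.1.trans hz.2
  have hc : Continuous h := by
    rw [continuous_iff_continuousAt]; exact fun y => (hd y).continuousAt
  set W := En τ h' (Ioc a b) with hW
  have hW0 : 0 ≤ W := En_nonneg _ _
  have h1 : ∫ v in a..b, Real.exp (2 * σ * a) * ‖h z‖ ^ 2 ≤ ∫ v in a..b,
      (2 * (Real.exp (2 * σ * v) * ‖h v‖ ^ 2) +
        2 * Real.exp (2 * σ * a) * ((b - a) * Real.exp (-(2 * τ * a)) * W)) := by
    apply intervalIntegral.integral_mono_on hab
    · exact intervalIntegrable_const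
    · exact (by fun_prop : Continuous fun v : ℝ => 2 * (Real.exp (2 * σ * v) * ‖h v‖ ^ 2) +
        2 * Real.exp (2 * σ * a) * ((b - a) * Real.exp (-(2 * τ * a)) * W)).intervalIntegrable _ _
    · intro y hy
      have k5 := two_pts hd hc' hτ hy hz
      have k6 := sq_le_two (h z) (h y)
      have k7 : Real.exp (2 * σ * a) ≤ Real.exp (2 * σ * y) := by
        apply Real.exp_le_exp.2
        nlinarith [hy.1]
      calc _ ≤ Real.exp (2 * σ * a) * (2 * ‖h y‖ ^ 2 + 2 * ‖h z - h y‖ ^ 2) := by gcongr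
        _ = 2 * (Real.exp (2 * σ * a) * ‖h y‖ ^ 2) + 2 * Real.exp (2 * σ * a) * ‖h z - h y‖ ^ 2 := by ring
        _ ≤ _ := by gcongr
  rw [intervalIntegral.integral_const, smul_eq_mul, intervalIntegral.integral_add,
    intervalIntegral.integral_const_mul, intervalIntegral.integral_const, smul_eq_mul, En_interval hab] at h1
  · have e : 2 * (b - a) ^ 2 * Real.exp (2 * σ * a - 2 * τ * a) * W =
        (b - a) * (2 * Real.exp (2 * σ * a) * ((b - a) * Real.exp (-(2 * τ * a)) * W)) := by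
      rw [sub_eq_add_neg (2 * σ * a), Real.exp_add]
      ring
    rw [e]
    linarith
  · exact (by fun_prop : Continuous fun v : ℝ => 2 * (Real.exp (2 * σ * v) * ‖h v‖ ^ 2)).intervalIntegrable _ _
  · exact intervalIntegrable_const

/-- the ends of the windows -/
noncomputable def wy (α δ y0 : ℝ) : ℕ → ℝ
  | 0 => y0
  | k + 1 => wy α δ y0 k + δ * min 1 (Real.exp (-(2 * α * wy α δ y0 k)))

section

variable {α δ y0 : ℝ}

lemma wy_step (k : ℕ) : wy α δ y0 (k + 1) - wy α δ y0 k = δ * min 1 (Real.exp (-(2 * α * wy α δ y0 k))) := by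
  simp [wy]

lemma wy_pos (hδ : 0 < δ) (k : ℕ) : 0 < wy α δ y0 (k + 1) - wy α δ y0 k := by
  rw [wy_step]
  exact mul_pos hδ (lt_min one_pos (Real.exp_pos _))

lemma wy_le (hδ : 0 < δ) (k : ℕ) : wy α δ y0 (k + 1) - wy α δ y0 k ≤ δ := by
  rw [wy_step]
  exact mul_le_of_le_one_right hδ.le (min_le_left _ _)

lemma wy_mono (hδ : 0 < δ) : Monotone (wy α δ y0) :=
  monotone_nat_of_le_succ fun k => by linarith [wy_pos (α := α) (y0 := y0) hδ k]

lemma wy_lim (hδ : 0 < δ) : Tendsto (wy α δ y0) atTop atTop := by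
  rcases tendsto_atTop_of_monotone (wy_mono (α := α) (y0 := y0) hδ) with h | ⟨l, hl⟩
  · exact h
  · exfalso
    have h1 : Tendsto (fun k => wy α δ y0 (k + 1) - wy α δ y0 k) atTop (𝓝 (l - l)) :=
      ((tendsto_add_atTop_iff_nat 1).2 hl).sub hl
    have h2 : Tendsto (fun k => wy α δ y0 (k + 1) - wy α δ y0 k) atTop
        (𝓝 (δ * min 1 (Real.exp (-(2 * α * l))))) := by
      simp_rw [wy_step]
      exact (tendsto_const_nhds.min ((Real.continuous_exp.tendsto _).comp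
        ((hl.const_mul (2 * α)).neg))).const_mul δ
    have h3 := tendsto_nhds_unique h1 h2
    rw [sub_self] at h3
    have : 0 < δ * min 1 (Real.exp (-(2 * α * l))) := mul_pos hδ (lt_min one_pos (Real.exp_pos _))
    linarith

lemma wy_exists (hδ : 0 < δ) {z : ℝ} (hz : y0 < z) : ∃ k, z ∈ Ioc (wy α δ y0 k) (wy α δ y0 (k + 1)) := by
  have hex : ∃ k, z ≤ wy α δ y0 k := ((wy_lim (α := α) (y0 := y0) hδ).eventually_ge_atTop z).exists
  classical
  have h1 := Nat.find_spec hex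
  have h2 : Nat.find hex ≠ 0 := by
    intro h0
    rw [h0] at h1
    simp only [wy] at h1
    linarith
  obtain ⟨k, hk⟩ := Nat.exists_eq_succ_of_ne_zero h2
  refine ⟨k, ?_, ?_⟩
  · by_contra hcon
    have := Nat.find_min' hex (not_lt.1 hcon)
    omega
  · rw [← Nat.succ_eq_add_one, ← hk]; exact h1

lemma wy_sq (k : ℕ) :
    (wy α δ y0 (k + 1) - wy α δ y0 k) ^ 2 * Real.exp (4 * α * wy α δ y0 k) ≤ δ ^ 2 := by
  rw [wy_step, mul_pow, mul_assoc]
  apply mul_le_of_le_one_right (by positivity)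
  have h1 : (min 1 (Real.exp (-(2 * α * wy α δ y0 k)))) ^ 2 ≤ Real.exp (-(2 * α * wy α δ y0 k)) ^ 2 :=
    pow_le_pow_left₀ (le_min zero_le_one (Real.exp_pos _).le) (min_le_right _ _) 2
  calc _ ≤ Real.exp (-(2 * α * wy α δ y0 k)) ^ 2 * Real.exp (4 * α * wy α δ y0 k) := by gcongr
    _ = 1 := by
        rw [← Real.exp_nat_mul, ← Real.exp_add]
        rw [← Real.exp_zero]
        congr 1
        push_cast
        ring

/-- upper bound for weighted sums of values -/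
theorem upper_sum (hα : 0 < α) (hα2 : α < 1 / 2) (hδ : 0 < δ) (hδ1 : δ ≤ 1) {E : ℝ} {f f' : ℝ → ℂ}
    (hf : Cls α E f f') (F : Finset ℕ) (z v : ℕ → ℝ) (hv : ∀ n ∈ F, 0 ≤ v n) (hz : ∀ n ∈ F, y0 < z n)
    {ε : ℝ} (hε : 0 ≤ ε)
    (hw : ∀ k : ℕ, ∑ n ∈ F with z n ∈ Ioc (wy α δ y0 k) (wy α δ y0 (k + 1)), v n ≤
      ε * ((wy α δ y0 (k + 1) - wy α δ y0 k) * Real.exp (2 * (1 / 2 + α) * wy α δ y0 k))) :
    ∑ n ∈ F, v n * ‖f (z n)‖ ^ 2 ≤ 2 * ε * ((∫ y, Real.exp (2 * (1 / 2 + α) * y) * ‖f y‖ ^ 2) +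
      ∫ y, Real.exp (2 * (1 / 2 - α) * y) * ‖f' y‖ ^ 2) := by
  have hσ : 0 < 1 / 2 + α := by linarith
  have hτ : 0 < 1 / 2 - α := by linarith
  -- all points are in finitely many windows
  have hex : ∀ n ∈ F, ∃ k, z n ∈ Ioc (wy α δ y0 k) (wy α δ y0 (k + 1)) := fun n hn => wy_exists hδ (hz n hn)
  choose! κ hκ using hex
  obtain ⟨K, hK⟩ : ∃ K, ∀ n ∈ F, κ n < K := ⟨F.sup κ + 1, fun n hn => Nat.lt_succ_of_le (Finset.le_sup hn)⟩
  have hwin : ∀ k, ∑ n ∈ F with z n ∈ Ioc (wy α δ y0 k) (wy α δ y0 (k + 1)), v n * ‖f (z n)‖ ^ 2 ≤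
      2 * ε * (En (1 / 2 + α) f (Ioc (wy α δ y0 k) (wy α δ y0 (k + 1))) +
        En (1 / 2 - α) f' (Ioc (wy α δ y0 k) (wy α δ y0 (k + 1)))) := by
    intro k
    set a := wy α δ y0 k with ha
    set b := wy α δ y0 (k + 1) with hb
    have hab : 0 < b - a := wy_pos hδ k
    set M := (2 * En (1 / 2 + α) f (Ioc a b) + 2 * En (1 / 2 - α) f' (Ioc a b)) /
      ((b - a) * Real.exp (2 * (1 / 2 + α) * a)) with hM
    have hMpos : 0 < (b - a) * Real.exp (2 * (1 / 2 + α) * a) := by positivity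
    have e1 : 0 ≤ En (1 / 2 + α) f (Ioc a b) := En_nonneg _ _
    have e2 : 0 ≤ En (1 / 2 - α) f' (Ioc a b) := En_nonneg _ _
    have hval : ∀ n, z n ∈ Ioc a b → ‖f (z n)‖ ^ 2 ≤ M := by
      intro n hn
      rw [hM, le_div_iff₀ hMpos]
      have h1 := loc_upper hf.hd hf.cont' hσ hτ (a := a) (b := b) (z := z n) (Ioc_subset_Icc_self hn)
      have h2 := wy_sq (α := α) (δ := δ) (y0 := y0) k
      have h3 : 2 * (1 / 2 + α) * a - 2 * (1 / 2 - α) * a = 4 * α * a := by ring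
      rw [h3] at h1
      have h4 : (b - a) ^ 2 * Real.exp (4 * α * a) ≤ 1 := h2.trans (pow_le_one₀ hδ.le hδ1)
      calc _ = (b - a) * Real.exp (2 * (1 / 2 + α) * a) * ‖f (z n)‖ ^ 2 := by ring
        _ ≤ _ := h1
        _ = 2 * En (1 / 2 + α) f (Ioc a b) + 2 * ((b - a) ^ 2 * Real.exp (4 * α * a)) *
            En (1 / 2 - α) f' (Ioc a b) := by ring
        _ ≤ 2 * En (1 / 2 + α) f (Ioc a b) + 2 * 1 * En (1 / 2 - α) f' (Ioc a b) := by gcongr
        _ = _ := by ring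
    have hM0 : 0 ≤ M := by positivity
    calc _ ≤ ∑ n ∈ F with z n ∈ Ioc a b, v n * M := by
          apply Finset.sum_le_sum
          intro n hn
          rw [Finset.mem_filter] at hn
          exact mul_le_mul_of_nonneg_left (hval n hn.2) (hv n hn.1)
      _ = (∑ n ∈ F with z n ∈ Ioc a b, v n) * M := by rw [Finset.sum_mul]
      _ ≤ (ε * ((b - a) * Real.exp (2 * (1 / 2 + α) * a))) * M := mul_le_mul_of_nonneg_right (hw k) hM0
      _ = 2 * ε * (En (1 / 2 + α) f (Ioc a b) + En (1 / 2 - α) f' (Ioc a b)) := by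
          rw [hM]; field_simp
  have hdisj : ∀ k l : ℕ, k < l → Disjoint (Ioc (wy α δ y0 k) (wy α δ y0 (k + 1)))
      (Ioc (wy α δ y0 l) (wy α δ y0 (l + 1))) := by
    intro k l hkl
    rw [Set.disjoint_left]
    intro x h1 h2
    have := wy_mono (α := α) (y0 := y0) hδ (Nat.succ_le_of_lt hkl)
    rw [Nat.succ_eq_add_one] at this
    linarith [h1.2, h2.1]
  have hEsum : ∀ {ρ : ℝ} (_ : 0 < ρ) {g : ℝ → ℂ} (_ : Continuous g) (_ : Dec g) (K : ℕ),
      ∑ k ∈ Finset.range K, En ρ g (Ioc (wy α δ y0 k) (wy α δ y0 (k + 1))) ≤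
        En ρ g (Ioc (wy α δ y0 0) (wy α δ y0 K)) := by
    intro ρ hρ g hg hD K
    induction K with
    | zero => simp [En]
    | succ K ih =>
      rw [Finset.sum_range_succ]
      have h1 : En ρ g (Ioc (wy α δ y0 0) (wy α δ y0 (K + 1))) = En ρ g (Ioc (wy α δ y0 0) (wy α δ y0 K)) +
          En ρ g (Ioc (wy α δ y0 K) (wy α δ y0 (K + 1))) := by
        unfold En
        rw [← setIntegral_union (Set.Ioc_disjoint_Ioc_of_le le_rfl) measurableSet_Ioc
          (hD.int_sq hg hρ).integrableOn (hD.int_sq hg hρ).integrableOn,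
          Set.Ioc_union_Ioc_eq_Ioc (wy_mono hδ (Nat.zero_le K)) (wy_mono hδ (Nat.le_succ K))]
      linarith
  have hcov : ∑ n ∈ F, v n * ‖f (z n)‖ ^ 2 ≤ ∑ k ∈ Finset.range K,
      ∑ n ∈ F with z n ∈ Ioc (wy α δ y0 k) (wy α δ y0 (k + 1)), v n * ‖f (z n)‖ ^ 2 := by
    rw [← Finset.sum_fiberwise_of_maps_to (g := κ) (t := Finset.range K)
      (fun n hn => Finset.mem_range.2 (hK n hn))]
    apply Finset.sum_le_sum
    intro k _
    apply Finset.sum_le_sum_of_subset_of_nonneg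
    · intro n hn
      rw [Finset.mem_filter] at hn ⊢
      refine ⟨hn.1, ?_⟩
      have := hκ n hn.1
      rw [hn.2] at this
      exact this
    · intro n hn _
      rw [Finset.mem_filter] at hn
      exact mul_nonneg (hv n hn.1) (by positivity)
  refine hcov.trans ((Finset.sum_le_sum fun k _ => hwin k).trans ?_)
  rw [← Finset.mul_sum, Finset.sum_add_distrib]
  apply mul_le_mul_of_nonneg_left _ (by positivity)
  apply add_le_add
  · refine (hEsum hσ hf.cont hf.dec K).trans ?_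
    have := En_mono hσ hf.cont hf.dec (subset_univ (Ioc (wy α δ y0 0) (wy α δ y0 K)))
    unfold En at this ⊢
    rwa [Measure.restrict_univ] at this
  · refine (hEsum hτ hf.cont' hf.dec' K).trans ?_
    have := En_mono hτ hf.cont' hf.dec' (subset_univ (Ioc (wy α δ y0 0) (wy α δ y0 K)))
    unfold En at this ⊢
    rwa [Measure.restrict_univ] at this

/-- pointwise bound to the right of `y0` -/
theorem point_right (hα : 0 < α) (hα2 : α < 1 / 2) (hδ : 0 < δ) (hδ1 : δ ≤ 1) (hy0 : y0 ≤ 0) :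
    ∃ C : ℝ, 0 < C ∧ ∀ (E : ℝ) (f f' : ℝ → ℂ), Cls α E f f' → ∀ z : ℝ, y0 ≤ z →
      ‖f z‖ ^ 2 ≤ C * Real.exp (-z) * ((∫ y, Real.exp (2 * (1 / 2 + α) * y) * ‖f y‖ ^ 2) +
        ∫ y, Real.exp (2 * (1 / 2 - α) * y) * ‖f' y‖ ^ 2) := by
  have hσ : 0 < 1 / 2 + α := by linarith
  have hτ : 0 < 1 / 2 - α := by linarith
  refine ⟨2 / δ * Real.exp (-(2 * (1 / 2 + α)) * y0 + 2), by positivity, fun E f f' hf => ?_⟩
  set A := ∫ y, Real.exp (2 * (1 / 2 + α) * y) * ‖f y‖ ^ 2 with hA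
  set D := ∫ y, Real.exp (2 * (1 / 2 - α) * y) * ‖f' y‖ ^ 2 with hD
  have main : ∀ z : ℝ, y0 < z → ‖f z‖ ^ 2 ≤ 2 / δ * Real.exp (-(2 * (1 / 2 + α)) * y0 + 2) * Real.exp (-z) * (A + D) := by
    intro z hz
    obtain ⟨k, hk⟩ := wy_exists (α := α) hδ hz
    set a := wy α δ y0 k with ha
    set b := wy α δ y0 (k + 1) with hb
    have hay : y0 ≤ a := by
      have := wy_mono (α := α) (y0 := y0) hδ (Nat.zero_le k)
      simpa [wy] using this
    have hab : 0 < b - a := wy_pos hδ k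
    have hab1 : b - a ≤ 1 := (wy_le hδ k).trans hδ1
    have h1 := loc_upper hf.hd hf.cont' hσ hτ (a := a) (b := b) (z := z) (Ioc_subset_Icc_self hk)
    have h2 := wy_sq (α := α) (δ := δ) (y0 := y0) k
    have h3 : 2 * (1 / 2 + α) * a - 2 * (1 / 2 - α) * a = 4 * α * a := by ring
    rw [h3] at h1
    have h4 : (b - a) ^ 2 * Real.exp (4 * α * a) ≤ 1 := h2.trans (pow_le_one₀ hδ.le hδ1)
    have e1 : En (1 / 2 + α) f (Ioc a b) ≤ A := by
      have := En_mono hσ hf.cont hf.dec (subset_univ (Ioc a b))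
      unfold En at this ⊢
      rwa [Measure.restrict_univ] at this
    have e2 : En (1 / 2 - α) f' (Ioc a b) ≤ D := by
      have := En_mono hτ hf.cont' hf.dec' (subset_univ (Ioc a b))
      unfold En at this ⊢
      rwa [Measure.restrict_univ] at this
    have e3 : 0 ≤ En (1 / 2 - α) f' (Ioc a b) := En_nonneg _ _
    have h5 : (b - a) * Real.exp (2 * (1 / 2 + α) * a) * ‖f z‖ ^ 2 ≤ 2 * (A + D) := by
      calc _ ≤ _ := h1
        _ = 2 * En (1 / 2 + α) f (Ioc a b) + 2 * ((b - a) ^ 2 * Real.exp (4 * α * a)) *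
            En (1 / 2 - α) f' (Ioc a b) := by ring
        _ ≤ 2 * A + 2 * 1 * D := by gcongr
        _ = _ := by ring
    -- lower bound for the factor
    have h6 : δ * Real.exp ((2 * (1 / 2 + α)) * y0 - 2) * Real.exp z ≤
        (b - a) * Real.exp (2 * (1 / 2 + α) * a) := by
      have hzb : z ≤ a + 1 := by linarith [hk.2]
      rw [hb, ha, wy_step, ← ha, show δ * Real.exp ((2 * (1 / 2 + α)) * y0 - 2) * Real.exp z =
        δ * (Real.exp ((2 * (1 / 2 + α)) * y0 - 2) * Real.exp z) from by ring,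
        show δ * min 1 (Real.exp (-(2 * α * a))) * Real.exp (2 * (1 / 2 + α) * a) =
        δ * (min 1 (Real.exp (-(2 * α * a))) * Real.exp (2 * (1 / 2 + α) * a)) from by ring]
      apply mul_le_mul_of_nonneg_left _ hδ.le
      rw [← Real.exp_add]
      rcases le_total (Real.exp (-(2 * α * a))) 1 with hc | hc
      · rw [min_eq_right hc, ← Real.exp_add]
        apply Real.exp_le_exp.2
        have : 2 * (1 / 2 + α) * y0 ≤ 0 := by nlinarith
        nlinarith
      · rw [min_eq_left hc, one_mul]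
        apply Real.exp_le_exp.2
        have ha0 : a ≤ 0 := by
          have h7 : 0 ≤ -(2 * α * a) := by
            have := Real.log_nonneg hc
            rwa [Real.log_exp] at this
          nlinarith
        nlinarith
    have h7 : 0 ≤ A + D := by
      have : 0 ≤ (b - a) * Real.exp (2 * (1 / 2 + α) * a) * ‖f z‖ ^ 2 := by positivity
      linarith
    have h8 : δ * Real.exp ((2 * (1 / 2 + α)) * y0 - 2) * Real.exp z * ‖f z‖ ^ 2 ≤ 2 * (A + D) :=
      (mul_le_mul_of_nonneg_right h6 (by positivity)).trans h5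
    have e4 : Real.exp (-(2 * (1 / 2 + α)) * y0 + 2) * Real.exp ((2 * (1 / 2 + α)) * y0 - 2) = 1 := by
      rw [← Real.exp_add, ← Real.exp_zero]; congr 1; ring
    have e5 : Real.exp (-z) * Real.exp z = 1 := by
      rw [← Real.exp_add, ← Real.exp_zero]; congr 1; ring
    calc ‖f z‖ ^ 2 = 1 / δ * Real.exp (-(2 * (1 / 2 + α)) * y0 + 2) * Real.exp (-z) *
          (δ * Real.exp ((2 * (1 / 2 + α)) * y0 - 2) * Real.exp z * ‖f z‖ ^ 2) := by
          have : 1 / δ * Real.exp (-(2 * (1 / 2 + α)) * y0 + 2) * Real.exp (-z) *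
            (δ * Real.exp ((2 * (1 / 2 + α)) * y0 - 2) * Real.exp z * ‖f z‖ ^ 2) = (1 / δ * δ) *
            (Real.exp (-(2 * (1 / 2 + α)) * y0 + 2) * Real.exp ((2 * (1 / 2 + α)) * y0 - 2)) *
            (Real.exp (-z) * Real.exp z) * ‖f z‖ ^ 2 := by ring
          rw [this, e4, e5]
          field_simp
      _ ≤ 1 / δ * Real.exp (-(2 * (1 / 2 + α)) * y0 + 2) * Real.exp (-z) * (2 * (A + D)) := by gcongr
      _ = _ := by ring
  intro z hz
  rcases hz.eq_or_lt with rfl | hz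
  · have hc := hf.cont
    have t1 : Tendsto (fun z => ‖f z‖ ^ 2) (𝓝[>] y0) (𝓝 (‖f y0‖ ^ 2)) :=
      ((hc.norm.pow 2).tendsto y0).mono_left nhdsWithin_le_nhds
    have t2 : Tendsto (fun z => 2 / δ * Real.exp (-(2 * (1 / 2 + α)) * y0 + 2) * Real.exp (-z) * (A + D))
        (𝓝[>] y0) (𝓝 (2 / δ * Real.exp (-(2 * (1 / 2 + α)) * y0 + 2) * Real.exp (-y0) * (A + D))) :=
      ((by fun_prop : Continuous fun z => 2 / δ * Real.exp (-(2 * (1 / 2 + α)) * y0 + 2) *
        Real.exp (-z) * (A + D)).tendsto y0).mono_left nhdsWithin_le_nhds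
    exact le_of_tendsto_of_tendsto t1 t2 (by
      filter_upwards [self_mem_nhdsWithin] with z hz using main z hz)
  · exact main z hz

/-- pointwise bound to the left of `y0` -/
theorem point_left (hα : 0 < α) (hα2 : α < 1 / 2) (hδ : 0 < δ) (hδ1 : δ ≤ 1) (hy0 : y0 ≤ 0) :
    ∃ C : ℝ, 0 < C ∧ ∀ (E : ℝ) (f f' : ℝ → ℂ), Cls α E f f' → ∀ z : ℝ, z ≤ y0 →
      ‖f z‖ ^ 2 ≤ C * Real.exp (-(2 * (1 / 2 - α)) * z) * ((∫ y, Real.exp (2 * (1 / 2 + α) * y) * ‖f y‖ ^ 2) +
        ∫ y, Real.exp (2 * (1 / 2 - α) * y) * ‖f' y‖ ^ 2) := by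
  have hσ : 0 < 1 / 2 + α := by linarith
  have hτ : 0 < 1 / 2 - α := by linarith
  obtain ⟨C, hC, h⟩ := point_right hα hα2 hδ hδ1 hy0
  refine ⟨2 * C * Real.exp (-y0) + 1 / (1 / 2 - α), by positivity, fun E f f' hf z hz => ?_⟩
  set A := ∫ y, Real.exp (2 * (1 / 2 + α) * y) * ‖f y‖ ^ 2 with hA
  set D := ∫ y, Real.exp (2 * (1 / 2 - α) * y) * ‖f' y‖ ^ 2 with hD
  have hA0 : 0 ≤ A := integral_nonneg fun y => by positivity
  have hD0 : 0 ≤ D := integral_nonneg fun y => by positivity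
  have h1 := h E f f' hf y0 le_rfl
  have k1 := incr hf.hd hf.cont' (1 / 2 - α) hz
  have k2 := (expInt_le hτ hz).1
  have k3 : ∫ v in z..y0, Real.exp (2 * (1 / 2 - α) * v) * ‖f' v‖ ^ 2 ≤ D := by
    rw [En_interval hz]
    have := En_mono hτ hf.cont' hf.dec' (subset_univ (Ioc z y0))
    unfold En at this ⊢
    rwa [Measure.restrict_univ] at this
  have k4 : 0 ≤ ∫ v in z..y0, Real.exp (2 * (1 / 2 - α) * v) * ‖f' v‖ ^ 2 :=
    intervalIntegral.integral_nonneg hz (fun v _ => by positivity)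
  have k5 : ‖f y0 - f z‖ ^ 2 ≤ Real.exp (-(2 * (1 / 2 - α) * z)) / (2 * (1 / 2 - α)) * D :=
    k1.trans (mul_le_mul k2 k3 k4 (by positivity))
  have k6 := sq_le_two (f z) (f y0)
  rw [norm_sub_rev] at k6
  have e1 : Real.exp (-(2 * (1 / 2 - α) * z)) = Real.exp (-(2 * (1 / 2 - α)) * z) := by congr 1; ring
  rw [e1] at k5
  have e2 : 1 ≤ Real.exp (-(2 * (1 / 2 - α)) * z) := by
    apply Real.one_le_exp
    have : z ≤ 0 := hz.trans hy0
    nlinarith
  have e3 : 2 * (C * Real.exp (-y0) * (A + D)) ≤ 2 * C * Real.exp (-y0) * Real.exp (-(2 * (1 / 2 - α)) * z) * (A + D) := by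
    have : 2 * (C * Real.exp (-y0) * (A + D)) * 1 ≤ 2 * (C * Real.exp (-y0) * (A + D)) *
      Real.exp (-(2 * (1 / 2 - α)) * z) := mul_le_mul_of_nonneg_left e2 (by positivity)
    calc _ = 2 * (C * Real.exp (-y0) * (A + D)) * 1 := by ring
      _ ≤ _ := this
      _ = _ := by ring
  calc ‖f z‖ ^ 2 ≤ 2 * ‖f y0‖ ^ 2 + 2 * ‖f y0 - f z‖ ^ 2 := k6
    _ ≤ 2 * (C * Real.exp (-y0) * (A + D)) +
        2 * (Real.exp (-(2 * (1 / 2 - α)) * z) / (2 * (1 / 2 - α)) * D) := by gcongr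
    _ ≤ 2 * C * Real.exp (-y0) * Real.exp (-(2 * (1 / 2 - α)) * z) * (A + D) +
        2 * (Real.exp (-(2 * (1 / 2 - α)) * z) / (2 * (1 / 2 - α)) * (A + D)) := by
          gcongr
          linarith
    _ = _ := by field_simp

end

end Pool.Agent.H483.SA
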