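import Pool.Agent.H483.FE.Samp

set_option autoImplicit false

/-!
# The energy inequality for `h(y) / (y - i)`, `h` good
-/

namespace Pool.Agent.H483.SA

open MeasureTheory Set Filter Topology Complex FourierTransform
open Pool.Agent.H336R4.PF Pool.Agent.H483.FE
open scoped ComplexConjugate

lemma ED.small {G : ℝ → ℂ} (h : ED G) : ∃ C δ : ℝ, 0 ≤ C ∧ 0 < δ ∧ δ ≤ 1 ∧
    ∀ t : ℝ, ‖G t‖ ≤ C * Real.exp (-δ * |t|) := by
  obtain ⟨-, C, δ, hδ, hb⟩ := h
  refine ⟨|C|, min δ 1, abs_nonneg _, lt_min hδ one_pos, min_le_right _ _, fun t => ?_⟩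
  refine (hb t).trans ?_
  have h1 : -δ * |t| ≤ -(min δ 1) * |t| := by
    have := min_le_left δ 1
    nlinarith [abs_nonneg t]
  exact mul_le_mul (le_abs_self _) (Real.exp_le_exp.2 h1) (Real.exp_pos _).le (abs_nonneg _)

/-- solution of `Φ + Φ' / (2π) = i G` -/
lemma exists_sol {G : ℝ → ℂ} (hG : ED G) : ∃ Φ : ℝ → ℂ, ED Φ ∧
    ∀ t, HasDerivAt Φ (2 * Real.pi * (I * G t - Φ t)) t := by
  obtain ⟨C, δ, hC0, hδ0, hδ1, hC⟩ := ED.small hG
  have hpi := Real.pi_gt_three
  have hGc := hG.1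
  set P : ℝ := 2 * Real.pi with hP
  have hP6 : 6 < P := by rw [hP]; linarith
  set u : ℝ → ℂ := fun v => (Real.exp (P * v) : ℂ) * G v with hu
  have huc : Continuous u := by rw [hu]; fun_prop
  have hub : ∀ v, ‖u v‖ ≤ C * Real.exp (P * v - δ * |v|) := by
    intro v
    rw [hu]
    simp only
    rw [norm_mul, Complex.norm_real, Real.norm_eq_abs, Real.abs_exp]
    calc _ ≤ Real.exp (P * v) * (C * Real.exp (-δ * |v|)) := by gcongr; exact hC v
      _ = C * (Real.exp (P * v) * Real.exp (-δ * |v|)) := by ring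
      _ = _ := by rw [← Real.exp_add]; congr 2; ring
  have hui : ∀ t : ℝ, IntegrableOn u (Iic t) := by
    have h0 : IntegrableOn u (Iic 0) := by
      have i1 : IntegrableOn (fun v : ℝ => C * Real.exp (P * v)) (Iic 0) :=
        (integrableOn_exp_mul_Iic (by linarith) 0).const_mul C
      refine i1.mono' huc.aestronglyMeasurable (Eventually.of_forall fun v => (hub v).trans ?_)
      gcongr
      have := mul_nonneg hδ0.le (abs_nonneg v)
      linarith
    intro t
    rcases le_total t 0 with ht | ht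
    · exact h0.mono_set (Iic_subset_Iic.2 ht)
    · rw [← Iic_union_Ioc_eq_Iic ht]
      exact h0.union ((huc.integrableOn_Icc (a := 0) (b := t)).mono_set Ioc_subset_Icc_self)
  set V : ℝ → ℂ := fun t => ∫ v in Iic t, u v with hV
  have hVd : ∀ t, HasDerivAt V (u t) t := by
    intro t
    have e : V = fun t => (∫ v in Iic (0:ℝ), u v) + ∫ v in (0:ℝ)..t, u v := by
      funext x
      rw [intervalIntegral.integral_Iic_sub_Iic (hui 0) (hui x) |>.symm]
      simp [hV]
    rw [e]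
    have := (intervalIntegral.integral_hasDerivAt_right (huc.intervalIntegrable 0 t)
      huc.stronglyMeasurable.stronglyMeasurableAtFilter huc.continuousAt).const_add
      (∫ v in Iic (0:ℝ), u v)
    exact this
  have hVc : Continuous V := by
    rw [continuous_iff_continuousAt]; exact fun t => (hVd t).continuousAt
  refine ⟨fun t => P * I * (Real.exp (-(P * t)) : ℂ) * V t, ⟨by fun_prop, ?_⟩, fun t => ?_⟩
  · -- decay
    have hPδ : 0 < P - δ := by linarith
    have hPδ' : 0 < P + δ := by linarith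
    have A1 : ∀ t : ℝ, t ≤ 0 → ‖V t‖ ≤ C * Real.exp ((P + δ) * t) := by
      intro t ht
      rw [hV]
      simp only
      calc _ ≤ ∫ v in Iic t, ‖u v‖ := norm_integral_le_integral_norm _
        _ ≤ ∫ v in Iic t, C * Real.exp ((P + δ) * v) := by
            apply setIntegral_mono_on (hui t).norm
              ((integrableOn_exp_mul_Iic hPδ' t).const_mul C) measurableSet_Iic
            intro v hv
            have hv : v ≤ t := hv
            refine (hub v).trans (le_of_eq ?_)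
            rw [abs_of_nonpos (by linarith)]
            congr 2
            ring
        _ = C * (Real.exp ((P + δ) * t) / (P + δ)) := by
            rw [integral_const_mul, integral_exp_mul_Iic hPδ']
        _ ≤ _ := by
            gcongr
            apply div_le_self (Real.exp_pos _).le
            linarith
    have A2 : ∀ t : ℝ, 0 ≤ t → ‖V t‖ ≤ 2 * C * Real.exp ((P - δ) * t) := by
      intro t ht
      have e : V t = V 0 + ∫ v in (0:ℝ)..t, u v := by
        rw [intervalIntegral.integral_Iic_sub_Iic (hui 0) (hui t) |>.symm]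
        simp [hV]
      have h1 := A1 0 le_rfl
      rw [mul_zero, Real.exp_zero, mul_one] at h1
      have h2 : ‖∫ v in (0:ℝ)..t, u v‖ ≤ C * Real.exp ((P - δ) * t) := by
        calc _ ≤ ∫ v in (0:ℝ)..t, ‖u v‖ := intervalIntegral.norm_integral_le_integral_norm ht
          _ ≤ ∫ v in (0:ℝ)..t, C * Real.exp ((P - δ) * v) := by
              apply intervalIntegral.integral_mono_on ht
              · exact (by fun_prop : Continuous fun v : ℝ => ‖u v‖).intervalIntegrable _ _
              · exact (by fun_prop : Continuous fun v : ℝ => C * Real.exp ((P - δ) * v)).intervalIntegrable _ _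
              · intro v hv
                refine (hub v).trans (le_of_eq ?_)
                rw [abs_of_nonneg hv.1]
                congr 2
                ring
          _ = C * ((Real.exp ((P - δ) * t) - 1) / (P - δ)) := by
              rw [intervalIntegral.integral_const_mul]
              congr 1
              have hd : ∀ v ∈ uIcc (0:ℝ) t, HasDerivAt (fun v : ℝ => Real.exp ((P - δ) * v) / (P - δ))
                  (Real.exp ((P - δ) * v)) v := by
                intro v _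
                have h2 : HasDerivAt (fun v : ℝ => (P - δ) * v) (P - δ) v := by
                  simpa using! (hasDerivAt_id v).const_mul (P - δ)
                have h3 := h2.exp.div_const (P - δ)
                refine h3.congr_deriv ?_
                field_simp
              rw [intervalIntegral.integral_eq_sub_of_hasDerivAt hd
                ((by fun_prop : Continuous fun v : ℝ => Real.exp ((P - δ) * v)).intervalIntegrable _ _)]
              simp only [mul_zero, Real.exp_zero]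
              ring
          _ ≤ _ := by
              gcongr
              have h3 : 0 ≤ Real.exp ((P - δ) * t) - 1 := by
                have := Real.add_one_le_exp ((P - δ) * t)
                nlinarith [mul_nonneg hPδ.le ht]
              refine (div_le_self h3 (by linarith)).trans (by linarith)
      rw [e]
      refine (norm_add_le _ _).trans ?_
      have h3 : 1 ≤ Real.exp ((P - δ) * t) := Real.one_le_exp (by positivity)
      nlinarith
    refine ⟨P * (2 * C), δ, hδ0, fun t => ?_⟩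
    rw [norm_mul, norm_mul, norm_mul, Complex.norm_real, Complex.norm_real, Complex.norm_I, mul_one,
      Real.norm_eq_abs, Real.norm_eq_abs, Real.abs_exp, abs_of_pos (by linarith : 0 < P)]
    rcases le_total t 0 with ht | ht
    · calc _ ≤ P * Real.exp (-(P * t)) * (C * Real.exp ((P + δ) * t)) := by gcongr; exact A1 t ht
        _ = P * C * (Real.exp (-(P * t)) * Real.exp ((P + δ) * t)) := by ring
        _ = P * C * Real.exp (-δ * |t|) := by
            rw [← Real.exp_add, abs_of_nonpos ht]; congr 2; ring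
        _ ≤ P * (2 * C) * Real.exp (-δ * |t|) := by
            have : 0 ≤ P * C * Real.exp (-δ * |t|) := by positivity
            linarith
    · calc _ ≤ P * Real.exp (-(P * t)) * (2 * C * Real.exp ((P - δ) * t)) := by gcongr; exact A2 t ht
        _ = P * (2 * C) * (Real.exp (-(P * t)) * Real.exp ((P - δ) * t)) := by ring
        _ = P * (2 * C) * Real.exp (-δ * |t|) := by
            rw [← Real.exp_add, abs_of_nonneg ht]; congr 2; ring
  · -- equation
    have h1 : HasDerivAt (fun t : ℝ => (Real.exp (-(P * t)) : ℂ)) (((-P * Real.exp (-(P * t)) : ℝ)) : ℂ) t := by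
      have h2 : HasDerivAt (fun v : ℝ => -(P * v)) (-P) t := by
        simpa using! ((hasDerivAt_id t).const_mul P).neg
      have h3 := h2.exp.ofReal_comp
      refine h3.congr_deriv ?_
      push_cast
      ring
    have h4 := (h1.const_mul (P * I : ℂ)).mul (hVd t)
    refine h4.congr_deriv ?_
    simp only [hu]
    have h5 : (Real.exp (-(P * t)) : ℂ) * (Real.exp (P * t) : ℂ) = 1 := by
      rw [← Complex.ofReal_mul, ← Real.exp_add]; simp
    push_cast [hP] at *
    linear_combination (2 * (Real.pi:ℂ) * I * G t) * h5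

lemma fourier_sol {G Φ : ℝ → ℂ} (hG : ED G) (hΦ : ED Φ)
    (hd : ∀ t, HasDerivAt Φ (2 * Real.pi * (I * G t - Φ t)) t) (y : ℝ) :
    ((y : ℂ) - I) * 𝓕 Φ y = 𝓕 G y := by
  have hder : deriv Φ = fun t => 2 * Real.pi * (I * G t - Φ t) := by
    funext t; exact (hd t).deriv
  have hi : Integrable (deriv Φ) := by
    rw [hder]
    exact ((hG.int.const_mul I).sub hΦ.int).const_mul _
  have h1 := Real.fourier_deriv hΦ.int (fun t => (hd t).differentiableAt) hi
  have h2 := congrFun h1 y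
  simp only [smul_eq_mul] at h2
  have h3 : 𝓕 (deriv Φ) y = 2 * Real.pi * (I * 𝓕 G y - 𝓕 Φ y) := by
    rw [hder, Real.fourier_real_eq, Real.fourier_real_eq, Real.fourier_real_eq, ← integral_const_mul,
      ← integral_sub, ← integral_const_mul]
    · congr 1
      funext t
      simp only [Circle.smul_def, smul_eq_mul]
      ring
    · refine Integrable.const_mul ?_ _
      have := (Real.fourierIntegral_convergent_iff (μ := volume) (f := G) y).2 hG.int
      simpa [mul_comm] using this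
    · have := (Real.fourierIntegral_convergent_iff (μ := volume) (f := Φ) y).2 hΦ.int
      simpa [mul_comm] using this
  rw [h3] at h2
  have hpi : (Real.pi : ℂ) ≠ 0 := by exact_mod_cast Real.pi_ne_zero
  have h4 : I * 𝓕 G y - 𝓕 Φ y = I * y * 𝓕 Φ y := by
    have : (2 * Real.pi : ℂ) * (I * 𝓕 G y - 𝓕 Φ y) = (2 * Real.pi : ℂ) * (I * y * 𝓕 Φ y) := by
      rw [h2]; ring
    exact mul_left_cancel₀ (mul_ne_zero two_ne_zero hpi) this
  have hI : I * I = -1 := Complex.I_mul_I
  linear_combination (I) * h4 - (𝓕 G y) * hI + (y * 𝓕 Φ y) * hI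

lemma sq_int {G : ℝ → ℂ} (h : ED G) : Integrable (fun t => (1 + t ^ 2) * ‖G t‖ ^ 2) := by
  obtain ⟨hc, C, δ, hδ, hb⟩ := h
  obtain ⟨C', hC', h'⟩ := polyexp (A := 2) (δ := δ) (by norm_num) hδ
  refine Integrable.mono' ((integrable_exp_abs hδ).const_mul (C ^ 2 * C')) (by fun_prop)
    (Eventually.of_forall fun t => ?_)
  rw [norm_mul, norm_pow, norm_norm, Real.norm_eq_abs, abs_of_pos (by positivity)]
  have h1 : ‖G t‖ ^ 2 ≤ C ^ 2 * Real.exp (-(2 * δ) * |t|) := by
    refine (pow_le_pow_left₀ (norm_nonneg _) (hb t) 2).trans (le_of_eq ?_)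
    rw [mul_pow, ← Real.exp_nat_mul]
    congr 2
    push_cast
    ring
  have h2 : 1 + t ^ 2 ≤ (1 + |t|) ^ (2:ℝ) := by
    rw [Real.rpow_two]
    nlinarith [abs_nonneg t, sq_abs t]
  calc _ ≤ (1 + |t|) ^ (2:ℝ) * (C ^ 2 * Real.exp (-(2 * δ) * |t|)) := by gcongr
    _ = C ^ 2 * ((1 + |t|) ^ (2:ℝ) * Real.exp (-(2 * δ) * |t|)) := by ring
    _ ≤ C ^ 2 * (C' * Real.exp (-δ * |t|)) := mul_le_mul_of_nonneg_left (h' t) (by positivity)
    _ = _ := by ring

lemma ED.add {F G : ℝ → ℂ} (hF : ED F) (hG : ED G) : ED (fun t => F t + G t) := by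
  obtain ⟨C, δ, hC, hδ, -, h1⟩ := ED.small hF
  obtain ⟨C', δ', hC', hδ', -, h2⟩ := ED.small hG
  refine ⟨hF.1.add hG.1, C + C', min δ δ', lt_min hδ hδ', fun t => ?_⟩
  have a := abs_nonneg t
  have b1 : Real.exp (-δ * |t|) ≤ Real.exp (-(min δ δ') * |t|) := by
    apply Real.exp_le_exp.2; nlinarith [min_le_left δ δ']
  have b2 : Real.exp (-δ' * |t|) ≤ Real.exp (-(min δ δ') * |t|) := by
    apply Real.exp_le_exp.2; nlinarith [min_le_right δ δ']
  calc _ ≤ ‖F t‖ + ‖G t‖ := norm_add_le _ _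
    _ ≤ C * Real.exp (-δ * |t|) + C' * Real.exp (-δ' * |t|) := add_le_add (h1 t) (h2 t)
    _ ≤ C * Real.exp (-(min δ δ') * |t|) + C' * Real.exp (-(min δ δ') * |t|) := by gcongr
    _ = _ := by ring

lemma ED.bmul {F b : ℝ → ℂ} (hF : ED F) (hb : Continuous b) {B : ℝ} (hB : ∀ t, ‖b t‖ ≤ B) :
    ED (fun t => b t * F t) := by
  obtain ⟨C, δ, hC, hδ, -, h1⟩ := ED.small hF
  have hB0 : 0 ≤ B := (norm_nonneg _).trans (hB 0)
  refine ⟨hb.mul hF.1, B * C, δ, hδ, fun t => ?_⟩
  rw [norm_mul]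
  calc _ ≤ B * (C * Real.exp (-δ * |t|)) := mul_le_mul (hB t) (h1 t) (norm_nonneg _) hB0
    _ = _ := by ring

lemma ED.conj' {F : ℝ → ℂ} (hF : ED F) : ED (fun t => conj (F t)) := by
  obtain ⟨hc, C, δ, hδ, h1⟩ := hF
  exact ⟨Complex.continuous_conj.comp hc, C, δ, hδ, fun t => by rw [Complex.norm_conj]; exact h1 t⟩

/-- the weighted estimate for the differential equation `X' = - 2π X - R` -/
lemma ode_bound {X R : ℝ → ℂ} (hX : ED X) (hR : ED R)
    (hd : ∀ t, HasDerivAt X (-(2 * Real.pi) * X t - R t) t) :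
    ∫ t, (1 + t ^ 2) * ‖X t‖ ^ 2 ≤ ∫ t, (1 + t ^ 2) * ‖R t‖ ^ 2 := by
  have hpi := Real.pi_gt_three
  have iX := sq_int hX
  have iR := sq_int hR
  set g : ℝ → ℝ := fun t => (1 + t ^ 2) * ‖X t‖ ^ 2 with hg
  set g' : ℝ → ℝ := fun t => 2 * t * ‖X t‖ ^ 2 + (1 + t ^ 2) * (2 * (conj (X t) * (-(2 * Real.pi) * X t - R t)).re)
    with hg'
  have hder : ∀ t, HasDerivAt g (g' t) t := by
    intro t
    have h1 : HasDerivAt (fun t : ℝ => 1 + t ^ 2) (2 * t) t := by
      simpa using! ((hasDerivAt_id t).pow 2).const_add 1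
    have h2 : HasDerivAt (fun t => ‖X t‖ ^ 2) (2 * (conj (X t) * (-(2 * Real.pi) * X t - R t)).re) t := by
      have := (hd t).norm_sq
      refine this.congr_deriv ?_
      congr 1
      rw [Complex.inner, mul_comm]
    have := h1.mul h2
    exact this
  have hb : ∀ t, g' t ≤ -4 * g t + (1 + t ^ 2) * ‖R t‖ ^ 2 ∧ |g' t| ≤ 20 * g t + (1 + t ^ 2) * ‖R t‖ ^ 2 := by
    intro t
    have e1 : (conj (X t) * (-(2 * Real.pi) * X t - R t)).re =
        -(2 * Real.pi) * ‖X t‖ ^ 2 - (conj (X t) * R t).re := by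
      have : conj (X t) * (-(2 * Real.pi) * X t - R t) = ((-(2 * Real.pi) * ‖X t‖ ^ 2 : ℝ) : ℂ) -
          conj (X t) * R t := by
        have h3 : conj (X t) * X t = ((‖X t‖ ^ 2 : ℝ) : ℂ) := by
          rw [mul_comm, Complex.mul_conj, Complex.normSq_eq_norm_sq]
        push_cast at h3 ⊢
        linear_combination (-(2 * (Real.pi:ℂ))) * h3
      rw [this, Complex.sub_re, Complex.ofReal_re]
    have e2 : |(conj (X t) * R t).re| ≤ ‖X t‖ * ‖R t‖ := by
      refine (Complex.abs_re_le_norm _).trans ?_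
      rw [norm_mul, Complex.norm_conj]
    have e3 : 2 * (‖X t‖ * ‖R t‖) ≤ ‖X t‖ ^ 2 + ‖R t‖ ^ 2 := by nlinarith [sq_nonneg (‖X t‖ - ‖R t‖)]
    have e4 : |2 * t * ‖X t‖ ^ 2| ≤ (1 + t ^ 2) * ‖X t‖ ^ 2 := by
      rw [abs_mul, abs_of_nonneg (by positivity : 0 ≤ ‖X t‖ ^ 2)]
      gcongr
      rw [abs_le]
      constructor <;> nlinarith [sq_nonneg (t - 1), sq_nonneg (t + 1)]
    have e5 : 0 ≤ ‖X t‖ ^ 2 := by positivity
    have e6 : 0 ≤ t ^ 2 := by positivity
    have e7 : 0 ≤ (1 + t ^ 2) * ‖X t‖ ^ 2 := by positivity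
    rw [abs_le] at e2 e4
    have hpi4 := Real.pi_lt_four
    have key1 : (1 + t ^ 2) * (2 * (conj (X t) * R t).re) ≤ (1 + t ^ 2) * (‖X t‖ ^ 2 + ‖R t‖ ^ 2) := by
      apply mul_le_mul_of_nonneg_left _ (by positivity)
      linarith [e2.2]
    have key2 : -((1 + t ^ 2) * (‖X t‖ ^ 2 + ‖R t‖ ^ 2)) ≤ (1 + t ^ 2) * (2 * (conj (X t) * R t).re) := by
      rw [← mul_neg]
      apply mul_le_mul_of_nonneg_left _ (by positivity)
      linarith [e2.1]
    have e8 : g' t = 2 * t * ‖X t‖ ^ 2 - 4 * Real.pi * g t - (1 + t ^ 2) * (2 * (conj (X t) * R t).re) := by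
      rw [hg', hg]; simp only; rw [e1]; ring
    have e9 : g t = (1 + t ^ 2) * ‖X t‖ ^ 2 := rfl
    rw [e8]
    have m1 : 3 * g t ≤ Real.pi * g t := mul_le_mul_of_nonneg_right hpi.le e7
    have m2 : Real.pi * g t ≤ 4 * g t := mul_le_mul_of_nonneg_right hpi4.le e7
    constructor
    · nlinarith
    · rw [abs_le]
      constructor <;> nlinarith
  have hcont : Continuous g' := by
    have h1 := hX.1
    have h2 := hR.1
    rw [hg']
    fun_prop
  have hgi : Integrable g' := by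
    refine Integrable.mono' ((iX.const_mul 20).add iR) hcont.aestronglyMeasurable
      (Eventually.of_forall fun t => ?_)
    exact (hb t).2
  have h0 := integral_eq_zero_of_hasDerivAt_of_integrable hder hgi iX
  have h1 : ∫ t, g' t ≤ ∫ t, (-4 * g t + (1 + t ^ 2) * ‖R t‖ ^ 2) :=
    integral_mono hgi ((iX.const_mul (-4)).add iR) (fun t => (hb t).1)
  rw [h0, integral_add (iX.const_mul (-4)) iR, integral_const_mul] at h1
  have h2 : 0 ≤ ∫ t, g t := integral_nonneg fun t => by positivity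
  linarith

/-- derivative of a function with representations on all lines -/
lemma rep_deriv {h : ℝ → ℂ} {G : ℝ → ℝ → ℂ} (hED : ∀ σ : ℝ, 0 < σ → ED (G σ))
    (hr : ∀ σ : ℝ, 0 < σ → ∀ y : ℝ, h y = cexp (-(σ * y : ℝ)) * 𝓕 (G σ) y) :
    ∃ h' : ℝ → ℂ, (∀ y, HasDerivAt h (h' y) y) ∧ Continuous h' ∧
      (∀ σ : ℝ, 0 < σ → ED (fun t => -(ln σ t) * G σ t)) ∧
      ∀ σ : ℝ, 0 < σ → ∀ y : ℝ, h' y = cexp (-(σ * y : ℝ)) * 𝓕 (fun t => -(ln σ t) * G σ t) y := by
  set G' : ℝ → ℝ → ℂ := fun σ t => -(ln σ t) * G σ t with hG'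
  have hED' : ∀ σ : ℝ, 0 < σ → ED (G' σ) := by
    intro σ hσ
    have := (hED σ hσ).mul_aff (-σ) (-(2 * Real.pi * I))
    have e : G' σ = fun t : ℝ => (-(σ:ℂ) + -(2 * Real.pi * I) * t) * G σ t := by
      funext t
      simp only [hG']
      congr 1
      unfold ln
      push_cast
      ring
    rw [e]
    exact this
  have hder : ∀ σ : ℝ, 0 < σ → ∀ y : ℝ, HasDerivAt h (cexp (-(σ * y : ℝ)) * 𝓕 (G' σ) y) y := by
    intro σ hσ y
    have h1 := Real.hasDerivAt_fourier (hED σ hσ).int (by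
      have := ((hED σ hσ).mul_aff 0 1).int
      simpa [Complex.real_smul] using this) y
    have h2 : HasDerivAt (fun y : ℝ => cexp (-(σ * y : ℝ))) (-σ * cexp (-(σ * y : ℝ))) y := by
      have h3 : HasDerivAt (fun y : ℝ => (-(σ * y : ℝ) : ℂ)) (-σ : ℂ) y := by
        have : HasDerivAt (fun y : ℝ => ((-σ * y : ℝ) : ℂ)) ((-σ : ℝ) : ℂ) y := by
          have := ((hasDerivAt_id y).const_mul (-σ)).ofReal_comp
          simpa using this
        convert this using 1
        · funext y; push_cast; ring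
        · push_cast; ring
      have := h3.cexp
      convert this using 1
      ring
    have h3 := h2.mul h1
    have h4 : h = fun y : ℝ => cexp (-(σ * y : ℝ)) * 𝓕 (G σ) y := funext (hr σ hσ)
    rw [h4]
    refine h3.congr_deriv ?_
    have h5 : 𝓕 (G' σ) y = -σ * 𝓕 (G σ) y + 𝓕 (fun x : ℝ => (-2 * Real.pi * I * x) • G σ x) y := by
      rw [Real.fourier_real_eq, Real.fourier_real_eq, Real.fourier_real_eq, ← integral_const_mul,
        ← integral_add]
      · apply integral_congr_ae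
        refine Eventually.of_forall fun t => ?_
        simp only [hG', Circle.smul_def, smul_eq_mul, ln]
        push_cast
        ring
      · have := (Real.fourierIntegral_convergent_iff (μ := volume) (f := G σ) y).2 (hED σ hσ).int
        refine (Integrable.const_mul (c := (-σ : ℂ)) ?_)
        simpa [mul_comm] using this
      · have := (Real.fourierIntegral_convergent_iff (μ := volume)
          (f := fun x : ℝ => (-2 * Real.pi * I * x) • G σ x) y).2 (by
            have := ((hED σ hσ).mul_aff 0 (-2 * Real.pi * I)).int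
            simpa using this)
        simpa [mul_comm] using this
    rw [h5]
    ring
  refine ⟨fun y => cexp (-((1:ℝ) * y : ℝ)) * 𝓕 (G' 1) y, hder 1 one_pos, ?_, hED', ?_⟩
  · have : Continuous (𝓕 (G' 1)) :=
      VectorFourier.fourierIntegral_continuous Real.continuous_fourierChar continuous_inner (hED' 1 one_pos).int
    fun_prop
  · intro σ hσ y
    exact (hder 1 one_pos y).unique (hder σ hσ y)

/-- Admissible kernels with a smooth ratio. -/
structure Adm2 (γ : ℂ → ℂ) (α : ℝ) : Prop extends Adm γ α where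
  rho : ∃ (ρ ρ' : ℝ → ℂ) (C : ℝ), (∀ t, HasDerivAt ρ (ρ' t) t) ∧ Continuous ρ' ∧
    (∀ t, (1 + |t|) * ‖ρ t‖ ≤ C) ∧ (∀ t, (1 + |t|) * ‖ρ' t‖ ≤ C) ∧
    ∀ t, γ (ln (1 / 2 - α) t) = ρ t * conj (γ (ln (1 / 2 + α) t))

/-- the divided function -/
noncomputable def dv (h : ℝ → ℂ) (y : ℝ) : ℂ := h y / ((y : ℂ) - I)

lemma sub_I_ne (y : ℝ) : ((y : ℂ) - I) ≠ 0 := by
  intro h
  have := congrArg Complex.im h
  simp at this

/-- the ratio of the values on the two lines, with an explicit constant -/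
def Rho (γ : ℂ → ℂ) (α C : ℝ) : Prop := ∃ ρ ρ' : ℝ → ℂ, (∀ t, HasDerivAt ρ (ρ' t) t) ∧ Continuous ρ' ∧
    (∀ t, (1 + |t|) * ‖ρ t‖ ≤ C) ∧ (∀ t, (1 + |t|) * ‖ρ' t‖ ≤ C) ∧
    ∀ t, γ (ln (1 / 2 - α) t) = ρ t * conj (γ (ln (1 / 2 + α) t))

lemma Adm2.rho' {γ : ℂ → ℂ} {α : ℝ} (A : Adm2 γ α) : ∃ C : ℝ, 0 ≤ C ∧ Rho γ α C := by
  obtain ⟨ρ, ρ', C, hρd, hρc', hρ, hρ', hρe⟩ := A.rho
  exact ⟨C, le_trans (by positivity) (hρ 0), ρ, ρ', hρd, hρc', hρ, hρ', hρe⟩

/-- The energy inequality for `h(y) / (y - i)`. -/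
theorem dv_energy {γ : ℂ → ℂ} {α C : ℝ} (A : Adm γ α) (hC0 : 0 ≤ C) (hR : Rho γ α C) : ∀ h : ℝ → ℂ, Good γ h →
    ∃ f' : ℝ → ℂ, (∀ y, HasDerivAt (dv h) (f' y) y) ∧ Continuous f' ∧ Dec (dv h) ∧ Dec f' ∧
    ∫ y, Real.exp (2 * (1 / 2 - α) * y) * ‖f' y‖ ^ 2 ≤
      (50 * (4 * C ^ 2)) * ∫ y, Real.exp (2 * (1 / 2 + α) * y) * ‖dv h y‖ ^ 2 := by
  obtain ⟨ρ, ρ', hρd, hρc', hρ, hρ', hρe⟩ := hR
  rintro h ⟨p, hpc, hpb, hps, hr⟩
  have hm : 0 < 1 / 2 - α := by have := A.lt; linarith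
  have hp : 0 < 1 / 2 + α := by have := A.pos; linarith
  have hED : ∀ σ : ℝ, 0 < σ → ED (fun t : ℝ => γ (ln σ t) * p (ln σ t)) :=
    fun σ hσ => GG_ED A hpc hpb hσ
  set G : ℝ → ℝ → ℂ := fun σ t => γ (ln σ t) * p (ln σ t) with hG
  have hsol : ∀ σ : ℝ, ∃ Φ : ℝ → ℂ, 0 < σ → ED Φ ∧
      ∀ t, HasDerivAt Φ (2 * Real.pi * (I * G σ t - Φ t)) t := by
    intro σ
    by_cases hσ : 0 < σ
    · obtain ⟨Φ, h1, h2⟩ := exists_sol (hED σ hσ)
      exact ⟨Φ, fun _ => ⟨h1, h2⟩⟩
    · exact ⟨0, fun h => absurd h hσ⟩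
  choose Φ hΦ using hsol
  have hrep : ∀ σ : ℝ, 0 < σ → ∀ y : ℝ, dv h y = cexp (-(σ * y : ℝ)) * 𝓕 (Φ σ) y := by
    intro σ hσ y
    have h1 := fourier_sol (hED σ hσ) (hΦ σ hσ).1 (hΦ σ hσ).2 y
    unfold dv
    rw [hr σ hσ y, div_eq_iff (sub_I_ne y)]
    have h2 : 𝓕 (fun t : ℝ => γ (ln σ t) * p (ln σ t)) y = ((y : ℂ) - I) * 𝓕 (Φ σ) y := h1.symm
    rw [h2]
    ring
  obtain ⟨f', hf', hfc', hED', hrep'⟩ := rep_deriv (fun σ hσ => (hΦ σ hσ).1) hrep
  have hDf : Dec (dv h) := dec_of_rep hrep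
  have hDf' : Dec f' := dec_of_rep (G := fun σ t => -(ln σ t) * Φ σ t) hrep'
  have hcf : Continuous (dv h) := by
    rw [continuous_iff_continuousAt]; exact fun y => (hf' y).continuousAt
  refine ⟨f', hf', hfc', hDf, hDf', ?_⟩
  rw [energy_eq (hED' _ hm) hfc' hDf' hm (hrep' _ hm), energy_eq (hΦ _ hp).1 hcf hDf hp (hrep _ hp)]
  -- the functions on the two lines
  set U : ℝ → ℂ := Φ (1 / 2 + α) with hU
  set L : ℝ → ℂ := Φ (1 / 2 - α) with hL
  have hUE : ED U := (hΦ _ hp).1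
  have hLE : ED L := (hΦ _ hm).1
  have hρc : Continuous ρ := by
    rw [continuous_iff_continuousAt]; exact fun t => (hρd t).continuousAt
  have b1 : ∀ t, ‖ρ t‖ ≤ C := by
    intro t
    refine le_trans ?_ (hρ t)
    nlinarith [mul_nonneg (abs_nonneg t) (norm_nonneg (ρ t))]
  have b1' : ∀ t, ‖ρ' t‖ ≤ C := by
    intro t
    refine le_trans ?_ (hρ' t)
    nlinarith [mul_nonneg (abs_nonneg t) (norm_nonneg (ρ' t))]
  set R : ℝ → ℂ := fun t => ρ' t * conj (U t) with hR
  set X : ℝ → ℂ := fun t => L t + (-ρ t) * conj (U t) with hX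
  have hRE : ED R := ED.bmul (ED.conj' hUE) hρc' b1'
  have hXE : ED X := ED.add hLE (ED.bmul (ED.conj' hUE) hρc.neg (B := C) (fun t => by rw [norm_neg]; exact b1 t))
  have hGrel : ∀ t, G (1 / 2 - α) t = -(ρ t * conj (G (1 / 2 + α) t)) := by
    intro t
    simp only [hG]
    have := hps (ln (1 / 2 + α) t)
    have e : 1 - conj (ln (1 / 2 + α) t) = ln (1 / 2 - α) t := by
      simp only [ln, map_add, map_mul, Complex.conj_ofReal, Complex.conj_I]
      push_cast
      ring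
    rw [e] at this
    rw [this, hρe t, map_mul]
    ring
  have hXd : ∀ t, HasDerivAt X (-(2 * Real.pi) * X t - R t) t := by
    intro t
    have h1 := (hΦ _ hm).2 t
    have h2 := (hΦ _ hp).2 t
    have h3 : HasDerivAt (fun t => conj (U t)) (conj (2 * Real.pi * (I * G (1 / 2 + α) t - U t))) t := by
      exact h2.star
    have h4 := h1.add (((hρd t).neg).mul h3)
    refine h4.congr_deriv ?_
    have e1 : Φ (1 / 2 - α) t = L t := rfl
    rw [e1, hGrel t]
    simp only [hX, hR, map_mul, map_sub, Complex.conj_I, Complex.conj_ofReal, map_ofNat, Pi.neg_apply]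
    ring
  have key := ode_bound hXE hRE hXd
  have iU := sq_int hUE
  have iL := sq_int hLE
  have iX := sq_int hXE
  have iR := sq_int hRE
  have iU0 : Integrable (fun t => ‖U t‖ ^ 2) := by
    refine iU.mono' (by have := hUE.1; fun_prop) (Eventually.of_forall fun t => ?_)
    rw [Real.norm_eq_abs, abs_of_nonneg (by positivity)]
    nlinarith [mul_nonneg (sq_nonneg t) (sq_nonneg ‖U t‖)]
  have hw : ∀ (v : ℂ) (t : ℝ), (1 + |t|) * ‖v‖ ≤ C → (1 + t ^ 2) * ‖v‖ ^ 2 ≤ C ^ 2 := by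
    intro v t hv
    have h1 := pow_le_pow_left₀ (by positivity) hv 2
    refine le_trans ?_ h1
    rw [mul_pow]
    gcongr
    nlinarith [abs_nonneg t, sq_abs t]
  have kR : ∫ t, (1 + t ^ 2) * ‖R t‖ ^ 2 ≤ C ^ 2 * ∫ t, ‖U t‖ ^ 2 := by
    rw [← integral_const_mul]
    apply integral_mono iR (iU0.const_mul _)
    intro t
    simp only [hR, norm_mul, Complex.norm_conj]
    rw [mul_pow, ← mul_assoc]
    exact mul_le_mul_of_nonneg_right (hw _ _ (hρ' t)) (by positivity)
  have kL : ∫ t, (1 + t ^ 2) * ‖L t‖ ^ 2 ≤ 4 * C ^ 2 * ∫ t, ‖U t‖ ^ 2 := by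
    have h1 : ∫ t, (1 + t ^ 2) * ‖L t‖ ^ 2 ≤ ∫ t, (2 * ((1 + t ^ 2) * ‖X t‖ ^ 2) + 2 * C ^ 2 * ‖U t‖ ^ 2) := by
      apply integral_mono iL ((iX.const_mul 2).add (iU0.const_mul _))
      intro t
      have h2 := sq_le_two (L t) (X t)
      have h3 : L t - X t = ρ t * conj (U t) := by simp only [hX]; ring
      rw [h3, norm_mul, Complex.norm_conj] at h2
      have h4 := mul_le_mul_of_nonneg_right (hw _ _ (hρ t)) (sq_nonneg ‖U t‖)
      have h5 : 0 ≤ 1 + t ^ 2 := by positivity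
      have h6 := mul_le_mul_of_nonneg_left h2 h5
      show (1 + t ^ 2) * ‖L t‖ ^ 2 ≤ 2 * ((1 + t ^ 2) * ‖X t‖ ^ 2) + 2 * C ^ 2 * ‖U t‖ ^ 2
      calc _ ≤ (1 + t ^ 2) * (2 * ‖X t‖ ^ 2 + 2 * (‖ρ t‖ * ‖U t‖) ^ 2) := h6
        _ = 2 * ((1 + t ^ 2) * ‖X t‖ ^ 2) + 2 * ((1 + t ^ 2) * ‖ρ t‖ ^ 2 * ‖U t‖ ^ 2) := by ring
        _ ≤ _ := by linarith
    rw [integral_add (iX.const_mul 2) (iU0.const_mul _), integral_const_mul, integral_const_mul] at h1
    linarith
  have hfin : ∫ t, ‖-(ln (1 / 2 - α) t) * L t‖ ^ 2 ≤ ∫ t, 50 * ((1 + t ^ 2) * ‖L t‖ ^ 2) := by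
    have i1 : Integrable (fun t => ‖-(ln (1 / 2 - α) t) * L t‖ ^ 2) := by
      have h1 := sq_int (hED' _ hm)
      refine h1.mono' ((hED' _ hm).1.norm.pow 2).aestronglyMeasurable (Eventually.of_forall fun t => ?_)
      rw [Real.norm_eq_abs, abs_of_nonneg (by positivity)]
      nlinarith [mul_nonneg (sq_nonneg t) (sq_nonneg ‖-(ln (1 / 2 - α) t) * L t‖)]
    apply integral_mono i1 (iL.const_mul 50)
    intro t
    simp only [norm_mul, norm_neg, mul_pow]
    rw [← mul_assoc]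
    apply mul_le_mul_of_nonneg_right _ (by positivity)
    have e2 : ‖ln (1 / 2 - α) t‖ ≤ 1 + 2 * Real.pi * |t| := by
      unfold ln
      refine (norm_add_le _ _).trans ?_
      rw [norm_mul, Complex.norm_real, Complex.norm_real, Complex.norm_I, mul_one, Real.norm_eq_abs,
        Real.norm_eq_abs, abs_of_pos hm, abs_mul, abs_of_pos (by have := Real.pi_pos; positivity)]
      have := A.pos
      linarith
    have hpi := Real.pi_lt_d2
    have h7 : ‖ln (1 / 2 - α) t‖ ≤ 1 + 6.3 * |t| := e2.trans (by nlinarith [abs_nonneg t])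
    have h8 := pow_le_pow_left₀ (norm_nonneg _) h7 2
    refine h8.trans ?_
    have h9 : (1 + 6.3 * |t|) ^ 2 = 1 + 12.6 * |t| + 39.69 * t ^ 2 := by
      rw [← sq_abs t]; ring
    rw [h9, ← sq_abs t]
    nlinarith [sq_nonneg (|t| - 1), abs_nonneg t]
  rw [integral_const_mul] at hfin
  calc _ ≤ 50 * ∫ t, (1 + t ^ 2) * ‖L t‖ ^ 2 := hfin
    _ ≤ 50 * (4 * C ^ 2 * ∫ t, ‖U t‖ ^ 2) := by gcongr
    _ = _ := by ring

end Pool.Agent.H483.SA
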